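import Mathlib

set_option autoImplicit false
set_option linter.unusedSectionVars false

/-!
# Asymptotic inequalities
-/

namespace Pool.Agent.H98.CC

open Filter

/-- exponentials beat polynomials -/
lemma ev_exp (a C : ℝ) (k : ℕ) (ha : 0 < a) : ∀ᶠ x : ℝ in atTop, C * x ^ k ≤ Real.exp (a * x) := by
  have h1 := isLittleO_pow_exp_pos_mul_atTop k ha
  have h2 := h1.bound (show (0 : ℝ) < 1 / (|C| + 1) by positivity)
  filter_upwards [h2, eventually_ge_atTop (0 : ℝ)] with x hx hx0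
  rw [Real.norm_of_nonneg (by positivity), Real.norm_of_nonneg (Real.exp_pos _).le] at hx
  have h3 : (|C| + 1) * x ^ k ≤ Real.exp (a * x) := by
    have h4 : (0 : ℝ) < |C| + 1 := by positivity
    calc (|C| + 1) * x ^ k ≤ (|C| + 1) * (1 / (|C| + 1) * Real.exp (a * x)) :=
          mul_le_mul_of_nonneg_left hx h4.le
      _ = Real.exp (a * x) := by field_simp
  have h5 : C * x ^ k ≤ (|C| + 1) * x ^ k := by
    apply mul_le_mul_of_nonneg_right _ (by positivity)
    have := le_abs_self C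
    linarith
  linarith

/-- the properties of a large `L` -/
structure Big (K δ η L : ℝ) : Prop where
  b1 : 600 ≤ L
  b2 : 300 * Real.exp (L / 3) + 200 * L + 150 ≤ Real.exp (L / 2)
  b3 : 6060 ≤ Real.exp (L / 4)
  b4 : 4 * K * Real.exp (3 / 4 * L) * L ≤ Real.exp L
  b5 : 200 * L ≤ Real.exp (L / 6)
  b6 : 2 * K * L * Real.exp (-(L / 30)) + Real.exp (-(3 / 10 * L)) ≤ 1
  b7 : 128 * K ^ 2 * L * (4 * L + 9) * Real.exp (-(δ * L)) ≤ Real.exp (-(δ * L / 2))
  b8 : (2 * L * Real.exp (L / 2) + 1) * L ≤ 3 / 20 * Real.exp (9 / 10 * L)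
  b9 : 4 * L * Real.exp (L / 2) ≤ Real.exp L
  b10 : 4 * L ≤ Real.exp (L / 10)
  b11 : 3 * L + 1 ≤ Real.exp (η * L)
  b12 : 2 * L ≤ Real.exp (L / 20)

lemma ev_big (K δ η : ℝ) (hK : 0 ≤ K) (hδ : 0 < δ) (hη : 0 < η) :
    ∀ᶠ L : ℝ in atTop, Big K δ η L := by
  filter_upwards [eventually_ge_atTop (600 : ℝ), ev_exp (1 / 6) 900 0 (by norm_num),
    ev_exp (1 / 2) 1200 1 (by norm_num), ev_exp (1 / 4) 6060 0 (by norm_num),
    ev_exp (1 / 4) (4 * K) 1 (by norm_num), ev_exp (1 / 6) 200 1 (by norm_num),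
    ev_exp (1 / 30) (4 * K) 1 (by norm_num), ev_exp (3 / 10) 2 0 (by norm_num),
    ev_exp (δ / 2) (128 * K ^ 2 * 13) 2 (by positivity), ev_exp (4 / 10) 20 2 (by norm_num),
    ev_exp (1 / 2) 4 1 (by norm_num), ev_exp (1 / 10) 4 1 (by norm_num),
    ev_exp η 4 1 hη, ev_exp (1 / 20) 2 1 (by norm_num)]
    with L h0 h1 h2 h3 h4 h5 h6 h7 h8 h9 h10 h11 h12 h13
  have hL : (0 : ℝ) < L := by linarith
  refine ⟨h0, ?_, ?_, ?_, ?_, ?_, ?_, ?_, ?_, ?_, ?_, ?_⟩
  · -- 300 e^{L/3} ≤ e^{L/2} / 3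
    have e1 : Real.exp (L / 2) = Real.exp (L / 3) * Real.exp (1 / 6 * L) := by
      rw [← Real.exp_add]; congr 1; ring
    have e2 : 900 * Real.exp (L / 3) ≤ Real.exp (L / 2) := by
      rw [e1]
      have := mul_le_mul_of_nonneg_left h1 (Real.exp_pos (L / 3)).le
      rw [pow_zero, mul_one] at this
      linarith
    have e3 : Real.exp (1 / 2 * L) = Real.exp (L / 2) := by congr 1; ring
    rw [e3, pow_one] at h2
    linarith
  · have e3 : Real.exp (1 / 4 * L) = Real.exp (L / 4) := by congr 1; ring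
    rw [e3] at h3
    simpa using h3
  · have e1 : Real.exp L = Real.exp (3 / 4 * L) * Real.exp (1 / 4 * L) := by
      rw [← Real.exp_add]; congr 1; ring
    rw [e1]
    have := mul_le_mul_of_nonneg_left h4 (Real.exp_pos (3 / 4 * L)).le
    rw [pow_one] at this
    linarith
  · have e3 : Real.exp (1 / 6 * L) = Real.exp (L / 6) := by congr 1; ring
    rw [e3, pow_one] at h5
    exact h5
  · have e1 : 2 * K * L * Real.exp (-(L / 30)) ≤ 1 / 2 := by
      have e2 : Real.exp (1 / 30 * L) * Real.exp (-(L / 30)) = 1 := by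
        rw [← Real.exp_add, show 1 / 30 * L + -(L / 30) = 0 by ring, Real.exp_zero]
      have := mul_le_mul_of_nonneg_right h6 (Real.exp_pos (-(L / 30))).le
      rw [pow_one, e2] at this
      linarith
    have e3 : Real.exp (-(3 / 10 * L)) ≤ 1 / 2 := by
      have e2 : Real.exp (3 / 10 * L) * Real.exp (-(3 / 10 * L)) = 1 := by
        rw [← Real.exp_add, show 3 / 10 * L + -(3 / 10 * L) = 0 by ring, Real.exp_zero]
      have := mul_le_mul_of_nonneg_right h7 (Real.exp_pos (-(3 / 10 * L))).le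
      rw [pow_zero, e2] at this
      linarith
    linarith
  · have e1 : Real.exp (-(δ * L / 2)) = Real.exp (-(δ * L)) * Real.exp (δ / 2 * L) := by
      rw [← Real.exp_add]; congr 1; ring
    rw [e1]
    have e2 : 128 * K ^ 2 * L * (4 * L + 9) ≤ 128 * K ^ 2 * 13 * L ^ 2 := by
      have : 4 * L + 9 ≤ 13 * L := by linarith
      have := mul_le_mul_of_nonneg_left this (show 0 ≤ 128 * K ^ 2 * L by positivity)
      calc _ ≤ _ := this
        _ = _ := by ring
    have := mul_le_mul_of_nonneg_right (e2.trans h8) (Real.exp_pos (-(δ * L))).le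
    linarith
  · have e1 : Real.exp (9 / 10 * L) = Real.exp (L / 2) * Real.exp (4 / 10 * L) := by
      rw [← Real.exp_add]; congr 1; ring
    have e2 : 1 ≤ Real.exp (L / 2) := Real.one_le_exp (by linarith)
    have e3 := mul_le_mul_of_nonneg_left h9 (Real.exp_pos (L / 2)).le
    rw [e1]
    have e4 : (2 * L * Real.exp (L / 2) + 1) * L ≤ Real.exp (L / 2) * (3 * L ^ 2) := by
      have e5 : (1 : ℝ) ≤ L * Real.exp (L / 2) := by nlinarith
      have e6 : (2 * L * Real.exp (L / 2) + 1) ≤ 3 * L * Real.exp (L / 2) := by linarith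
      calc _ ≤ 3 * L * Real.exp (L / 2) * L := mul_le_mul_of_nonneg_right e6 hL.le
        _ = _ := by ring
    linarith
  · have e1 : Real.exp L = Real.exp (L / 2) * Real.exp (1 / 2 * L) := by
      rw [← Real.exp_add]; congr 1; ring
    rw [e1]
    have := mul_le_mul_of_nonneg_left h10 (Real.exp_pos (L / 2)).le
    rw [pow_one] at this
    linarith
  · have e3 : Real.exp (1 / 10 * L) = Real.exp (L / 10) := by congr 1; ring
    rw [e3, pow_one] at h11
    exact h11
  · rw [pow_one] at h12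
    linarith
  · have e3 : Real.exp (1 / 20 * L) = Real.exp (L / 20) := by congr 1; ring
    rw [e3, pow_one] at h13
    exact h13

/-- `u e^{u/2} ≤ e^u - 1` -/
lemma u_ineq (u : ℝ) (hu : 0 ≤ u) : u * Real.exp (u / 2) ≤ Real.exp u - 1 := by
  have h1 : u / 2 ≤ Real.sinh (u / 2) := Real.self_le_sinh_iff.mpr (by linarith)
  rw [Real.sinh_eq] at h1
  have h2 : u ≤ Real.exp (u / 2) - Real.exp (-(u / 2)) := by linarith
  have h3 := mul_le_mul_of_nonneg_right h2 (Real.exp_pos (u / 2)).le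
  have h4 : (Real.exp (u / 2) - Real.exp (-(u / 2))) * Real.exp (u / 2) = Real.exp u - 1 := by
    rw [sub_mul, ← Real.exp_add, ← Real.exp_add]
    have e1 : u / 2 + u / 2 = u := by ring
    have e2 : -(u / 2) + u / 2 = 0 := by ring
    rw [e1, e2, Real.exp_zero]
  linarith

end Pool.Agent.H98.CC
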