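import Mathlib

set_option autoImplicit false

/-!
# The clique chromatic number of `G(n,p)`: definitions
-/

namespace Pool.Agent.H98.CC

open scoped Classical

/-- The probability that the binomial random graph `G(n,p)` on the vertex set `Fin n` has the
property `P`: a graph with `m` edges has probability `p ^ m * (1 - p) ^ (n.choose 2 - m)`. -/
noncomputable def gnp (n : ℕ) (p : ℝ) (P : SimpleGraph (Fin n) → Prop) : ℝ :=
  ∑ G : SimpleGraph (Fin n),
    if P G then p ^ G.edgeSet.ncard * (1 - p) ^ (n.choose 2 - G.edgeSet.ncard) else 0

/-- `S` is a maximal clique of `G`. -/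
def IsMaxClique {V : Type} (G : SimpleGraph V) (S : Finset V) : Prop :=
  G.IsClique S ∧ ∀ T : Finset V, G.IsClique T → S ⊆ T → T = S

/-- `f` is a clique colouring of `G`: no maximal clique of `G` with at least two vertices is
monochromatic. -/
def IsCliqueColoring {V C : Type} (G : SimpleGraph V) (f : V → C) : Prop :=
  ∀ S : Finset V, IsMaxClique G S → 2 ≤ S.card → ∃ u ∈ S, ∃ v ∈ S, f u ≠ f v

/-- The clique chromatic number: the least `k` such that `G` has a clique colouring with `k`
colours. -/
noncomputable def cliqueChromaticNumber {V : Type} (G : SimpleGraph V) : ℕ :=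
  sInf {k : ℕ | ∃ f : V → Fin k, IsCliqueColoring G f}

end Pool.Agent.H98.CC
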