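import Pool.Agent.H98.CC.Gnp

set_option autoImplicit false
set_option linter.unusedSectionVars false

/-!
# The deterministic part of the lower bound
-/

namespace Pool.Agent.H98.CC

open Finset
open scoped Classical

section

variable {n : ℕ}

/-- an edge inside `B` that is not covered by a vertex with many neighbours in `B` -/
def clean (G : SimpleGraph (Fin n)) (B : Finset (Fin n)) (D : ℕ) (x y : Fin n) : Prop :=
  G.Adj x y ∧ ∀ w, w ∉ B → D ≤ (nb G w B).card → ¬ (G.Adj w x ∧ G.Adj w y)

lemma clean_symm (G : SimpleGraph (Fin n)) (B : Finset (Fin n)) (D : ℕ) (x y : Fin n)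
    (h : clean G B D x y) : clean G B D y x :=
  ⟨h.1.symm, fun w hw hD h2 => h.2 w hw hD ⟨h2.2, h2.1⟩⟩

lemma clean_irrefl (G : SimpleGraph (Fin n)) (B : Finset (Fin n)) (D : ℕ) (x : Fin n) :
    ¬ clean G B D x x := fun h => G.loopless.irrefl _ h.1

/-- `j` disjoint triangles in `N` with an edge in `B` -/
def Triples (G : SimpleGraph (Fin n)) (B N : Finset (Fin n)) (j : ℕ) : Prop :=
  ∃ M : Finset (Fin n × Fin n × Fin n), M.card = j ∧
    (∀ e ∈ M, e.1 ∈ B ∧ e.2.1 ∈ B ∧ e.1 ∈ N ∧ e.2.1 ∈ N ∧ e.2.2 ∈ N ∧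
      G.Adj e.1 e.2.1 ∧ G.Adj e.2.2 e.1 ∧ G.Adj e.2.2 e.2.1) ∧
    ∀ e ∈ M, ∀ e' ∈ M, e ≠ e' →
      Disjoint ({e.1, e.2.1, e.2.2} : Finset (Fin n)) {e'.1, e'.2.1, e'.2.2}

/-- the bad event at a vertex with neighbourhood `N` -/
def BadE (H : SimpleGraph (Fin n)) (B S : Finset (Fin n)) (T j D : ℕ) (N : Finset (Fin n)) : Prop :=
  (∃ w, w ∉ S ∧ (nb H w B).card < D ∧ 2 * T ≤ (nb H w B ∩ N).card) ∨ Triples H B N j

/-- the ordered pairs of `B` that are not covered by a vertex with many neighbours in `B` -/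
noncomputable def unc (G : SimpleGraph (Fin n)) (B : Finset (Fin n)) (D : ℕ) :
    Finset (Fin n × Fin n) :=
  B.offDiag.filter (fun e => ∀ w, w ∉ B → D ≤ (nb G w B).card → ¬ (G.Adj w e.1 ∧ G.Adj w e.2))

/-- the properties of the random graph -/
structure Good (G : SimpleGraph (Fin n)) (p : ℝ) (s b s8 D D2 T j m : ℕ) : Prop where
  codeg : ∀ u v : Fin n, u ≠ v → (nb G u (nb G v Finset.univ)).card ≤ D2
  few : ∀ X : Finset (Fin n), X.card = 2 * s →
    (Finset.univ.filter (fun w => D ≤ (nb G w X).card)).card ≤ s / 100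
  cover : ∀ B : Finset (Fin n), B.card = b →
    ∑ w ∈ Bᶜ, (if D ≤ (nb G w B).card ∧ 100 * (nb G w B).card ≤ 52 * b
      then ((nb G w B).card : ℝ) ^ 2 else 0) ≤ 9 / 10 * (b : ℝ) ^ 2
  edges : ∀ B : Finset (Fin n), B.card = b → 8 / 100 * (b : ℝ) ^ 2 ≤ ((unc G B D).card : ℝ) →
    2 / 100 * (b : ℝ) ^ 2 * p ≤ cpair (clean G B D) B
  mat : ∀ B A : Finset (Fin n), B.card = b → A.card = s → Disjoint A B →
    2 / 100 * (b : ℝ) ^ 2 * p ≤ cpair (clean (off A G) B D) B →
    (∀ x ∈ B, (nb (off A G) x B).card < D) →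
    ∃ a ∈ A, HasMatching (clean (off A G) B D) (nb G a Aᶜ ∩ B) m
  nobad : ∀ B S : Finset (Fin n), B.card = b → S.card = s8 → Disjoint S B →
    ∃ a ∈ S, ¬ BadE (off S G) B S T j D (nb G a Sᶜ)

lemma nb_mono (G : SimpleGraph (Fin n)) (w : Fin n) {Q Q' : Finset (Fin n)} (h : Q ⊆ Q') :
    nb G w Q ⊆ nb G w Q' := Finset.filter_subset_filter _ h

/-- choice of a set without a dominating vertex -/
lemma det_spread (G : SimpleGraph (Fin n)) (s D2 : ℕ) (hn : 0 < n) (hs : 0 < s)
    (hD2 : 50 * D2 ≤ s)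
    (hcodeg : ∀ u v : Fin n, u ≠ v → (nb G u (nb G v Finset.univ)).card ≤ D2)
    (C : Finset (Fin n)) (hC : ∀ v, 6 * s < (C \ nb G v C).card) :
    ∃ C' ⊆ C, C'.card = 2 * s ∧ ∀ w, 50 * (nb G w C').card ≤ 51 * s := by
  have v0 : Fin n := ⟨0, hn⟩
  have hCc : 6 * s < C.card := (hC v0).trans_le (Finset.card_le_card Finset.sdiff_subset)
  obtain ⟨C1, hC1, hC1c⟩ := Finset.exists_subset_card_eq (show 2 * s ≤ C.card by omega)
  by_cases h : ∀ w, 50 * (nb G w C1).card ≤ 51 * s
  · exact ⟨C1, hC1, hC1c, h⟩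
  · push Not at h
    obtain ⟨v1, hv1⟩ := h
    obtain ⟨D1, hD1, hD1c⟩ := Finset.exists_subset_card_eq (show s ≤ (nb G v1 C1).card by omega)
    obtain ⟨R1, hR1, hR1c⟩ := Finset.exists_subset_card_eq
      (show s ≤ (C \ nb G v1 C).card by have := hC v1; omega)
    have hadjD : ∀ x ∈ D1, G.Adj v1 x := fun x hx => (mem_nb.mp (hD1 hx)).2
    have hadjR : ∀ x ∈ R1, ¬ G.Adj v1 x := by
      intro x hx hadj
      have := Finset.mem_sdiff.mp (hR1 hx)
      exact this.2 (mem_nb.mpr ⟨this.1, hadj⟩)
    have hdis : Disjoint D1 R1 := by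
      rw [Finset.disjoint_left]
      intro x hx hx2
      exact hadjR x hx2 (hadjD x hx)
    refine ⟨D1 ∪ R1, ?_, ?_, ?_⟩
    · apply Finset.union_subset
      · exact hD1.trans ((Finset.filter_subset _ _).trans hC1)
      · exact hR1.trans Finset.sdiff_subset
    · rw [Finset.card_union_of_disjoint hdis]; omega
    · intro w
      by_cases hw : w = v1
      · subst hw
        have : nb G w (D1 ∪ R1) ⊆ D1 := by
          intro x hx
          rw [mem_nb] at hx
          rcases Finset.mem_union.mp hx.1 with h | h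
          · exact h
          · exact absurd hx.2 (hadjR x h)
        have := Finset.card_le_card this
        omega
      · have h1 : nb G w (D1 ∪ R1) ⊆ nb G w (nb G v1 Finset.univ) ∪ R1 := by
          intro x hx
          rw [mem_nb] at hx
          rcases Finset.mem_union.mp hx.1 with h | h
          · apply Finset.mem_union_left
            rw [mem_nb, mem_nb]
            exact ⟨⟨Finset.mem_univ _, hadjD x h⟩, hx.2⟩
          · exact Finset.mem_union_right _ h
        have h2 := (Finset.card_le_card h1).trans (Finset.card_union_le _ _)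
        have h3 := hcodeg w v1 hw
        omega

/-- few conflicts: a large family without conflicts -/
lemma exists_noconf {α : Type*} [DecidableEq α] (R : α → α → Prop) (d : ℕ) (j : ℕ) :
    ∀ F : Finset α, (∀ e ∈ F, (F.filter (fun e' => R e e' ∨ R e' e ∨ e' = e)).card ≤ d) →
    j * d ≤ F.card → 0 < d → ∃ J ⊆ F, J.card = j ∧ ∀ e ∈ J, ∀ e' ∈ J, e ≠ e' → ¬ R e e' := by
  induction j with
  | zero =>
    intro F _ _ _
    exact ⟨∅, Finset.empty_subset _, rfl, by simp⟩
  | succ j ih =>
    intro F hF hFc hd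
    have hne : F.Nonempty := by
      rw [← Finset.card_pos]
      have : d ≤ (j + 1) * d := Nat.le_mul_of_pos_left d (Nat.succ_pos j)
      omega
    obtain ⟨e, he⟩ := hne
    set F' := F.filter (fun e' => ¬ (R e e' ∨ R e' e ∨ e' = e)) with hF'
    have hF'sub : F' ⊆ F := Finset.filter_subset _ _
    have hcard : F.card = (F.filter (fun e' => R e e' ∨ R e' e ∨ e' = e)).card + F'.card :=
      (Finset.card_filter_add_card_filter_not _).symm
    have h1 := hF e he
    obtain ⟨J, hJ, hJc, hJ2⟩ := ih F' (fun x hx => by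
      refine le_trans (Finset.card_le_card ?_) (hF x (hF'sub hx))
      exact Finset.filter_subset_filter _ hF'sub) (by
      have : (j + 1) * d = j * d + d := by ring
      omega) hd
    have heJ : e ∉ J := by
      intro h
      have := (Finset.mem_filter.mp (hJ h)).2
      exact this (Or.inr (Or.inr rfl))
    refine ⟨insert e J, ?_, ?_, ?_⟩
    · apply Finset.insert_subset he (hJ.trans hF'sub)
    · rw [Finset.card_insert_of_notMem heJ, hJc]
    · intro a ha a' ha' hne
      rcases Finset.mem_insert.mp ha with h | h <;> rcases Finset.mem_insert.mp ha' with h' | h'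
      · exact absurd (h.trans h'.symm) hne
      · rw [h]
        have := (Finset.mem_filter.mp (hJ h')).2
        exact fun hR => this (Or.inl hR)
      · rw [h']
        have := (Finset.mem_filter.mp (hJ h)).2
        exact fun hR => this (Or.inr (Or.inl hR))
      · exact hJ2 a h a' h' hne

/-- a random subset separates many pairs -/
lemma exists_sep (A : Finset (Fin n)) (m : ℕ) (M : Fin n → Finset (Fin n × Fin n))
    (hM : ∀ a ∈ A, (M a).card = m) (w : Fin n → Fin n × Fin n → Fin n)
    (hw : ∀ a ∈ A, ∀ e ∈ M a, w a e ≠ a) :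
    ∃ S ⊆ A, (A.card : ℝ) * m / 4 ≤ ∑ a ∈ S, (((M a).filter (fun e => w a e ∉ S)).card : ℝ) := by
  by_contra hcon
  push Not at hcon
  set f : Finset (Fin n) → ℝ := fun S => ∑ a ∈ S, (((M a).filter (fun e => w a e ∉ S)).card : ℝ)
    with hf
  -- the average of `f`
  have h1 : (A.card : ℝ) * m / 4 ≤ exs A (1 / 2) f := by
    have h2 : exs A (1 / 2) f = ∑ a ∈ A, ∑ e ∈ M a, prs A (1 / 2) (fun S => a ∈ S ∧ w a e ∉ S) := by
      unfold prs
      rw [Finset.sum_congr rfl (fun a _ => (exs_sum (M a) A (1 / 2)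
        (fun e S => ind (a ∈ S ∧ w a e ∉ S))).symm), ← exs_sum]
      apply exs_congr
      intro S hS
      rw [hf]
      beta_reduce
      rw [← Finset.sum_subset hS (f := fun a => ∑ e ∈ M a, ind (a ∈ S ∧ w a e ∉ S))]
      · apply Finset.sum_congr rfl
        intro a ha
        rw [Finset.card_filter]
        push_cast
        apply Finset.sum_congr rfl
        intro e _
        by_cases h : w a e ∉ S
        · rw [if_pos h, ind_pos ⟨ha, h⟩]
        · rw [if_neg h, ind_neg (fun h' => h h'.2)]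
      · intro a _ ha
        apply Finset.sum_eq_zero
        intro e _
        exact ind_neg (fun h => ha h.1)
    rw [h2]
    have h3 : ∀ a ∈ A, ∀ e ∈ M a, (1 / 4 : ℝ) ≤ prs A (1 / 2) (fun S => a ∈ S ∧ w a e ∉ S) := by
      intro a ha e he
      have h4 : prs A (1 / 2) (fun S => a ∈ S ∧ w a e ∉ S)
          + prs A (1 / 2) (fun S => a ∈ S ∧ w a e ∈ S) = prs A (1 / 2) (fun S => {a} ⊆ S) := by
        unfold prs
        rw [← exs_add]
        apply exs_congr
        intro S _
        by_cases h5 : a ∈ S <;> by_cases h6 : w a e ∈ S <;> simp [ind, h5, h6]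
      have h5 : prs A (1 / 2 : ℝ) (fun S => {a} ⊆ S) = 1 / 2 := by
        rw [prs_subset A {a} (by simpa using ha), Finset.card_singleton, pow_one]
      have h6 : prs A (1 / 2 : ℝ) (fun S => a ∈ S ∧ w a e ∈ S) ≤ 1 / 4 := by
        by_cases h7 : w a e ∈ A
        · have h8 : prs A (1 / 2 : ℝ) (fun S => a ∈ S ∧ w a e ∈ S)
              = prs A (1 / 2 : ℝ) (fun S => ({a, w a e} : Finset (Fin n)) ⊆ S) := by
            apply prs_congr
            intro S _
            simp [Finset.insert_subset_iff]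
          rw [h8, prs_subset A {a, w a e} (by
            rw [Finset.insert_subset_iff, Finset.singleton_subset_iff]; exact ⟨ha, h7⟩),
            Finset.card_pair (hw a ha e he).symm]
          norm_num
        · have h8 : prs A (1 / 2 : ℝ) (fun S => a ∈ S ∧ w a e ∈ S) = 0 := by
            unfold prs
            rw [← exs_const A (1 / 2) 0]
            apply exs_congr
            intro S hS
            exact ind_neg (fun h => h7 (hS h.2))
          rw [h8]; norm_num
      linarith
    have h4 : ∀ a ∈ A, (m : ℝ) / 4 ≤ ∑ e ∈ M a, prs A (1 / 2) (fun S => a ∈ S ∧ w a e ∉ S) := by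
      intro a ha
      have := Finset.card_nsmul_le_sum (M a) _ _ (h3 a ha)
      rw [nsmul_eq_mul, hM a ha] at this
      linarith
    have := Finset.card_nsmul_le_sum A _ _ h4
    rw [nsmul_eq_mul] at this
    linarith
  -- strict inequality contradiction
  have h2 : ∀ S, S ⊆ A → f S < (A.card : ℝ) * m / 4 := fun S hS => hcon S hS
  obtain ⟨S0, hS0, hmax⟩ := Finset.exists_max_image A.powerset f ⟨∅, Finset.empty_mem_powerset A⟩
  rw [Finset.mem_powerset] at hS0
  have h3 : exs A (1 / 2) f ≤ f S0 := by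
    rw [← exs_const A (1 / 2) (f S0)]
    apply exs_mono A (by norm_num) (by norm_num)
    intro S hS
    exact hmax S (Finset.mem_powerset.mpr hS)
  have h4 := h2 S0 hS0
  linarith

/-- the selection of a set of vertices whose coverers lie outside -/
lemma exists_sel (A : Finset (Fin n)) (m s8 : ℕ) (M : Fin n → Finset (Fin n × Fin n)) (hm : 0 < m)
    (hM : ∀ a ∈ A, (M a).card = m) (w : Fin n → Fin n × Fin n → Fin n)
    (hw : ∀ a ∈ A, ∀ e ∈ M a, w a e ≠ a) (hs8 : 8 * s8 ≤ A.card + 7) :
    ∃ S ⊆ A, S.card = s8 ∧ ∀ a ∈ S, m ≤ 8 * ((M a).filter (fun e => w a e ∉ S)).card := by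
  obtain ⟨S, hSA, hS⟩ := exists_sep A m M hM w hw
  set S1 := S.filter (fun a => m ≤ 8 * ((M a).filter (fun e => w a e ∉ S)).card) with hS1
  have h1 : ∑ a ∈ S, (((M a).filter (fun e => w a e ∉ S)).card : ℝ)
      ≤ (S1.card : ℝ) * m + (A.card : ℝ) * (m / 8) := by
    rw [← Finset.sum_filter_add_sum_filter_not S
      (fun a => m ≤ 8 * ((M a).filter (fun e => w a e ∉ S)).card)]
    apply add_le_add
    · rw [← nsmul_eq_mul]
      apply Finset.sum_le_card_nsmul
      intro a ha
      have h2 : ((M a).filter (fun e => w a e ∉ S)).card ≤ m := by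
        rw [← hM a (hSA (Finset.mem_filter.mp ha).1)]
        exact Finset.card_le_card (Finset.filter_subset _ _)
      exact_mod_cast h2
    · have h3 := Finset.sum_le_card_nsmul (S.filter (fun a => ¬ (m ≤ 8 * ((M a).filter (fun e => w a e ∉ S)).card)))
        (fun a => (((M a).filter (fun e => w a e ∉ S)).card : ℝ)) ((m : ℝ) / 8) (by
          intro a ha
          have h2 := (Finset.mem_filter.mp ha).2
          have h4 : 8 * ((M a).filter (fun e => w a e ∉ S)).card ≤ m := by omega
          have h5 : (8 : ℝ) * (((M a).filter (fun e => w a e ∉ S)).card : ℝ) ≤ m := by exact_mod_cast h4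
          linarith)
      refine h3.trans ?_
      rw [nsmul_eq_mul]
      apply mul_le_mul_of_nonneg_right _ (by positivity)
      have : (S.filter (fun a => ¬ (m ≤ 8 * ((M a).filter (fun e => w a e ∉ S)).card))).card ≤ A.card :=
        Finset.card_le_card ((Finset.filter_subset _ _).trans hSA)
      exact_mod_cast this
  have h2 : (A.card : ℝ) / 8 ≤ S1.card := by
    have hm' : (0 : ℝ) < m := by exact_mod_cast hm
    have h3 : (A.card : ℝ) * m / 8 ≤ (S1.card : ℝ) * m := by linarith
    have h4 : (A.card : ℝ) / 8 * m ≤ (S1.card : ℝ) * m := by linarith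
    exact le_of_mul_le_mul_right h4 hm'
  have h3 : A.card ≤ 8 * S1.card := by
    have : (A.card : ℝ) ≤ 8 * S1.card := by linarith
    exact_mod_cast this
  obtain ⟨S2, hS2, hS2c⟩ := Finset.exists_subset_card_eq (show s8 ≤ S1.card by omega)
  refine ⟨S2, hS2.trans ((Finset.filter_subset _ _).trans hSA), hS2c, ?_⟩
  intro a ha
  have h4 := (Finset.mem_filter.mp (hS2 ha)).2
  refine h4.trans ?_
  apply Nat.mul_le_mul_left
  apply Finset.card_le_card
  intro e he
  rw [Finset.mem_filter] at he ⊢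
  exact ⟨he.1, fun h => he.2 (Finset.mem_filter.mp (hS2 h)).1⟩

end

end Pool.Agent.H98.CC
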