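import Pool.Agent.H98.CC.Det

set_option autoImplicit false
set_option linter.unusedSectionVars false

/-!
# The deterministic part of the lower bound, continued
-/

namespace Pool.Agent.H98.CC

open Finset
open scoped Classical

section

variable {n : ℕ}

lemma off_adj {A : Finset (Fin n)} {G : SimpleGraph (Fin n)} {u v : Fin n} :
    (off A G).Adj u v ↔ G.Adj u v ∧ u ∉ A ∧ v ∉ A := Iff.rfl

lemma nb_off (G : SimpleGraph (Fin n)) (A B : Finset (Fin n)) (hAB : Disjoint A B) (w : Fin n)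
    (hw : w ∉ A) : nb (off A G) w B = nb G w B := by
  ext x
  rw [mem_nb, mem_nb, off_adj]
  constructor
  · rintro ⟨h1, h2, _⟩; exact ⟨h1, h2⟩
  · rintro ⟨h1, h2⟩
    exact ⟨h1, h2, hw, fun h => (Finset.disjoint_left.mp hAB) h h1⟩

lemma nb_off_mem (G : SimpleGraph (Fin n)) (A B : Finset (Fin n)) (w : Fin n)
    (hw : w ∈ A) : nb (off A G) w B = ∅ := by
  ext x
  rw [mem_nb, off_adj]
  simp [hw]

lemma clean_off (G : SimpleGraph (Fin n)) (A B : Finset (Fin n)) (D : ℕ) (hD : 0 < D)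
    (hAB : Disjoint A B) (hlow : ∀ a ∈ A, (nb G a B).card < D) (x y : Fin n) (hx : x ∈ B)
    (hy : y ∈ B) : clean (off A G) B D x y ↔ clean G B D x y := by
  have hxA : x ∉ A := fun h => (Finset.disjoint_left.mp hAB) h hx
  have hyA : y ∉ A := fun h => (Finset.disjoint_left.mp hAB) h hy
  unfold clean
  constructor
  · rintro ⟨h1, h2⟩
    refine ⟨(off_adj.mp h1).1, ?_⟩
    intro w hw hDw ⟨h3, h4⟩
    by_cases hwA : w ∈ A
    · have := hlow w hwA; omega
    · apply h2 w hw (by rwa [nb_off G A B hAB w hwA])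
      exact ⟨off_adj.mpr ⟨h3, hwA, hxA⟩, off_adj.mpr ⟨h4, hwA, hyA⟩⟩
  · rintro ⟨h1, h2⟩
    refine ⟨off_adj.mpr ⟨h1, hxA, hyA⟩, ?_⟩
    intro w hw hDw ⟨h3, h4⟩
    by_cases hwA : w ∈ A
    · rw [nb_off_mem G A B w hwA] at hDw
      simp at hDw; omega
    · rw [nb_off G A B hAB w hwA] at hDw
      exact h2 w hw hDw ⟨(off_adj.mp h3).1, (off_adj.mp h4).1⟩

lemma unc_card (G : SimpleGraph (Fin n)) (B : Finset (Fin n)) (D : ℕ) (b : ℕ) (hB : B.card = b)
    (h52 : ∀ w, 100 * (nb G w B).card ≤ 52 * b)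
    (hcov : ∑ w ∈ Bᶜ, (if D ≤ (nb G w B).card ∧ 100 * (nb G w B).card ≤ 52 * b
      then ((nb G w B).card : ℝ) ^ 2 else 0) ≤ 9 / 10 * (b : ℝ) ^ 2) (hb : 50 ≤ b) :
    8 / 100 * (b : ℝ) ^ 2 ≤ ((unc G B D).card : ℝ) := by
  set K := Bᶜ.filter (fun w => D ≤ (nb G w B).card) with hK
  have h1 : B.offDiag ⊆ unc G B D ∪ K.biUnion (fun w => nb G w B ×ˢ nb G w B) := by
    rintro ⟨x, y⟩ hxy
    by_cases h : (x, y) ∈ unc G B D
    · exact Finset.mem_union_left _ h
    · apply Finset.mem_union_right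
      unfold unc at h
      rw [Finset.mem_filter] at h
      push Not at h
      obtain ⟨w, hw, hDw, h3, h4⟩ := h hxy
      rw [Finset.mem_offDiag] at hxy
      rw [Finset.mem_biUnion]
      refine ⟨w, Finset.mem_filter.mpr ⟨by simpa using hw, hDw⟩, ?_⟩
      rw [Finset.mem_product, mem_nb, mem_nb]
      exact ⟨⟨hxy.1, h3⟩, hxy.2.1, h4⟩
  have h2 := (Finset.card_le_card h1).trans (Finset.card_union_le _ _)
  have h3 : (K.biUnion (fun w => nb G w B ×ˢ nb G w B)).card ≤ ∑ w ∈ K, (nb G w B).card ^ 2 := by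
    refine Finset.card_biUnion_le.trans (le_of_eq ?_)
    apply Finset.sum_congr rfl
    intro w _
    rw [Finset.card_product, sq]
  have h4 : ((∑ w ∈ K, (nb G w B).card ^ 2 : ℕ) : ℝ) ≤ 9 / 10 * (b : ℝ) ^ 2 := by
    push_cast
    refine le_trans (le_of_eq ?_) hcov
    rw [hK, Finset.sum_filter]
    apply Finset.sum_congr rfl
    intro w _
    by_cases h : D ≤ (nb G w B).card
    · rw [if_pos h, if_pos ⟨h, h52 w⟩]
    · rw [if_neg h, if_neg (fun h' => h h'.1)]
  rw [Finset.offDiag_card, hB] at h2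
  have h5 : ((b * b - b : ℕ) : ℝ) ≤ ((unc G B D).card : ℝ) + ((∑ w ∈ K, (nb G w B).card ^ 2 : ℕ) : ℝ) := by
    have : b * b - b ≤ (unc G B D).card + ∑ w ∈ K, (nb G w B).card ^ 2 := by omega
    exact_mod_cast this
  rw [Nat.cast_sub (Nat.le_mul_self b)] at h5
  push_cast at h5 h4
  have h6 : (50 : ℝ) ≤ b := by exact_mod_cast hb
  nlinarith

lemma matching_card {Y : Finset (Fin n)} {F : Finset (Fin n × Fin n)}
    (h1 : ∀ e ∈ F, e.1 ∈ Y ∧ e.2 ∈ Y ∧ e.1 ≠ e.2)
    (h2 : ∀ e ∈ F, ∀ e' ∈ F, e ≠ e' → e.1 ≠ e'.1 ∧ e.1 ≠ e'.2 ∧ e.2 ≠ e'.1 ∧ e.2 ≠ e'.2) :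
    2 * F.card ≤ Y.card := by
  have h3 : (F.image (fun e => e.1)).card = F.card := by
    apply Finset.card_image_of_injOn
    intro e he e' he' h
    by_contra hne
    exact (h2 e he e' he' hne).1 h
  have h4 : (F.image (fun e => e.2)).card = F.card := by
    apply Finset.card_image_of_injOn
    intro e he e' he' h
    by_contra hne
    exact (h2 e he e' he' hne).2.2.2 h
  have h5 : Disjoint (F.image (fun e => e.1)) (F.image (fun e => e.2)) := by
    rw [Finset.disjoint_left]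
    intro x hx hx'
    obtain ⟨e, he, rfl⟩ := Finset.mem_image.mp hx
    obtain ⟨e', he', h⟩ := Finset.mem_image.mp hx'
    by_cases hne : e = e'
    · subst hne; exact (h1 e he).2.2 h.symm
    · exact (h2 e he e' he' hne).2.1 h.symm
  have h6 : F.image (fun e => e.1) ∪ F.image (fun e => e.2) ⊆ Y := by
    apply Finset.union_subset
    · intro x hx
      obtain ⟨e, he, rfl⟩ := Finset.mem_image.mp hx
      exact (h1 e he).1
    · intro x hx
      obtain ⟨e, he, rfl⟩ := Finset.mem_image.mp hx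
      exact (h1 e he).2.1
  have := Finset.card_le_card h6
  rw [Finset.card_union_of_disjoint h5, h3, h4] at this
  omega

/-- the greedy extraction of disjoint triangles -/
lemma extract (G : SimpleGraph (Fin n)) (B S : Finset (Fin n)) (hSB : Disjoint S B) (T j D m : ℕ)
    (hT : 0 < T) (a : Fin n)
    (hbad : ¬ BadE (off S G) B S T j D (nb G a Sᶜ)) (M : Finset (Fin n × Fin n))
    (hM : ∀ e ∈ M, e.1 ∈ nb G a B ∧ e.2 ∈ nb G a B ∧ G.Adj e.1 e.2)
    (hM2 : ∀ e ∈ M, ∀ e' ∈ M, e ≠ e' → e.1 ≠ e'.1 ∧ e.1 ≠ e'.2 ∧ e.2 ≠ e'.1 ∧ e.2 ≠ e'.2)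
    (w : Fin n × Fin n → Fin n)
    (hw : ∀ e ∈ M, G.Adj (w e) a ∧ G.Adj (w e) e.1 ∧ G.Adj (w e) e.2 ∧ (nb G (w e) B).card < D)
    (hlow : ∀ x ∈ B, (nb G x B).card < D)
    (hsel : m ≤ 8 * (M.filter (fun e => w e ∉ S)).card) (hm : 8 * (j * (3 * T)) ≤ m) : False := by
  unfold BadE at hbad
  push Not at hbad
  obtain ⟨hb1, hb2⟩ := hbad
  set N := nb G a Sᶜ with hN
  set F := M.filter (fun e => w e ∉ S) with hF
  have hFM : F ⊆ M := Finset.filter_subset _ _
  -- pairs in `F` with a given coverer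
  have hcov : ∀ z, z ∉ S → (nb G z B).card < D → (F.filter (fun e => w e = z)).card < T := by
    intro z hz hzD
    have h1 := hb1 z hz (by rwa [nb_off G S B hSB z hz])
    rw [nb_off G S B hSB z hz] at h1
    have h2 : 2 * (F.filter (fun e => w e = z)).card ≤ (nb G z B ∩ N).card := by
      apply matching_card
      · intro e he
        rw [Finset.mem_filter] at he
        obtain ⟨heF, hez⟩ := he
        have heM := hFM heF
        obtain ⟨h3, h4, h5⟩ := hM e heM
        obtain ⟨h6, h7, h8, _⟩ := hw e heM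
        rw [mem_nb] at h3 h4
        rw [hez] at h7 h8
        refine ⟨?_, ?_, h5.ne⟩
        · rw [Finset.mem_inter, hN, mem_nb, mem_nb, Finset.mem_compl]
          exact ⟨⟨h3.1, h7⟩, fun h => (Finset.disjoint_left.mp hSB) h h3.1, h3.2⟩
        · rw [Finset.mem_inter, hN, mem_nb, mem_nb, Finset.mem_compl]
          exact ⟨⟨h4.1, h8⟩, fun h => (Finset.disjoint_left.mp hSB) h h4.1, h4.2⟩
      · intro e he e' he' hne
        exact hM2 e (hFM (Finset.mem_filter.mp he).1) e' (hFM (Finset.mem_filter.mp he').1) hne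
    omega
  set R : Fin n × Fin n → Fin n × Fin n → Prop := fun e e' =>
    w e = w e' ∨ w e = e'.1 ∨ w e = e'.2 ∨ w e' = e.1 ∨ w e' = e.2 with hR
  have hRs : ∀ e e', R e e' → R e' e := by
    intro e e' h
    simp only [hR] at h ⊢
    rcases h with h | h | h | h | h
    · exact Or.inl h.symm
    · exact Or.inr (Or.inr (Or.inr (Or.inl h)))
    · exact Or.inr (Or.inr (Or.inr (Or.inr h)))
    · exact Or.inr (Or.inl h)
    · exact Or.inr (Or.inr (Or.inl h))
  have hconf : ∀ e ∈ F, (F.filter (fun e' => R e e' ∨ R e' e ∨ e' = e)).card ≤ 3 * T := by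
    intro e he
    have heM := hFM he
    have hweS : w e ∉ S := (Finset.mem_filter.mp he).2
    obtain ⟨h3, h4, h5⟩ := hM e heM
    rw [mem_nb] at h3 h4
    have he1S : e.1 ∉ S := fun h => (Finset.disjoint_left.mp hSB) h h3.1
    have he2S : e.2 ∉ S := fun h => (Finset.disjoint_left.mp hSB) h h4.1
    have hsub : F.filter (fun e' => R e e' ∨ R e' e ∨ e' = e) ⊆
        (F.filter (fun e' => w e' = w e) ∪ F.filter (fun e' => w e' = e.1)) ∪
        (F.filter (fun e' => w e' = e.2) ∪ F.filter (fun e' => w e = e'.1 ∨ w e = e'.2)) := by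
      intro e' he'
      rw [Finset.mem_filter] at he'
      obtain ⟨h6, h7⟩ := he'
      have h8 : R e e' ∨ e' = e := by
        rcases h7 with h7 | h7 | h7
        · exact Or.inl h7
        · exact Or.inl (hRs _ _ h7)
        · exact Or.inr h7
      simp only [Finset.mem_union, Finset.mem_filter, h6, true_and]
      rcases h8 with h8 | h8
      · simp only [hR] at h8
        rcases h8 with h8 | h8 | h8 | h8 | h8
        · exact Or.inl (Or.inl h8.symm)
        · exact Or.inr (Or.inr (Or.inl h8))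
        · exact Or.inr (Or.inr (Or.inr h8))
        · exact Or.inl (Or.inr h8)
        · exact Or.inr (Or.inl h8)
      · rw [h8]; exact Or.inl (Or.inl rfl)
    have hc1 := hcov (w e) hweS (hw e heM).2.2.2
    have hc2 := hcov e.1 he1S (hlow e.1 h3.1)
    have hc3 := hcov e.2 he2S (hlow e.2 h4.1)
    have hc4 : (F.filter (fun e' => w e = e'.1 ∨ w e = e'.2)).card ≤ 1 := by
      rw [Finset.card_le_one]
      intro x hx y hy
      rw [Finset.mem_filter] at hx hy
      by_contra hne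
      obtain ⟨q1, q2, q3, q4⟩ := hM2 x (hFM hx.1) y (hFM hy.1) hne
      rcases hx.2 with h | h <;> rcases hy.2 with h' | h'
      · exact q1 (h.symm.trans h')
      · exact q2 (h.symm.trans h')
      · exact q3 (h.symm.trans h')
      · exact q4 (h.symm.trans h')
    have h9 := Finset.card_le_card hsub
    have h10 := Finset.card_union_le
      (F.filter (fun e' => w e' = w e) ∪ F.filter (fun e' => w e' = e.1))
      (F.filter (fun e' => w e' = e.2) ∪ F.filter (fun e' => w e = e'.1 ∨ w e = e'.2))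
    have h11 := Finset.card_union_le (F.filter (fun e' => w e' = w e)) (F.filter (fun e' => w e' = e.1))
    have h12 := Finset.card_union_le (F.filter (fun e' => w e' = e.2))
      (F.filter (fun e' => w e = e'.1 ∨ w e = e'.2))
    omega
  obtain ⟨J, hJF, hJc, hJ⟩ := exists_noconf R (3 * T) j F
    (fun e he => by convert hconf e he) (by omega) (by omega)
  apply hb2
  refine ⟨J.image (fun e => (e.1, e.2, w e)), ?_, ?_, ?_⟩
  · rw [Finset.card_image_of_injective, hJc]
    intro e e' h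
    simp only [Prod.mk.injEq] at h
    exact Prod.ext h.1 h.2.1
  · intro t ht
    obtain ⟨e, he, rfl⟩ := Finset.mem_image.mp ht
    have heF := hJF he
    have heM := hFM heF
    have hweS : w e ∉ S := (Finset.mem_filter.mp heF).2
    obtain ⟨h3, h4, h5⟩ := hM e heM
    obtain ⟨h6, h7, h8, _⟩ := hw e heM
    rw [mem_nb] at h3 h4
    have he1S : e.1 ∉ S := fun h => (Finset.disjoint_left.mp hSB) h h3.1
    have he2S : e.2 ∉ S := fun h => (Finset.disjoint_left.mp hSB) h h4.1
    refine ⟨h3.1, h4.1, ?_, ?_, ?_, ?_, ?_, ?_⟩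
    · rw [hN, mem_nb, Finset.mem_compl]; exact ⟨he1S, h3.2⟩
    · rw [hN, mem_nb, Finset.mem_compl]; exact ⟨he2S, h4.2⟩
    · rw [hN, mem_nb, Finset.mem_compl]; exact ⟨hweS, h6.symm⟩
    · exact off_adj.mpr ⟨h5, he1S, he2S⟩
    · exact off_adj.mpr ⟨h7, hweS, he1S⟩
    · exact off_adj.mpr ⟨h8, hweS, he2S⟩
  · intro t ht t' ht' hne
    obtain ⟨e, he, rfl⟩ := Finset.mem_image.mp ht
    obtain ⟨e', he', rfl⟩ := Finset.mem_image.mp ht'
    have hee' : e ≠ e' := fun h => hne (by rw [h])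
    have h1 := hJ e he e' he' hee'
    simp only [hR, not_or] at h1
    obtain ⟨q1, q2, q3, q4⟩ := hM2 e (hFM (hJF he)) e' (hFM (hJF he')) hee'
    obtain ⟨r1, r2, r3, r4, r5⟩ := h1
    rw [Finset.disjoint_left]
    intro x hx hx'
    simp only [Finset.mem_insert, Finset.mem_singleton] at hx hx'
    rcases hx with rfl | rfl | rfl <;> rcases hx' with h | h | h
    · exact q1 h
    · exact q2 h
    · exact r4 h.symm
    · exact q3 h
    · exact q4 h
    · exact r5 h.symm
    · exact r2 h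
    · exact r3 h
    · exact r1 h

/-- A set of vertices all of whose triangles are covered is almost contained in a neighbourhood. -/
theorem det_main (G : SimpleGraph (Fin n)) (p : ℝ) (s b s8 D D2 T j m : ℕ) (hn : 0 < n)
    (hs : 100 ≤ s) (hb : b = 2 * s - s / 100) (hD : 0 < D) (hD2 : 50 * D2 ≤ s) (hT : 0 < T)
    (hm0 : 0 < m) (hm : 8 * (j * (3 * T)) ≤ m) (hs8 : 8 * s8 ≤ s + 7)
    (hG : Good G p s b s8 D D2 T j m) (C : Finset (Fin n))
    (htri : ∀ x ∈ C, ∀ y ∈ C, ∀ z ∈ C, G.Adj x y → G.Adj x z → G.Adj y z →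
      ∃ w, G.Adj w x ∧ G.Adj w y ∧ G.Adj w z) :
    ∃ v, (C \ nb G v C).card ≤ 6 * s := by
  by_contra hcon
  push Not at hcon
  have v0 : Fin n := ⟨0, hn⟩
  have hCc : 6 * s < C.card := (hcon v0).trans_le (Finset.card_le_card Finset.sdiff_subset)
  obtain ⟨C', hC'C, hC'c, hC'w⟩ := det_spread G s D2 hn (by omega) hD2 hG.codeg C hcon
  set H := Finset.univ.filter (fun w => D ≤ (nb G w C').card) with hH
  have hHc : H.card ≤ s / 100 := hG.few C' hC'c
  obtain ⟨B, hBsub, hBc⟩ := Finset.exists_subset_card_eq (show b ≤ (C' \ H).card by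
    have := Finset.le_card_sdiff H C'
    omega)
  have hBC' : B ⊆ C' := hBsub.trans Finset.sdiff_subset
  have hBC : B ⊆ C := hBC'.trans hC'C
  have h52 : ∀ w, 100 * (nb G w B).card ≤ 52 * b := by
    intro w
    have h1 := hC'w w
    have h2 := Finset.card_le_card (nb_mono G w hBC')
    omega
  have hnotH : ∀ w, w ∉ H → (nb G w B).card < D := by
    intro w hw
    have h1 : (nb G w C').card < D := by
      by_contra h
      exact hw (Finset.mem_filter.mpr ⟨Finset.mem_univ _, by omega⟩)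
    exact (Finset.card_le_card (nb_mono G w hBC')).trans_lt h1
  have hlowB : ∀ x ∈ B, (nb G x B).card < D := fun x hx =>
    hnotH x (Finset.mem_sdiff.mp (hBsub hx)).2
  have hunc := unc_card G B D b hBc h52 (hG.cover B hBc) (by omega)
  have hedges := hG.edges B hBc hunc
  set A0 := C \ (C' ∪ H) with hA0
  have hA0c : 3 * s ≤ A0.card := by
    have h1 : C.card - (C' ∪ H).card ≤ A0.card := Finset.le_card_sdiff (C' ∪ H) C
    have h2 := Finset.card_union_le C' H
    omega
  have hA0B : ∀ a ∈ A0, a ∉ B := by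
    intro a ha haB
    have := (Finset.mem_sdiff.mp ha).2
    exact this (Finset.mem_union_left _ (hBC' haB))
  have hA0low : ∀ a ∈ A0, (nb G a B).card < D := by
    intro a ha
    apply hnotH
    intro h
    exact (Finset.mem_sdiff.mp ha).2 (Finset.mem_union_right _ h)
  -- matchings
  have hmat : ∀ A ⊆ A0, A.card = s → ∃ a ∈ A, HasMatching (clean G B D) (nb G a B) m := by
    intro A hA hAc
    have hAB : Disjoint A B := by
      rw [Finset.disjoint_left]
      intro a ha
      exact hA0B a (hA ha)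
    have hlA : ∀ a ∈ A, (nb G a B).card < D := fun a ha => hA0low a (hA ha)
    have hcl := clean_off G A B D hD hAB hlA
    have hcp : cpair (clean (off A G) B D) B = cpair (clean G B D) B := by
      unfold cpair
      apply Finset.sum_congr rfl
      intro x hx
      congr 2
      unfold nbr
      apply Finset.filter_congr
      intro y hy
      exact hcl x y hx hy
    obtain ⟨a, ha, M, hMc, hM1, hM2⟩ := hG.mat B A hBc hAc hAB (by rw [hcp]; exact hedges) (by
      intro x hx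
      rw [nb_off G A B hAB x (fun h => (Finset.disjoint_left.mp hAB) h hx)]
      exact hlowB x hx)
    refine ⟨a, ha, M, hMc, ?_, hM2⟩
    intro e he
    obtain ⟨h1, h2, h3⟩ := hM1 e he
    rw [Finset.mem_inter, mem_nb] at h1 h2
    exact ⟨mem_nb.mpr ⟨h1.2, h1.1.2⟩, mem_nb.mpr ⟨h2.2, h2.1.2⟩, (hcl _ _ h1.2 h2.2).1 h3⟩
  set A1 := A0.filter (fun a => HasMatching (clean G B D) (nb G a B) m) with hA1
  have hA1c : s ≤ A1.card := by
    by_contra h
    have h1 : A0.card = A1.card + (A0.filter (fun a => ¬ HasMatching (clean G B D) (nb G a B) m)).card :=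
      (Finset.card_filter_add_card_filter_not _).symm
    obtain ⟨A, hA, hAc⟩ := Finset.exists_subset_card_eq
      (show s ≤ (A0.filter (fun a => ¬ HasMatching (clean G B D) (nb G a B) m)).card by omega)
    obtain ⟨a, ha, h2⟩ := hmat A (hA.trans (Finset.filter_subset _ _)) hAc
    exact (Finset.mem_filter.mp (hA ha)).2 h2
  obtain ⟨A, hAA1, hAc⟩ := Finset.exists_subset_card_eq hA1c
  have hAA0 : A ⊆ A0 := hAA1.trans (Finset.filter_subset _ _)
  have hAC : A ⊆ C := hAA0.trans Finset.sdiff_subset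
  -- choose the matchings and the coverers
  have hchoice : ∀ a : Fin n, ∃ M : Finset (Fin n × Fin n), a ∈ A → M.card = m ∧
      (∀ e ∈ M, e.1 ∈ nb G a B ∧ e.2 ∈ nb G a B ∧ clean G B D e.1 e.2) ∧
      ∀ e ∈ M, ∀ e' ∈ M, e ≠ e' → e.1 ≠ e'.1 ∧ e.1 ≠ e'.2 ∧ e.2 ≠ e'.1 ∧ e.2 ≠ e'.2 := by
    intro a
    by_cases ha : a ∈ A
    · obtain ⟨M, h1, h2, h3⟩ := (Finset.mem_filter.mp (hAA1 ha)).2
      exact ⟨M, fun _ => ⟨h1, h2, h3⟩⟩
    · exact ⟨∅, fun h => absurd h ha⟩
  choose M hM using hchoice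
  have hchoice2 : ∀ (a : Fin n) (e : Fin n × Fin n), ∃ w : Fin n, a ∈ A → e ∈ M a →
      G.Adj w a ∧ G.Adj w e.1 ∧ G.Adj w e.2 := by
    intro a e
    by_cases h : a ∈ A ∧ e ∈ M a
    · obtain ⟨h1, h2⟩ := h
      obtain ⟨h3, h4, h5⟩ := (hM a h1).2.1 e h2
      rw [mem_nb] at h3 h4
      obtain ⟨w, hw1, hw2, hw3⟩ := htri a (hAC h1) e.1 (hBC h3.1) e.2 (hBC h4.1) h3.2 h4.2 h5.1
      exact ⟨w, fun _ _ => ⟨hw1, hw2, hw3⟩⟩
    · exact ⟨a, fun h1 h2 => absurd ⟨h1, h2⟩ h⟩
  choose w hw using hchoice2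
  obtain ⟨S, hSA, hSc, hS⟩ := exists_sel A m s8 M hm0 (fun a ha => (hM a ha).1) w
    (fun a ha e he => (hw a e ha he).1.ne) (by rw [hAc]; exact hs8)
  have hSB : Disjoint S B := by
    rw [Finset.disjoint_left]
    intro a ha
    exact hA0B a (hAA0 (hSA ha))
  obtain ⟨a, ha, hbad⟩ := hG.nobad B S hBc hSc hSB
  have haA := hSA ha
  refine extract G B S hSB T j D m hT a hbad (M a) (fun e he => ?_) (hM a haA).2.2 (w a)
    (fun e he => ?_) hlowB (hS a ha) hm
  · obtain ⟨h3, h4, h5⟩ := (hM a haA).2.1 e he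
    exact ⟨h3, h4, h5.1⟩
  · obtain ⟨h1, h2, h3⟩ := hw a e haA he
    refine ⟨h1, h2, h3, ?_⟩
    obtain ⟨h4, h5, h6⟩ := (hM a haA).2.1 e he
    by_cases hwB : w a e ∈ B
    · exact hlowB _ hwB
    · by_contra h7
      exact h6.2 (w a e) hwB (by omega) ⟨h2, h3⟩

end

end Pool.Agent.H98.CC
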