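import Mathlib

set_option autoImplicit false
set_option linter.unusedSectionVars false

/-!
# Random subsets of finite sets

`exs s p f` is the expectation of `f W` for a random subset `W` of `s` that contains each point with
probability `p` independently; `prs s p A` is the probability that `A W` holds.
-/

namespace Pool.Agent.H98.CC

open Finset
open scoped Classical

section exs

variable {X : Type*} [DecidableEq X]

/-- Expectation of `f W` for a random subset `W` of `s` that contains each point with probability `p`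
independently. -/
noncomputable def exs (s : Finset X) (p : ℝ) (f : Finset X → ℝ) : ℝ :=
  ∑ W ∈ s.powerset, p ^ W.card * (1 - p) ^ (s.card - W.card) * f W

/-- indicator of a proposition -/
noncomputable def ind (P : Prop) : ℝ := if P then 1 else 0

lemma ind_pos {P : Prop} (h : P) : ind P = 1 := if_pos h
lemma ind_neg {P : Prop} (h : ¬ P) : ind P = 0 := if_neg h
lemma ind_nonneg (P : Prop) : 0 ≤ ind P := by
  unfold ind; split_ifs <;> norm_num
lemma ind_le_one (P : Prop) : ind P ≤ 1 := by
  unfold ind; split_ifs <;> norm_num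
lemma ind_mono {P Q : Prop} (h : P → Q) : ind P ≤ ind Q := by
  by_cases h1 : P
  · rw [ind_pos h1, ind_pos (h h1)]
  · rw [ind_neg h1]; exact ind_nonneg Q
lemma ind_congr {P Q : Prop} (h : P ↔ Q) : ind P = ind Q := by rw [propext h]
lemma ind_and (P Q : Prop) : ind (P ∧ Q) = ind P * ind Q := by
  by_cases h1 : P <;> by_cases h2 : Q <;> simp [ind, h1, h2]
lemma ind_not (P : Prop) : ind (¬ P) = 1 - ind P := by
  by_cases h1 : P <;> simp [ind, h1]
lemma ind_forall {ι : Type*} (t : Finset ι) (P : ι → Prop) :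
    ind (∀ i ∈ t, P i) = ∏ i ∈ t, ind (P i) := by
  by_cases h : ∀ i ∈ t, P i
  · rw [ind_pos h]
    symm
    exact Finset.prod_eq_one (fun i hi => ind_pos (h i hi))
  · rw [ind_neg h]
    push Not at h
    obtain ⟨i, hi, h2⟩ := h
    symm
    exact Finset.prod_eq_zero hi (ind_neg h2)

/-- Probability that a random subset `W` of `s` has the property `A`. -/
noncomputable def prs (s : Finset X) (p : ℝ) (A : Finset X → Prop) : ℝ :=
  exs s p (fun W => ind (A W))

lemma exs_empty (p : ℝ) (f : Finset X → ℝ) : exs ∅ p f = f ∅ := by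
  simp [exs]

lemma exs_insert (s : Finset X) (x : X) (hx : x ∉ s) (p : ℝ) (f : Finset X → ℝ) :
    exs (insert x s) p f = (1 - p) * exs s p f + p * exs s p (fun W => f (insert x W)) := by
  unfold exs
  rw [Finset.sum_powerset_insert hx, Finset.card_insert_of_notMem hx, Finset.mul_sum,
    Finset.mul_sum]
  congr 1
  · apply Finset.sum_congr rfl
    intro W hW
    have hle : W.card ≤ s.card := Finset.card_le_card (Finset.mem_powerset.mp hW)
    rw [show s.card + 1 - W.card = (s.card - W.card) + 1 by omega, pow_succ]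
    ring
  · apply Finset.sum_congr rfl
    intro W hW
    have hxW : x ∉ W := fun h => hx (Finset.mem_powerset.mp hW h)
    rw [Finset.card_insert_of_notMem hxW, Nat.add_sub_add_right, pow_succ]
    ring

lemma exs_add (s : Finset X) (p : ℝ) (f g : Finset X → ℝ) :
    exs s p (fun W => f W + g W) = exs s p f + exs s p g := by
  unfold exs
  rw [← Finset.sum_add_distrib]
  apply Finset.sum_congr rfl
  intro W _
  ring

lemma exs_mul_left (s : Finset X) (p c : ℝ) (f : Finset X → ℝ) :
    exs s p (fun W => c * f W) = c * exs s p f := by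
  unfold exs
  rw [Finset.mul_sum]
  apply Finset.sum_congr rfl
  intro W _
  ring

lemma exs_sum {ι : Type*} (t : Finset ι) (s : Finset X) (p : ℝ) (f : ι → Finset X → ℝ) :
    exs s p (fun W => ∑ i ∈ t, f i W) = ∑ i ∈ t, exs s p (f i) := by
  unfold exs
  rw [Finset.sum_comm]
  apply Finset.sum_congr rfl
  intro W _
  rw [Finset.mul_sum]

lemma exs_const (s : Finset X) (p c : ℝ) : exs s p (fun _ => c) = c := by
  induction s using Finset.induction_on with
  | empty => simp [exs]
  | insert x s hx ih =>
    rw [exs_insert s x hx, ih]; ring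

lemma exs_mono (s : Finset X) {p : ℝ} (hp0 : 0 ≤ p) (hp1 : p ≤ 1) {f g : Finset X → ℝ}
    (h : ∀ W, W ⊆ s → f W ≤ g W) : exs s p f ≤ exs s p g := by
  unfold exs
  apply Finset.sum_le_sum
  intro W hW
  apply mul_le_mul_of_nonneg_left (h W (Finset.mem_powerset.mp hW))
  have : 0 ≤ 1 - p := by linarith
  positivity

lemma exs_nonneg (s : Finset X) {p : ℝ} (hp0 : 0 ≤ p) (hp1 : p ≤ 1) {f : Finset X → ℝ}
    (h : ∀ W, W ⊆ s → 0 ≤ f W) : 0 ≤ exs s p f := by
  rw [← exs_const s p 0]
  exact exs_mono s hp0 hp1 h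

lemma exs_congr (s : Finset X) (p : ℝ) {f g : Finset X → ℝ} (h : ∀ W, W ⊆ s → f W = g W) :
    exs s p f = exs s p g := by
  unfold exs
  apply Finset.sum_congr rfl
  intro W hW
  rw [h W (Finset.mem_powerset.mp hW)]

lemma exs_fubini (a b : Finset X) (hab : Disjoint a b) (p : ℝ)
    (F : Finset X → Finset X → ℝ) :
    exs (a ∪ b) p (fun W => F (W ∩ a) (W ∩ b)) = exs a p (fun Y => exs b p (fun Z => F Y Z)) := by
  induction b using Finset.induction_on generalizing F with
  | empty =>
    rw [Finset.union_empty]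
    apply exs_congr
    intro W hW
    rw [exs_empty, Finset.inter_empty, Finset.inter_eq_left.mpr hW]
  | insert x b hx ih =>
    have hxa : x ∉ a := fun h => (Finset.disjoint_left.mp hab) h (Finset.mem_insert_self x b)
    have hab' : Disjoint a b := hab.mono_right (Finset.subset_insert x b)
    rw [Finset.union_insert, exs_insert _ x (by simp [hxa, hx])]
    have e1 : exs (a ∪ b) p (fun W => F (W ∩ a) (W ∩ insert x b))
        = exs (a ∪ b) p (fun W => F (W ∩ a) (W ∩ b)) := by
      apply exs_congr
      intro W hW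
      have hxW : x ∉ W := fun h => by
        rcases Finset.mem_union.mp (hW h) with h | h
        · exact hxa h
        · exact hx h
      congr 1
      ext y
      simp only [Finset.mem_inter, Finset.mem_insert]
      constructor
      · rintro ⟨h1, h2 | h2⟩
        · exact absurd (h2 ▸ h1) hxW
        · exact ⟨h1, h2⟩
      · rintro ⟨h1, h2⟩
        exact ⟨h1, Or.inr h2⟩
    have e2 : exs (a ∪ b) p (fun W => F (insert x W ∩ a) (insert x W ∩ insert x b))
        = exs (a ∪ b) p (fun W => (fun Y Z => F Y (insert x Z)) (W ∩ a) (W ∩ b)) := by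
      apply exs_congr
      intro W hW
      rw [Finset.insert_inter_of_notMem hxa, ← Finset.insert_inter_distrib]
    rw [e1, e2, ih hab' F, ih hab' (fun Y Z => F Y (insert x Z))]
    have e3 : ∀ Y : Finset X, exs (insert x b) p (fun Z => F Y Z)
        = (1 - p) * exs b p (fun Z => F Y Z) + p * exs b p (fun Z => F Y (insert x Z)) :=
      fun Y => exs_insert b x hx p _
    simp only [e3]
    rw [exs_add, exs_mul_left, exs_mul_left]

lemma exs_mul_right (s : Finset X) (p c : ℝ) (f : Finset X → ℝ) :
    exs s p (fun W => f W * c) = exs s p f * c := by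
  rw [mul_comm, ← exs_mul_left]
  apply exs_congr
  intro W _
  ring

lemma exs_split (a b : Finset X) (hab : Disjoint a b) (p : ℝ) (f g : Finset X → ℝ) :
    exs (a ∪ b) p (fun W => f (W ∩ a) * g (W ∩ b)) = exs a p f * exs b p g := by
  rw [exs_fubini a b hab p (fun Y Z => f Y * g Z)]
  rw [← exs_mul_right]
  apply exs_congr
  intro W _
  rw [exs_mul_left]

/-- a function of the trace on a subset -/
lemma exs_inter (s T : Finset X) (hT : T ⊆ s) (p : ℝ) (f : Finset X → ℝ) :
    exs s p (fun W => f (W ∩ T)) = exs T p f := by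
  have h := exs_split T (s \ T) Finset.disjoint_sdiff p f (fun _ => 1)
  rw [Finset.union_sdiff_of_subset hT, exs_const, mul_one] at h
  rw [← h]
  apply exs_congr
  intro W _
  rw [mul_one]

lemma exs_prod {ι : Type*} [DecidableEq ι] (B : Finset ι) (p : ℝ) (T : ι → Finset X) (g : ι → Finset X → ℝ) :
    ∀ s : Finset X, (∀ i ∈ B, T i ⊆ s) → (∀ i ∈ B, ∀ j ∈ B, i ≠ j → Disjoint (T i) (T j)) →
    exs s p (fun W => ∏ i ∈ B, g i (W ∩ T i)) = ∏ i ∈ B, exs (T i) p (g i) := by
  induction B using Finset.induction_on with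
  | empty =>
    intro s _ _
    simp only [Finset.prod_empty]
    exact exs_const s p 1
  | insert i B hi ih =>
    intro s hs hd
    rw [Finset.prod_insert hi]
    have hTi : T i ⊆ s := hs i (Finset.mem_insert_self i B)
    have hU : T i ∪ (s \ T i) = s := Finset.union_sdiff_of_subset hTi
    have hsub : ∀ j ∈ B, T j ⊆ s \ T i := by
      intro j hj
      apply Finset.subset_sdiff.mpr
      refine ⟨hs j (Finset.mem_insert_of_mem hj), ?_⟩
      exact hd j (Finset.mem_insert_of_mem hj) i (Finset.mem_insert_self i B)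
        (fun h => hi (h ▸ hj))
    have h1 := exs_split (T i) (s \ T i) Finset.disjoint_sdiff p (g i)
      (fun W => ∏ j ∈ B, g j (W ∩ T j))
    rw [hU] at h1
    rw [ih (s \ T i) hsub (fun a ha b hb hab => hd a (Finset.mem_insert_of_mem ha) b
      (Finset.mem_insert_of_mem hb) hab)] at h1
    rw [← h1]
    apply exs_congr
    intro W hW
    rw [Finset.prod_insert hi]
    congr 1
    apply Finset.prod_congr rfl
    intro j hj
    congr 1
    ext y
    simp only [Finset.mem_inter, Finset.mem_sdiff]
    constructor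
    · rintro ⟨h2, h3⟩
      exact ⟨⟨h2, Finset.mem_sdiff.mp (hsub j hj h3)⟩, h3⟩
    · rintro ⟨⟨h2, _⟩, h3⟩
      exact ⟨h2, h3⟩

lemma exs_image {Y : Type*} [DecidableEq Y] (s : Finset Y) (φ : Y → X) (hφ : Set.InjOn φ s) (p : ℝ)
    (f : Finset X → ℝ) :
    exs (s.image φ) p f = exs s p (fun W => f (W.image φ)) := by
  unfold exs
  rw [Finset.card_image_of_injOn hφ]
  symm
  apply Finset.sum_bij (fun W _ => W.image φ)
  · intro W hW
    rw [Finset.mem_powerset] at hW ⊢
    exact Finset.image_subset_image hW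
  · intro W hW W' hW' h
    rw [Finset.mem_powerset] at hW hW'
    ext y
    constructor
    · intro hy
      have h1 : φ y ∈ W'.image φ := h ▸ Finset.mem_image_of_mem φ hy
      obtain ⟨z, hz, hzy⟩ := Finset.mem_image.mp h1
      rwa [← hφ (hW' hz) (hW hy) hzy]
    · intro hy
      have h1 : φ y ∈ W.image φ := h ▸ Finset.mem_image_of_mem φ hy
      obtain ⟨z, hz, hzy⟩ := Finset.mem_image.mp h1
      rwa [← hφ (hW hz) (hW' hy) hzy]
  · intro Z hZ
    rw [Finset.mem_powerset] at hZ
    refine ⟨s.filter (fun y => φ y ∈ Z), ?_, ?_⟩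
    · rw [Finset.mem_powerset]; exact Finset.filter_subset _ _
    · ext x
      simp only [Finset.mem_image, Finset.mem_filter]
      constructor
      · rintro ⟨y, ⟨_, hy⟩, rfl⟩; exact hy
      · intro hx
        obtain ⟨y, hy, rfl⟩ := Finset.mem_image.mp (hZ hx)
        exact ⟨y, ⟨hy, hx⟩, rfl⟩
  · intro W hW
    rw [Finset.mem_powerset] at hW
    rw [Finset.card_image_of_injOn (hφ.mono hW)]

end exs

section prs

variable {X : Type*} [DecidableEq X] {p : ℝ}

lemma prs_nonneg (s : Finset X) (hp0 : 0 ≤ p) (hp1 : p ≤ 1) (A : Finset X → Prop) :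
    0 ≤ prs s p A := exs_nonneg s hp0 hp1 (fun _ _ => ind_nonneg _)

lemma prs_mono (s : Finset X) (hp0 : 0 ≤ p) (hp1 : p ≤ 1) {A B : Finset X → Prop}
    (h : ∀ W, W ⊆ s → A W → B W) : prs s p A ≤ prs s p B :=
  exs_mono s hp0 hp1 (fun W hW => ind_mono (h W hW))

lemma prs_congr (s : Finset X) {A B : Finset X → Prop}
    (h : ∀ W, W ⊆ s → (A W ↔ B W)) : prs s p A = prs s p B :=
  exs_congr s p (fun W hW => ind_congr (h W hW))

lemma prs_true (s : Finset X) : prs s p (fun _ => True) = 1 := by
  unfold prs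
  simp only [ind_pos]
  exact exs_const s p 1

lemma prs_le_one (s : Finset X) (hp0 : 0 ≤ p) (hp1 : p ≤ 1) (A : Finset X → Prop) :
    prs s p A ≤ 1 := by
  rw [← prs_true s (p := p)]
  exact prs_mono s hp0 hp1 (fun _ _ _ => trivial)

lemma prs_not (s : Finset X) (A : Finset X → Prop) :
    prs s p (fun W => ¬ A W) = 1 - prs s p A := by
  have h : prs s p (fun W => ¬ A W) + prs s p A = 1 := by
    rw [← prs_true s (p := p)]
    unfold prs
    rw [← exs_add]
    apply exs_congr
    intro W _
    rw [ind_not, ind_pos trivial]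
    ring
  linarith

lemma prs_or_le (s : Finset X) (hp0 : 0 ≤ p) (hp1 : p ≤ 1) (A B : Finset X → Prop) :
    prs s p (fun W => A W ∨ B W) ≤ prs s p A + prs s p B := by
  unfold prs
  rw [← exs_add]
  apply exs_mono s hp0 hp1
  intro W _
  by_cases h1 : A W <;> by_cases h2 : B W <;> simp [ind, h1, h2]

/-- union bound -/
lemma prs_union (s : Finset X) (hp0 : 0 ≤ p) (hp1 : p ≤ 1) {ι : Type*} (t : Finset ι)
    (A : ι → Finset X → Prop) :
    prs s p (fun W => ∃ i ∈ t, A i W) ≤ ∑ i ∈ t, prs s p (A i) := by
  unfold prs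
  rw [← exs_sum]
  apply exs_mono s hp0 hp1
  intro W _
  by_cases h : ∃ i ∈ t, A i W
  · rw [ind_pos h]
    obtain ⟨i, hi, hA⟩ := h
    refine le_trans ?_ (Finset.single_le_sum (f := fun i => ind (A i W)) ?_ hi)
    · simp only [ind_pos hA]; exact le_refl _
    · intro j _
      exact ind_nonneg _
  · rw [ind_neg h]
    exact Finset.sum_nonneg (fun j _ => ind_nonneg _)

/-- an event that depends only on the trace on a subset -/
lemma prs_inter (s T : Finset X) (hT : T ⊆ s) (A : Finset X → Prop) :
    prs s p (fun W => A (W ∩ T)) = prs T p A :=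
  exs_inter s T hT p (fun W => ind (A W))

lemma prs_subset (s T : Finset X) (hT : T ⊆ s) : prs s p (fun W => T ⊆ W) = p ^ T.card := by
  have h1 : prs s p (fun W => T ⊆ W) = prs s p (fun W => (fun U => T ⊆ U) (W ∩ T)) := by
    apply prs_congr
    intro W _
    constructor
    · intro h; exact Finset.subset_inter h (Finset.Subset.refl T)
    · intro h; exact h.trans Finset.inter_subset_left
  rw [h1, prs_inter s T hT (fun U => T ⊆ U)]
  unfold prs exs
  rw [Finset.sum_eq_single_of_mem T (Finset.mem_powerset.mpr (Finset.Subset.refl T))]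
  · beta_reduce
    rw [ind_pos (Finset.Subset.refl T)]
    simp
  · intro W hW hne
    have : ¬ T ⊆ W := fun h => hne (Finset.Subset.antisymm (Finset.mem_powerset.mp hW) h)
    beta_reduce
    rw [ind_neg this, mul_zero]

lemma prs_disjoint (s T : Finset X) (hT : T ⊆ s) :
    prs s p (fun W => Disjoint T W) = (1 - p) ^ T.card := by
  have h1 : prs s p (fun W => Disjoint T W)
      = prs s p (fun W => (fun U => Disjoint T U) (W ∩ T)) := by
    apply prs_congr
    intro W _
    beta_reduce
    rw [Finset.disjoint_left, Finset.disjoint_left]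
    constructor
    · intro h x hx hx2
      exact h hx (Finset.mem_inter.mp hx2).1
    · intro h x hx hx2
      exact h hx (Finset.mem_inter.mpr ⟨hx2, hx⟩)
  rw [h1, prs_inter s T hT (fun U => Disjoint T U)]
  unfold prs exs
  rw [Finset.sum_eq_single_of_mem ∅ (Finset.empty_mem_powerset T)]
  · beta_reduce
    rw [ind_pos (Finset.disjoint_empty_right T)]
    simp
  · intro W hW hne
    have : ¬ Disjoint T W := fun h => hne (by
      rw [← Finset.inter_eq_right.mpr (Finset.mem_powerset.mp hW)]
      exact Finset.disjoint_iff_inter_eq_empty.mp h)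
    beta_reduce
    rw [ind_neg this, mul_zero]

/-- Markov's inequality -/
lemma markov (s : Finset X) (hp0 : 0 ≤ p) (hp1 : p ≤ 1) (f : Finset X → ℝ) (A : Finset X → Prop)
    (t : ℝ) (ht : 0 < t) (hf : ∀ W, W ⊆ s → 0 ≤ f W) (h : ∀ W, W ⊆ s → A W → t ≤ f W) :
    prs s p A ≤ exs s p f / t := by
  rw [le_div_iff₀ ht]
  unfold prs
  rw [← exs_mul_right]
  apply exs_mono s hp0 hp1
  intro W hW
  by_cases h1 : A W
  · rw [ind_pos h1, one_mul]; exact h W hW h1
  · rw [ind_neg h1, zero_mul]; exact hf W hW

/-- for a decreasing event, containing `T` has conditional probability at most `p ^ |T|` -/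
lemma prs_down (s : Finset X) (hp0 : 0 ≤ p) (hp1 : p ≤ 1) (A : Finset X → Prop)
    (hA : ∀ W W', W ⊆ W' → W' ⊆ s → A W' → A W) (T : Finset X) (hT : T ⊆ s) :
    prs s p (fun W => A W ∧ T ⊆ W) ≤ p ^ T.card * prs s p A := by
  have hd : Disjoint T (s \ T) := Finset.disjoint_sdiff
  have hU : T ∪ (s \ T) = s := Finset.union_sdiff_of_subset hT
  have e1 : prs s p (fun W => A W ∧ T ⊆ W)
      = exs T p (fun Y => exs (s \ T) p (fun Z => ind (A (Y ∪ Z)) * ind (T ⊆ Y))) := by
    rw [← exs_fubini T (s \ T) hd, hU]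
    apply exs_congr
    intro W hW
    have h2 : W ∩ T ∪ W ∩ (s \ T) = W := by
      rw [← Finset.inter_union_distrib_left, hU, Finset.inter_eq_left.mpr hW]
    have h3 : T ⊆ W ∩ T ↔ T ⊆ W := by
      rw [Finset.subset_inter_iff]
      simp
    rw [h2, ind_congr h3, ind_and]
  have e2 : prs s p A = exs T p (fun Y => exs (s \ T) p (fun Z => ind (A (Y ∪ Z)))) := by
    rw [← exs_fubini T (s \ T) hd, hU]
    apply exs_congr
    intro W hW
    have h2 : W ∩ T ∪ W ∩ (s \ T) = W := by
      rw [← Finset.inter_union_distrib_left, hU, Finset.inter_eq_left.mpr hW]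
    rw [h2]
  -- the left side is `p ^ |T|` times the value at `Y = T`
  have e3 : prs s p (fun W => A W ∧ T ⊆ W)
      = p ^ T.card * exs (s \ T) p (fun Z => ind (A (T ∪ Z))) := by
    rw [e1, ← prs_subset T T (Finset.Subset.refl T), prs, ← exs_mul_right]
    apply exs_congr
    intro Y hY
    by_cases h : T ⊆ Y
    · have : Y = T := Finset.Subset.antisymm hY h
      subst this
      simp [ind_pos]
    · rw [ind_neg h, zero_mul]
      simp only [mul_zero]
      exact exs_const _ _ _
  rw [e3, e2]
  apply mul_le_mul_of_nonneg_left _ (by positivity)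
  rw [← exs_const T p (exs (s \ T) p (fun Z => ind (A (T ∪ Z))))]
  apply exs_mono T hp0 hp1
  intro Y hY
  apply exs_mono _ hp0 hp1
  intro Z hZ
  apply ind_mono
  intro h
  exact hA _ _ (Finset.union_subset_union_left hY)
    (Finset.union_subset hT (hZ.trans Finset.sdiff_subset)) h

end prs

end Pool.Agent.H98.CC
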