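import Pool.Agent.H98.CC.Up
import Pool.Agent.H98.CC.Det2

set_option autoImplicit false
set_option linter.unusedSectionVars false

/-!
# Deterministic bounds for the clique chromatic number
-/

namespace Pool.Agent.H98.CC

open Finset
open scoped Classical

section

variable {n : ℕ} {p : ℝ}

lemma chi_le (G : SimpleGraph (Fin n)) {C : Type} [Fintype C] (f : Fin n → C)
    (hf : IsCliqueColoring G f) : cliqueChromaticNumber G ≤ Fintype.card C := by
  apply Nat.sInf_le
  refine ⟨fun x => Fintype.equivFin C (f x), ?_⟩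
  intro S hS hS2
  obtain ⟨u, hu, v, hv, huv⟩ := hf S hS hS2
  exact ⟨u, hu, v, hv, fun h => huv ((Fintype.equivFin C).injective h)⟩

lemma id_coloring (G : SimpleGraph (Fin n)) : IsCliqueColoring G (fun x : Fin n => x) := by
  intro S _ hS2
  obtain ⟨u, hu, v, hv, huv⟩ := Finset.one_lt_card.mp (show 1 < S.card by omega)
  exact ⟨u, hu, v, hv, huv⟩

lemma chi_exists (G : SimpleGraph (Fin n)) (k : ℕ) (h : cliqueChromaticNumber G ≤ k) :
    ∃ f : Fin n → Fin k, IsCliqueColoring G f := by
  have h1 : {k : ℕ | ∃ f : Fin n → Fin k, IsCliqueColoring G f}.Nonempty :=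
    ⟨n, fun x => x, id_coloring G⟩
  obtain ⟨f, hf⟩ := Nat.sInf_mem h1
  refine ⟨fun x => Fin.castLE h (f x), ?_⟩
  intro S hS hS2
  obtain ⟨u, hu, v, hv, huv⟩ := hf S hS hS2
  exact ⟨u, hu, v, hv, fun h2 => huv (Fin.castLE_injective h h2)⟩

/-- the upper bound -/
lemma upper_det (G : SimpleGraph (Fin n)) (Q : Finset (Fin n)) (k sm : ℕ)
    (hcn : ∀ u v : Fin n, u ≠ v → ∃ w, G.Adj w u ∧ G.Adj w v)
    (hpar : Par G (unn G Q) k sm) : cliqueChromaticNumber G ≤ 2 * Q.card + k := by
  obtain ⟨f, hf⟩ := hpar
  -- the colouring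
  have hcard : Fintype.card ((Q ⊕ Q) ⊕ Fin k) = 2 * Q.card + k := by
    rw [Fintype.card_sum, Fintype.card_sum, Fintype.card_coe, Fintype.card_fin]; ring
  rw [← hcard]
  set g : Fin n → (Q ⊕ Q) ⊕ Fin k := fun w =>
    if h : w ∈ Q then Sum.inl (Sum.inl ⟨w, h⟩)
    else if h2 : ∃ x : Q, G.Adj w x then Sum.inl (Sum.inr h2.choose) else Sum.inr (f w) with hg
  apply chi_le G g
  intro S hS hS2
  by_contra hcon
  push Not at hcon
  obtain ⟨hcl, hmax⟩ := hS
  obtain ⟨u, hu, v, hv, huv⟩ := Finset.one_lt_card.mp (show 1 < S.card by omega)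
  have hext : ∀ w, w ∉ S → (∀ x ∈ S, G.Adj w x) → False := by
    intro w hw h
    have h1 : G.IsClique ((insert w S : Finset (Fin n)) : Set (Fin n)) := by
      rw [Finset.coe_insert]
      exact hcl.insert (fun b hb _ => h b hb)
    have h2 := hmax (insert w S) h1 (Finset.subset_insert _ _)
    exact hw (h2 ▸ Finset.mem_insert_self w S)
  by_cases h1 : u ∈ Q
  · have hgu : g u = Sum.inl (Sum.inl ⟨u, h1⟩) := by rw [hg]; simp [h1]
    have hgv := hcon v hv u hu
    rw [hgu, hg] at hgv
    by_cases h2 : v ∈ Q
    · simp only [h2, dif_pos, Sum.inl.injEq, Subtype.mk.injEq] at hgv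
      exact huv hgv.symm
    · by_cases h3 : ∃ x : Q, G.Adj v x
      · simp only [h2, h3, dif_pos, dif_neg, not_false_eq_true, Sum.inl.injEq] at hgv
        exact absurd hgv (by simp)
      · simp only [h2, h3, dif_neg, not_false_eq_true] at hgv
        exact absurd hgv (by simp)
  · by_cases h3 : ∃ x : Q, G.Adj u x
    · have hgu : g u = Sum.inl (Sum.inr h3.choose) := by
        rw [hg]; simp only [h1, h3, dif_pos, dif_neg, not_false_eq_true]
      -- all vertices are adjacent to the centre
      have hall : ∀ x ∈ S, x ∉ Q ∧ G.Adj x h3.choose := by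
        intro x hx
        have hgx := hcon x hx u hu
        rw [hgu, hg] at hgx
        by_cases h4 : x ∈ Q
        · simp only [h4, dif_pos, Sum.inl.injEq] at hgx
          exact absurd hgx (by simp)
        · by_cases h5 : ∃ y : Q, G.Adj x y
          · simp only [h4, h5, dif_pos, dif_neg, not_false_eq_true, Sum.inl.injEq,
              Sum.inr.injEq] at hgx
            refine ⟨h4, ?_⟩
            rw [← hgx]
            exact h5.choose_spec
          · simp only [h4, h5, dif_neg, not_false_eq_true] at hgx
            exact absurd hgx (by simp)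
      refine hext h3.choose ?_ ?_
      · intro h4
        exact (hall _ h4).1 h3.choose.2
      · intro x hx
        exact (hall x hx).2.symm
    · have hgu : g u = Sum.inr (f u) := by
        rw [hg]; simp only [h1, h3, dif_neg, not_false_eq_true]
      have hall : ∀ x ∈ S, x ∈ (unn G Q).filter (fun x => f x = f u) := by
        intro x hx
        have hgx := hcon x hx u hu
        rw [hgu, hg] at hgx
        by_cases h4 : x ∈ Q
        · simp only [h4, dif_pos] at hgx
          exact absurd hgx (by simp)
        · by_cases h5 : ∃ y : Q, G.Adj x y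
          · simp only [h4, h5, dif_pos, dif_neg, not_false_eq_true] at hgx
            exact absurd hgx (by simp)
          · simp only [h4, h5, dif_neg, not_false_eq_true, Sum.inr.injEq] at hgx
            rw [Finset.mem_filter, mem_unn]
            refine ⟨⟨h4, ?_⟩, hgx⟩
            intro y hy hadj
            exact h5 ⟨⟨y, hy⟩, hadj⟩
      have htf := (hf (f u)).2
      by_cases h5 : ∃ w ∈ S, w ≠ u ∧ w ≠ v
      · obtain ⟨w, hw, hwu, hwv⟩ := h5
        exact htf u (hall u hu) v (hall v hv) w (hall w hw) (hcl hu hv huv)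
          (hcl hu hw hwu.symm) (hcl hv hw hwv.symm)
      · push Not at h5
        obtain ⟨w, hwu, hwv⟩ := hcn u v huv
        have hS' : ∀ x ∈ S, x = u ∨ x = v := by
          intro x hx
          by_cases h6 : x = u
          · exact Or.inl h6
          · exact Or.inr (h5 x hx h6)
        refine hext w ?_ ?_
        · intro hw
          rcases hS' w hw with rfl | rfl
          · exact hwu.ne rfl
          · exact hwv.ne rfl
        · intro x hx
          rcases hS' x hx with rfl | rfl
          · exact hwu
          · exact hwv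

/-- the lower bound -/
lemma lower_det (G : SimpleGraph (Fin n)) (k s : ℕ) (hk : k ≤ n) (t : ℝ)
    (h1 : ∀ C : Finset (Fin n), (∀ x ∈ C, ∀ y ∈ C, ∀ z ∈ C, G.Adj x y → G.Adj x z → G.Adj y z →
      ∃ w, G.Adj w x ∧ G.Adj w y ∧ G.Adj w z) → ∃ v, (C \ nb G v C).card ≤ 6 * s)
    (h2 : ∀ Q : Finset (Fin n), Q.card = k → t ≤ ((unn G Q).card : ℝ))
    (h3 : 6 * (s : ℝ) * k < t) : k < cliqueChromaticNumber G := by
  by_contra hcon
  push Not at hcon
  obtain ⟨f, hf⟩ := chi_exists G k hcon
  set Cl : Fin k → Finset (Fin n) := fun i => univ.filter (fun x => f x = i) with hCl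
  have hmem : ∀ i x, x ∈ Cl i ↔ f x = i := by
    intro i x
    rw [hCl]
    simp
  have h4 : ∀ i : Fin k, ∃ v, (Cl i \ nb G v (Cl i)).card ≤ 6 * s := by
    intro i
    apply h1
    intro x hx y hy z hz hxy hxz hyz
    by_contra hno
    push Not at hno
    have hcl : G.IsClique ((({x, y, z} : Finset (Fin n))) : Set (Fin n)) := by
      intro a ha b hb hab
      simp only [Finset.coe_insert, Finset.coe_singleton, Set.mem_insert_iff,
        Set.mem_singleton_iff] at ha hb
      rcases ha with rfl | rfl | rfl <;> rcases hb with rfl | rfl | rfl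
      · exact absurd rfl hab
      · exact hxy
      · exact hxz
      · exact hxy.symm
      · exact absurd rfl hab
      · exact hyz
      · exact hxz.symm
      · exact hyz.symm
      · exact absurd rfl hab
    have hmax : IsMaxClique G ({x, y, z} : Finset (Fin n)) := by
      refine ⟨hcl, ?_⟩
      intro T hT hsub
      apply Finset.Subset.antisymm _ hsub
      intro w hw
      by_contra hwn
      simp only [Finset.mem_insert, Finset.mem_singleton, not_or] at hwn
      refine hno w ?_ ?_ ?_
      · exact hT hw (hsub (by simp)) hwn.1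
      · exact hT hw (hsub (by simp)) hwn.2.1
      · exact hT hw (hsub (by simp)) hwn.2.2
    have hc3 : 2 ≤ ({x, y, z} : Finset (Fin n)).card := by
      rw [Finset.card_eq_three.mpr ⟨x, y, z, hxy.ne, hxz.ne, hyz.ne, rfl⟩]
      norm_num
    obtain ⟨a, ha, b, hb, hab⟩ := hf _ hmax hc3
    apply hab
    have h5 : ∀ c ∈ ({x, y, z} : Finset (Fin n)), f c = i := by
      intro c hc
      simp only [Finset.mem_insert, Finset.mem_singleton] at hc
      rcases hc with rfl | rfl | rfl
      · exact (hmem i _).1 hx
      · exact (hmem i _).1 hy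
      · exact (hmem i _).1 hz
    rw [h5 a ha, h5 b hb]
  choose v hv using h4
  have h5 : (univ.image v).card ≤ k := by
    refine Finset.card_image_le.trans ?_
    rw [Finset.card_univ, Fintype.card_fin]
  obtain ⟨Q, hQ, hQc⟩ := Finset.exists_superset_card_eq h5
    (show k ≤ Fintype.card (Fin n) by rw [Fintype.card_fin]; exact hk)
  have h6 := h2 Q hQc
  have h7 : unn G Q ⊆ univ.biUnion (fun i => Cl i \ nb G (v i) (Cl i)) := by
    intro w hw
    rw [mem_unn] at hw
    rw [Finset.mem_biUnion]
    refine ⟨f w, Finset.mem_univ _, ?_⟩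
    rw [Finset.mem_sdiff, mem_nb, hmem]
    refine ⟨rfl, ?_⟩
    rintro ⟨_, hadj⟩
    exact hw.2 (v (f w)) (hQ (Finset.mem_image_of_mem _ (Finset.mem_univ _))) hadj.symm
  have h8 : (unn G Q).card ≤ k * (6 * s) := by
    refine (Finset.card_le_card h7).trans (Finset.card_biUnion_le.trans ?_)
    refine (Finset.sum_le_card_nsmul _ _ _ (fun i _ => hv i)).trans ?_
    rw [Finset.card_univ, Fintype.card_fin, smul_eq_mul]
  have h9 : ((unn G Q).card : ℝ) ≤ k * (6 * s) := by exact_mod_cast h8
  linarith

end

end Pool.Agent.H98.CC
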