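import Pool.Agent.H98.CC.Fin1

set_option autoImplicit false
set_option linter.unusedSectionVars false

/-!
# The two bounds with explicit numerical hypotheses
-/

namespace Pool.Agent.H98.CC

open Finset
open scoped Classical

section

variable {n : ℕ} {p : ℝ}

/-- the lower bound -/
lemma lower_prob (hp0 : 0 ≤ p) (hp2 : p ≤ 1 / 2) (hn : 2 ≤ n) (s b s8 D D2 T j m k : ℕ) (Λ : ℝ)
    (hΛ : p = Real.exp (-Λ)) (hΛ2 : 200 ≤ Λ) (hs : 100 ≤ s) (hb : b = 2 * s - s / 100)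
    (hs8 : s8 = (s + 7) / 8) (hbn : b ≤ n) (hkn : 2 * k ≤ n)
    (hL : Real.log n ≤ 3 * Λ) (hL2 : 100 ≤ Real.log n)
    (hD2s : 50 * D2 ≤ s) (hT : 0 < T) (hm0 : 0 < m) (hm : 8 * (j * (3 * T)) ≤ m)
    (c1 : 6 * (n * p ^ 2) ≤ (D2 : ℝ) + 1) (c2 : 4 * Real.log n ≤ (D2 : ℝ) + 1)
    (c3 : 11 * (s * p) ≤ D * Real.exp (-(Λ / 5))) (c4 : 404 * Real.log n ≤ Λ / 5 * D)
    (c5 : 225 ≤ D) (c6 : Real.log (b / D) ≤ 7 / 10 * Λ + 1) (c7 : 3 / 2 * Λ ≤ Real.log b)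
    (c8 : 200 * Real.log n ≤ b * p) (c9 : 3 * (D * p) ≤ 1)
    (c10 : (2 * m + 4) * Real.log n ≤ p ^ 2 * (2 / 100 * (b : ℝ) ^ 2 * p - 4 * m * D) / 4)
    (c11 : (D * p) ^ (2 * T) ≤ Real.exp (-(20 * Real.log n)))
    (c12 : (8 * (b : ℝ) ^ 2 * p * D2 * p ^ 3) ^ j ≤ Real.exp (-(19 * Real.log n)))
    (c13 : (k + 1) * Real.log n ≤ 3 / 20 * (n * Real.exp (-(2 * p * k))))
    (c14 : 6 * (s : ℝ) * k < n / 8 * Real.exp (-(2 * p * k))) :
    gnp n p (fun G => ¬ k < cliqueChromaticNumber G) ≤ 8 / n := by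
  have hp1 : p ≤ 1 := by linarith
  have hn0 : 0 < n := by omega
  have hb0 : 100 ≤ b := by omega
  have hb2 : b ≤ 2 * s := by omega
  have e1 := codeg_bound hp0 hp1 hn0 D2 c1 c2
  have e2 := few_bound hp0 hp1 hn0 s D (by omega) (Λ / 5) (by linarith) c3 c4
  have e3 := cover_bound (p := p) hn0 b D Λ hΛ hΛ2 c5 hb0 hbn hL hL2 c6 c7
  have e4 := edges_bound hp0 hp1 hn0 b D (by omega) c8
  have e5 := mat_bound hp0 hp1 hn0 s b D m (by omega) (by omega) hb2 hbn c9 c10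
  have e6 := nobad_bound hp0 hp1 hn b s8 D D2 T j (by omega) (by omega) c11 c12
  have e7 := dense_bound hp0 hp1 hn0 b (by omega) (by linarith)
  have e8 := unn_lower hp0 hp2 hn0 k hkn c13
  have key : gnp n p (fun G => ¬ k < cliqueChromaticNumber G) ≤ gnp n p (fun G =>
      (¬ ∀ u v : Fin n, u ≠ v → (nb G u (nb G v univ)).card ≤ D2) ∨
      (¬ ∀ X : Finset (Fin n), X.card = 2 * s →
        (univ.filter (fun w => D ≤ (nb G w X).card)).card ≤ s / 100) ∨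
      (¬ ∀ B : Finset (Fin n), B.card = b →
        ∑ w ∈ Bᶜ, (if D ≤ (nb G w B).card ∧ 100 * (nb G w B).card ≤ 52 * b
        then ((nb G w B).card : ℝ) ^ 2 else 0) ≤ 9 / 10 * (b : ℝ) ^ 2) ∨
      (¬ ∀ B : Finset (Fin n), B.card = b →
        8 / 100 * (b : ℝ) ^ 2 ≤ ((unc G B D).card : ℝ) →
        2 / 100 * (b : ℝ) ^ 2 * p ≤ cpair (clean G B D) B) ∨
      (¬ ∀ B A : Finset (Fin n), B.card = b → A.card = s → Disjoint A B →
        2 / 100 * (b : ℝ) ^ 2 * p ≤ cpair (clean (off A G) B D) B →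
        (∀ x ∈ B, (nb (off A G) x B).card < D) →
        ∃ a ∈ A, HasMatching (clean (off A G) B D) (nb G a Aᶜ ∩ B) m) ∨
      ((∀ u v : Fin n, u ≠ v → (nb G u (nb G v univ)).card ≤ D2) ∧
        (∀ B : Finset (Fin n), B.card = b → cpair G.Adj B ≤ 8 * (b : ℝ) ^ 2 * p) ∧
        ¬ ∀ B S : Finset (Fin n), B.card = b → S.card = s8 → Disjoint S B →
        ∃ a ∈ S, ¬ BadE (off S G) B S T j D (nb G a Sᶜ)) ∨
      (¬ ∀ B : Finset (Fin n), B.card = b → cpair G.Adj B ≤ 8 * (b : ℝ) ^ 2 * p) ∨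
      (¬ ∀ Q : Finset (Fin n), Q.card = k →
        n / 8 * Real.exp (-(2 * p * k)) ≤ ((unn G Q).card : ℝ))) := by
    apply gnp_mono hp0 hp1
    intro G h
    by_contra hcon
    simp only [not_or, not_not] at hcon
    obtain ⟨g1, g2, g3, g4, g5, g6, g7, g8⟩ := hcon
    have g6' : ∀ B S : Finset (Fin n), B.card = b → S.card = s8 → Disjoint S B →
        ∃ a ∈ S, ¬ BadE (off S G) B S T j D (nb G a Sᶜ) := by
      by_contra h6
      exact g6 ⟨g1, g7, h6⟩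
    have hgood : Good G p s b s8 D D2 T j m := ⟨g1, g2, g3, g4, g5, g6'⟩
    apply h
    exact lower_det G k s (by omega) _
      (fun C hC => det_main G p s b s8 D D2 T j m hn0 hs hb (by omega) hD2s hT hm0 hm
        (by omega) hgood C hC) g8 c14
  refine key.trans ?_
  refine (gnp_or hp0 hp1 _ _).trans ((add_le_add e1 ((gnp_or hp0 hp1 _ _).trans
    (add_le_add e2 ((gnp_or hp0 hp1 _ _).trans (add_le_add e3 ((gnp_or hp0 hp1 _ _).trans
    (add_le_add e4 ((gnp_or hp0 hp1 _ _).trans (add_le_add e5 ((gnp_or hp0 hp1 _ _).trans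
    (add_le_add e6 ((gnp_or hp0 hp1 _ _).trans (add_le_add e7 e8))))))))))))).trans (le_of_eq ?_))
  ring

/-- the upper bound -/
lemma upper_prob (hp0 : 0 ≤ p) (hp2 : p ≤ 1 / 2) (hn : 2 ≤ n) (k1 k2 sm : ℕ) (M : ℝ)
    (hk1 : k1 ≤ n) (hk2 : 0 < k2) (hsm : 0 < sm) (hsmn : sm ≤ n)
    (c1 : 3 * Real.log n ≤ p ^ 2 * (n - 2)) (c2 : 2 * Real.log n ≤ sm * p)
    (c3 : n * Real.exp (-(p * k1)) ≤ M) (c4 : Real.log n ≤ M)
    (c5 : 6 * M ≤ k2 * sm)
    (c6 : 4 * Real.log n ≤ Real.exp (-(p ^ 2 * (8 * (sm : ℝ) ^ 2 * p))) * k2) :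
    gnp n p (fun G => ¬ cliqueChromaticNumber G ≤ 2 * k1 + k2) ≤ 4 / n := by
  have hp1 : p ≤ 1 := by linarith
  have hn0 : 0 < n := by omega
  have hnr : (0 : ℝ) < n := by exact_mod_cast hn0
  obtain ⟨Q, _, hQc⟩ := Finset.exists_superset_card_eq (s := (∅ : Finset (Fin n))) (n := k1)
    (by simp) (show k1 ≤ Fintype.card (Fin n) by rw [Fintype.card_fin]; exact hk1)
  set c : ℝ := 8 * (sm : ℝ) ^ 2 * p with hc
  have e1 := tri_bound hp0 hp1 hn0 c1
  have e2 := dense_bound hp0 hp1 hn0 sm hsm c2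
  have e3 := unn_upper hp0 hp1 Q M (by rw [hQc]; exact c3)
  have e4 := greedy_unn hp0 hp2 k2 sm hk2 hsm c Q
  have e3' : Real.exp (-M) ≤ 1 / n := by
    rw [inv_eq_exp hn0]
    apply Real.exp_le_exp.mpr
    linarith
  have e4' : n * Real.exp (-(Real.exp (-(p ^ 2 * c)) * k2 / 2)) ≤ 1 / n := by
    have h1 : (n : ℝ) = Real.exp (Real.log n) := (Real.exp_log hnr).symm
    rw [inv_eq_exp hn0]
    nth_rewrite 1 [h1]
    rw [← Real.exp_add]
    apply Real.exp_le_exp.mpr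
    linarith
  have key : gnp n p (fun G => ¬ cliqueChromaticNumber G ≤ 2 * k1 + k2) ≤ gnp n p (fun G =>
      (¬ ∀ u v : Fin n, u ≠ v → ∃ w, G.Adj w u ∧ G.Adj w v) ∨
      (¬ ∀ B : Finset (Fin n), B.card = sm → cpair G.Adj B ≤ 8 * (sm : ℝ) ^ 2 * p) ∨
      (¬ ((unn G Q).card : ℝ) ≤ 3 * M) ∨
      (2 * (unn G Q).card ≤ k2 * sm ∧ Sp G (unn G Q) sm c ∧ ¬ Par G (unn G Q) k2 sm)) := by
    apply gnp_mono hp0 hp1
    intro G h
    by_contra hcon
    simp only [not_or, not_not] at hcon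
    obtain ⟨g1, g2, g3, g4⟩ := hcon
    apply h
    rw [← hQc]
    apply upper_det G Q k2 sm g1
    by_contra hpar
    apply g4
    refine ⟨?_, ?_, hpar⟩
    · have h1 : 2 * ((unn G Q).card : ℝ) ≤ k2 * sm := by linarith
      exact_mod_cast h1
    · intro C _ hCc
      obtain ⟨C', hC', hC'c⟩ := Finset.exists_superset_card_eq hCc
        (show sm ≤ Fintype.card (Fin n) by rw [Fintype.card_fin]; exact hsmn)
      refine le_trans ?_ (g2 C' hC'c)
      rw [cpair_eq, cpair_eq]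
      have h1 : ((C ×ˢ C).filter (fun e => G.Adj e.1 e.2)).card ≤
          ((C' ×ˢ C').filter (fun e => G.Adj e.1 e.2)).card := by
        apply Finset.card_le_card
        apply Finset.filter_subset_filter
        exact Finset.product_subset_product hC' hC'
      exact_mod_cast h1
  refine key.trans ?_
  refine (gnp_or hp0 hp1 _ _).trans ((add_le_add e1 ((gnp_or hp0 hp1 _ _).trans
    (add_le_add e2 ((gnp_or hp0 hp1 _ _).trans (add_le_add (e3.trans e3') (e4.trans e4')))))).trans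
    (le_of_eq ?_))
  ring

end

end Pool.Agent.H98.CC
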