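import Pool.Agent.H98.CC.Janson
import Pool.Agent.H98.CC.Defs

set_option autoImplicit false
set_option linter.unusedSectionVars false

/-!
# Elementary probability in `G(n,p)`
-/

namespace Pool.Agent.H98.CC

open Finset
open scoped Classical

section

variable {n : ℕ} {p : ℝ}

/-- the potential edges -/
noncomputable def eT (n : ℕ) : Finset (Sym2 (Fin n)) := Finset.univ.filter (fun e => ¬ e.IsDiag)

/-- the graph with edge set `W` -/
def gr (W : Finset (Sym2 (Fin n))) : SimpleGraph (Fin n) :=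
  SimpleGraph.fromEdgeSet (W : Set (Sym2 (Fin n)))

lemma mem_eT {e : Sym2 (Fin n)} : e ∈ eT n ↔ ¬ e.IsDiag := by simp [eT]

lemma gr_adj (W : Finset (Sym2 (Fin n))) (u v : Fin n) :
    (gr W).Adj u v ↔ s(u, v) ∈ W ∧ u ≠ v := by
  simp [gr, SimpleGraph.fromEdgeSet_adj]

lemma mem_gr {W : Finset (Sym2 (Fin n))} {e : Sym2 (Fin n)} (he : ¬ e.IsDiag) :
    e ∈ (gr W).edgeSet ↔ e ∈ W := by
  unfold gr
  rw [SimpleGraph.edgeSet_fromEdgeSet, Set.mem_sdiff, Finset.mem_coe]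
  exact ⟨fun h => h.1, fun h => ⟨h, he⟩⟩

/-- the edges of `G` as a finset -/
noncomputable def eS (G : SimpleGraph (Fin n)) : Finset (Sym2 (Fin n)) :=
  Finset.univ.filter (fun e => e ∈ G.edgeSet)

lemma mem_eS {G : SimpleGraph (Fin n)} {e : Sym2 (Fin n)} : e ∈ eS G ↔ e ∈ G.edgeSet := by
  simp [eS]

lemma eS_card (G : SimpleGraph (Fin n)) : (eS G).card = G.edgeSet.ncard := by
  rw [← Set.ncard_coe_finset]
  congr 1
  ext e
  rw [Finset.mem_coe, mem_eS]

lemma eT_card : (eT n).card = n.choose 2 := by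
  have h1 : eT n = (⊤ : SimpleGraph (Fin n)).edgeFinset := by
    ext e
    rw [mem_eT, SimpleGraph.mem_edgeFinset, SimpleGraph.edgeSet_top]
    rfl
  rw [h1, SimpleGraph.card_edgeFinset_top_eq_card_choose_two, Fintype.card_fin]

lemma gnp_eq (n : ℕ) (p : ℝ) (P : SimpleGraph (Fin n) → Prop) :
    gnp n p P = prs (eT n) p (fun W => P (gr W)) := by
  unfold gnp prs exs
  rw [eT_card]
  apply Finset.sum_bij' (fun G _ => eS G) (fun W _ => gr W)
  · intro G _
    rw [Finset.mem_powerset]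
    intro e he
    rw [mem_eS] at he
    rw [mem_eT]
    exact SimpleGraph.not_isDiag_of_mem_edgeSet G he
  · intro W _
    exact Finset.mem_univ _
  · intro G _
    unfold gr
    have : ((eS G : Finset (Sym2 (Fin n))) : Set (Sym2 (Fin n))) = G.edgeSet := by
      ext e; rw [Finset.mem_coe, mem_eS]
    rw [this, SimpleGraph.fromEdgeSet_edgeSet]
  · intro W hW
    rw [Finset.mem_powerset] at hW
    ext e
    rw [mem_eS]
    constructor
    · intro h
      exact (mem_gr (SimpleGraph.not_isDiag_of_mem_edgeSet _ h)).1 h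
    · intro h
      exact (mem_gr (mem_eT.1 (hW h))).2 h
  · intro G _
    have h1 : gr (eS G) = G := by
      unfold gr
      have : ((eS G : Finset (Sym2 (Fin n))) : Set (Sym2 (Fin n))) = G.edgeSet := by
        ext e; rw [Finset.mem_coe, mem_eS]
      rw [this, SimpleGraph.fromEdgeSet_edgeSet]
    beta_reduce
    rw [h1, eS_card]
    by_cases h : P G
    · rw [if_pos h, ind_pos h, mul_one]
    · rw [if_neg h, ind_neg h, mul_zero]

lemma gnp_nonneg (hp0 : 0 ≤ p) (hp1 : p ≤ 1) (P : SimpleGraph (Fin n) → Prop) :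
    0 ≤ gnp n p P := by
  rw [gnp_eq]; exact prs_nonneg _ hp0 hp1 _

lemma gnp_le_one (hp0 : 0 ≤ p) (hp1 : p ≤ 1) (P : SimpleGraph (Fin n) → Prop) :
    gnp n p P ≤ 1 := by
  rw [gnp_eq]; exact prs_le_one _ hp0 hp1 _

lemma gnp_mono (hp0 : 0 ≤ p) (hp1 : p ≤ 1) {P Q : SimpleGraph (Fin n) → Prop}
    (h : ∀ G, P G → Q G) : gnp n p P ≤ gnp n p Q := by
  rw [gnp_eq, gnp_eq]; exact prs_mono _ hp0 hp1 (fun W _ => h _)

lemma gnp_not (P : SimpleGraph (Fin n) → Prop) :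
    gnp n p (fun G => ¬ P G) = 1 - gnp n p P := by
  rw [gnp_eq, gnp_eq]; exact prs_not _ _

lemma gnp_or (hp0 : 0 ≤ p) (hp1 : p ≤ 1) (P Q : SimpleGraph (Fin n) → Prop) :
    gnp n p (fun G => P G ∨ Q G) ≤ gnp n p P + gnp n p Q := by
  rw [gnp_eq, gnp_eq, gnp_eq]; exact prs_or_le _ hp0 hp1 _ _

lemma gnp_union (hp0 : 0 ≤ p) (hp1 : p ≤ 1) {ι : Type*} (t : Finset ι)
    (P : ι → SimpleGraph (Fin n) → Prop) :
    gnp n p (fun G => ∃ i ∈ t, P i G) ≤ ∑ i ∈ t, gnp n p (P i) := by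
  rw [gnp_eq]
  refine (prs_union _ hp0 hp1 t (fun i W => P i (gr W))).trans (le_of_eq ?_)
  exact Finset.sum_congr rfl (fun i _ => (gnp_eq n p (P i)).symm)

/-- union bound with a uniform bound -/
lemma gnp_union_le (hp0 : 0 ≤ p) (hp1 : p ≤ 1) {ι : Type*} (t : Finset ι)
    (P : ι → SimpleGraph (Fin n) → Prop) (c M : ℝ) (hc : 0 ≤ c) (hM : (t.card : ℝ) ≤ M)
    (h : ∀ i ∈ t, gnp n p (P i) ≤ c) :
    gnp n p (fun G => ∃ i ∈ t, P i G) ≤ M * c := by
  refine (gnp_union hp0 hp1 t P).trans ((Finset.sum_le_card_nsmul _ _ _ h).trans ?_)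
  rw [nsmul_eq_mul]
  exact mul_le_mul_of_nonneg_right hM hc

/-- at least `t` edges of `F` are present -/
lemma gnp_many (hp0 : 0 ≤ p) (hp1 : p ≤ 1) (F : Finset (Sym2 (Fin n))) (hF : F ⊆ eT n) (t : ℕ) :
    gnp n p (fun G => t ≤ (F.filter (fun e => e ∈ G.edgeSet)).card) ≤
      (F.card.choose t : ℝ) * p ^ t := by
  rw [gnp_eq]
  have h1 : prs (eT n) p (fun W => t ≤ (F.filter (fun e => e ∈ (gr W).edgeSet)).card) ≤
      prs (eT n) p (fun W => ∃ T ∈ F.powersetCard t, T ⊆ W) := by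
    apply prs_mono _ hp0 hp1
    intro W _ h
    obtain ⟨T, hT, hTc⟩ := Finset.exists_subset_card_eq h
    refine ⟨T, Finset.mem_powersetCard.mpr ⟨hT.trans (Finset.filter_subset _ _), hTc⟩, ?_⟩
    intro e he
    have h2 := Finset.mem_filter.mp (hT he)
    exact (mem_gr (mem_eT.1 (hF h2.1))).1 h2.2
  refine h1.trans ((prs_union _ hp0 hp1 _ _).trans ?_)
  have h2 : ∀ T ∈ F.powersetCard t, prs (eT n) p (fun W => T ⊆ W) ≤ p ^ t := by
    intro T hT
    rw [Finset.mem_powersetCard] at hT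
    rw [prs_subset _ _ (hT.1.trans hF), hT.2]
  refine (Finset.sum_le_card_nsmul _ _ _ h2).trans (le_of_eq ?_)
  rw [nsmul_eq_mul, Finset.card_powersetCard]

/-- `choose M t * p ^ t ≤ (e M p / t) ^ t` -/
lemma choose_mul_pow_le (M t : ℕ) (p : ℝ) (hp0 : 0 ≤ p) (ht : 0 < t) :
    (M.choose t : ℝ) * p ^ t ≤ (Real.exp 1 * M * p / t) ^ t := by
  have ht' : (0 : ℝ) < t := by exact_mod_cast ht
  have h1 : (M.choose t : ℝ) ≤ (M : ℝ) ^ t / (t.factorial : ℝ) := Nat.choose_le_pow_div t M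
  have h2 : (t : ℝ) ^ t / (t.factorial : ℝ) ≤ Real.exp t := Real.pow_div_factorial_le_exp (t : ℝ) ht'.le t
  have h3 : Real.exp (t : ℝ) = Real.exp 1 ^ t := by rw [← Real.exp_nat_mul, mul_one]
  have hf : (0 : ℝ) < (t.factorial : ℝ) := by exact_mod_cast Nat.factorial_pos t
  have h4 : (Real.exp 1 * M * p / t) ^ t = Real.exp 1 ^ t / (t : ℝ) ^ t * ((M : ℝ) ^ t * p ^ t) := by
    rw [div_pow, mul_pow, mul_pow]; ring
  rw [h4]
  have h5 : 1 / (t.factorial : ℝ) ≤ Real.exp 1 ^ t / (t : ℝ) ^ t := by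
    rw [h3] at h2
    rw [div_le_div_iff₀ hf (by positivity), one_mul]
    rw [div_le_iff₀ hf] at h2
    exact h2
  calc (M.choose t : ℝ) * p ^ t ≤ (M : ℝ) ^ t / (t.factorial : ℝ) * p ^ t :=
        mul_le_mul_of_nonneg_right h1 (by positivity)
    _ = 1 / (t.factorial : ℝ) * ((M : ℝ) ^ t * p ^ t) := by ring
    _ ≤ _ := mul_le_mul_of_nonneg_right h5 (by positivity)

/-- the neighbours of `w` in `Q` -/
noncomputable def nb (G : SimpleGraph (Fin n)) (w : Fin n) (Q : Finset (Fin n)) : Finset (Fin n) :=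
  Q.filter (fun x => G.Adj w x)

lemma mem_nb {G : SimpleGraph (Fin n)} {w : Fin n} {Q : Finset (Fin n)} {x : Fin n} :
    x ∈ nb G w Q ↔ x ∈ Q ∧ G.Adj w x := Finset.mem_filter

/-- the potential edges from `w` to `Q` -/
noncomputable def row (w : Fin n) (Q : Finset (Fin n)) : Finset (Sym2 (Fin n)) :=
  Q.image (fun x => s(w, x))

lemma row_inj (w : Fin n) (Q : Finset (Fin n)) : Set.InjOn (fun x => s(w, x)) (Q : Set (Fin n)) := by
  intro x _ y _ h
  simp only [Sym2.eq_iff] at h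
  rcases h with ⟨_, h⟩ | ⟨h1, h2⟩
  · exact h
  · rw [h2, h1]

lemma row_sub (w : Fin n) (Q : Finset (Fin n)) (hw : w ∉ Q) : row w Q ⊆ eT n := by
  intro e he
  obtain ⟨x, hx, rfl⟩ := Finset.mem_image.mp he
  rw [mem_eT, Sym2.mk_isDiag_iff]
  rintro rfl
  exact hw hx

lemma mem_row {w : Fin n} {Q : Finset (Fin n)} {x : Fin n} : s(w, x) ∈ row w Q ↔ x ∈ Q := by
  unfold row
  rw [Finset.mem_image]
  constructor
  · rintro ⟨y, hy, h⟩
    simp only [Sym2.eq_iff] at h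
    rcases h with ⟨_, h⟩ | ⟨h1, h2⟩
    · exact h ▸ hy
    · rw [h2, h1] at hy; exact hy
  · intro h; exact ⟨x, h, rfl⟩

lemma row_disj (w w' : Fin n) (Q Q' : Finset (Fin n)) (hne : w ≠ w') (hw : w ∉ Q') :
    Disjoint (row w Q) (row w' Q') := by
  rw [Finset.disjoint_left]
  intro e he he'
  obtain ⟨x, hx, rfl⟩ := Finset.mem_image.mp he
  obtain ⟨y, hy, h⟩ := Finset.mem_image.mp he'
  simp only [Sym2.eq_iff] at h
  rcases h with ⟨h1, h2⟩ | ⟨h1, h2⟩
  · exact hne h1.symm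
  · exact hw (h2 ▸ hy)

lemma nb_gr (W : Finset (Sym2 (Fin n))) (w : Fin n) (Q : Finset (Fin n)) (hw : w ∉ Q) :
    nb (gr W) w Q = Q.filter (fun x => s(w, x) ∈ W ∩ row w Q) := by
  ext x
  rw [mem_nb, Finset.mem_filter, gr_adj, Finset.mem_inter, mem_row]
  constructor
  · rintro ⟨h1, h2, _⟩; exact ⟨h1, h2, h1⟩
  · rintro ⟨h1, h2, _⟩; exact ⟨h1, h2, fun h => hw (h ▸ h1)⟩

lemma exs_row (w : Fin n) (Q : Finset (Fin n)) (f : Finset (Fin n) → ℝ) :
    exs (row w Q) p (fun U => f (Q.filter (fun x => s(w, x) ∈ U))) = exs Q p f := by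
  unfold row
  rw [exs_image Q _ (row_inj w Q)]
  apply exs_congr
  intro W hW
  congr 1
  ext x
  rw [Finset.mem_filter]
  constructor
  · rintro ⟨h1, h2⟩
    obtain ⟨y, hy, h⟩ := Finset.mem_image.mp h2
    rwa [← row_inj w Q (hW hy) h1 h]
  · intro h
    exact ⟨hW h, Finset.mem_image_of_mem _ h⟩

/-- independence of the neighbourhoods in `Q` of the vertices outside `Q` -/
lemma rows_exs (X Q : Finset (Fin n)) (hXQ : Disjoint X Q) (g : Fin n → Finset (Fin n) → ℝ) :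
    exs (eT n) p (fun W => ∏ w ∈ X, g w (nb (gr W) w Q)) = ∏ w ∈ X, exs Q p (g w) := by
  have h0 : ∀ w ∈ X, w ∉ Q := fun w hw => Finset.disjoint_left.mp hXQ hw
  have h1 := exs_prod X p (fun w => row w Q)
    (fun w U => g w (Q.filter (fun x => s(w, x) ∈ U))) (eT n)
    (fun w hw => row_sub w Q (h0 w hw)) (fun w hw w' hw' hne => row_disj w w' Q Q hne (h0 w hw))
  rw [Finset.prod_congr rfl (fun w hw => exs_row (p := p) w Q (g w))] at h1
  rw [← h1]
  apply exs_congr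
  intro W _
  apply Finset.prod_congr rfl
  intro w hw
  rw [nb_gr W w Q (h0 w hw)]

/-- the potential edges touching `A` -/
noncomputable def eA (A : Finset (Fin n)) : Finset (Sym2 (Fin n)) :=
  (eT n).filter (fun e => ∃ v ∈ e, v ∈ A)

/-- the graph without the edges touching `A` -/
def off (A : Finset (Fin n)) (G : SimpleGraph (Fin n)) : SimpleGraph (Fin n) where
  Adj u v := G.Adj u v ∧ u ∉ A ∧ v ∉ A
  symm := ⟨fun _ _ h => ⟨h.1.symm, h.2.2, h.2.1⟩⟩
  loopless := ⟨fun _ h => G.loopless.irrefl _ h.1⟩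

lemma off_gr (A : Finset (Fin n)) (W : Finset (Sym2 (Fin n))) (hW : W ⊆ eT n) :
    off A (gr W) = gr (W ∩ (eT n \ eA A)) := by
  ext u v
  show ((gr W).Adj u v ∧ u ∉ A ∧ v ∉ A) ↔ _
  rw [gr_adj, gr_adj, Finset.mem_inter, Finset.mem_sdiff, eA, Finset.mem_filter]
  constructor
  · rintro ⟨⟨h1, h2⟩, h3, h4⟩
    refine ⟨⟨h1, hW h1, ?_⟩, h2⟩
    rintro ⟨_, w, hw, hwA⟩
    rcases Sym2.mem_iff.mp hw with rfl | rfl
    · exact h3 hwA
    · exact h4 hwA
  · rintro ⟨⟨h1, h2, h3⟩, h4⟩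
    refine ⟨⟨h1, h4⟩, ?_, ?_⟩
    · intro hu; exact h3 ⟨h2, u, Sym2.mem_mk_left u v, hu⟩
    · intro hv; exact h3 ⟨h2, v, Sym2.mem_mk_right u v, hv⟩

/-- the events `Bad` at the vertices of `A`, given the graph outside `A` -/
lemma rows_env (hp0 : 0 ≤ p) (hp1 : p ≤ 1) (A : Finset (Fin n))
    (Bad : SimpleGraph (Fin n) → Fin n → Finset (Fin n) → Prop) (β : ℝ) (hβ : 0 ≤ β)
    (h : ∀ H : SimpleGraph (Fin n), ∀ a ∈ A, prs Aᶜ p (Bad H a) ≤ β) :
    gnp n p (fun G => ∀ a ∈ A, Bad (off A G) a (nb G a Aᶜ)) ≤ β ^ A.card := by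
  rw [gnp_eq]
  have hsub : eA A ⊆ eT n := Finset.filter_subset _ _
  have hd : Disjoint (eT n \ eA A) (eA A) := Finset.sdiff_disjoint
  have hU : (eT n \ eA A) ∪ eA A = eT n := Finset.sdiff_union_of_subset hsub
  have hAc : ∀ a ∈ A, a ∉ Aᶜ := fun a ha => by simp [ha]
  have hrow : ∀ a ∈ A, row a Aᶜ ⊆ eA A := by
    intro a ha e he
    rw [eA, Finset.mem_filter]
    refine ⟨row_sub a _ (hAc a ha) he, ?_⟩
    obtain ⟨x, _, rfl⟩ := Finset.mem_image.mp he
    exact ⟨a, Sym2.mem_mk_left a x, ha⟩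
  have e1 : prs (eT n) p (fun W => ∀ a ∈ A, Bad (off A (gr W)) a (nb (gr W) a Aᶜ))
      = exs (eT n \ eA A) p (fun Z => exs (eA A) p (fun Y =>
        ∏ a ∈ A, ind (Bad (gr Z) a (Aᶜ.filter (fun x => s(a, x) ∈ Y ∩ row a Aᶜ))))) := by
    rw [← exs_fubini _ _ hd p (fun Z Y =>
        ∏ a ∈ A, ind (Bad (gr Z) a (Aᶜ.filter (fun x => s(a, x) ∈ Y ∩ row a Aᶜ)))), hU]
    apply exs_congr
    intro W hW
    rw [ind_forall]
    apply Finset.prod_congr rfl
    intro a ha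
    rw [off_gr A W hW, nb_gr W a Aᶜ (hAc a ha)]
    have h2 : W ∩ eA A ∩ row a Aᶜ = W ∩ row a Aᶜ := by
      rw [Finset.inter_assoc, Finset.inter_eq_right.mpr (hrow a ha)]
    rw [h2]
  rw [e1, ← exs_const (eT n \ eA A) p (β ^ A.card)]
  apply exs_mono _ hp0 hp1
  intro Z _
  rw [exs_prod A p (fun a => row a Aᶜ)
    (fun a U => ind (Bad (gr Z) a (Aᶜ.filter (fun x => s(a, x) ∈ U)))) (eA A) hrow
    (fun a ha a' ha' hne => row_disj a a' _ _ hne (hAc a ha))]
  rw [Finset.prod_congr rfl (fun a _ => exs_row (p := p) a Aᶜ (fun N => ind (Bad (gr Z) a N)))]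
  refine (Finset.prod_le_prod (fun a _ => exs_nonneg _ hp0 hp1 (fun _ _ => ind_nonneg _))
    (fun a ha => h (gr Z) a ha)).trans (le_of_eq ?_)
  rw [Finset.prod_const]

/-- exposing the edges inside `B` last -/
lemma expose_inside (hp0 : 0 ≤ p) (hp1 : p ≤ 1) (T : Finset (Sym2 (Fin n))) (hT : T ⊆ eT n) (c : ℝ)
    (P : Finset (Sym2 (Fin n)) → Finset (Sym2 (Fin n)) → Prop)
    (h : ∀ Z, Z ⊆ eT n \ T → prs T p (fun Y => P Z Y) ≤ c) :
    prs (eT n) p (fun W => P (W ∩ (eT n \ T)) (W ∩ T)) ≤ c := by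
  have hd : Disjoint (eT n \ T) T := Finset.sdiff_disjoint
  have hU : (eT n \ T) ∪ T = eT n := Finset.sdiff_union_of_subset hT
  have e1 : prs (eT n) p (fun W => P (W ∩ (eT n \ T)) (W ∩ T))
      = exs (eT n \ T) p (fun Z => prs T p (fun Y => P Z Y)) := by
    unfold prs
    rw [← exs_fubini _ _ hd p (fun Z Y => ind (P Z Y)), hU]
  rw [e1, ← exs_const (eT n \ T) p c]
  exact exs_mono _ hp0 hp1 h

/-- lower tail of a binomial variable -/
lemma lower_tail {X : Type*} (hp0 : 0 ≤ p) (hp1 : p ≤ 1) (s : Finset X) (t : ℝ) (ht : 4 * t ≤ p * s.card) :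
    prs s p (fun W => (W.card : ℝ) ≤ t) ≤ Real.exp (-(p * s.card * (3 / 10))) := by
  -- expectation of `2 ^ (- |W|)`
  have e1 : ∀ s : Finset X, exs s p (fun W => (1 / 2 : ℝ) ^ W.card) = (1 - p / 2) ^ s.card := by
    intro s
    induction s using Finset.induction_on with
    | empty => simp [exs_empty]
    | insert x s hx ih =>
      rw [exs_insert s x hx, Finset.card_insert_of_notMem hx, pow_succ, ih]
      have : exs s p (fun W => (1 / 2 : ℝ) ^ (insert x W).card)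
          = exs s p (fun W => (1 / 2) * (1 / 2 : ℝ) ^ W.card) := by
        apply exs_congr
        intro W hW
        rw [Finset.card_insert_of_notMem (fun h => hx (hW h)), pow_succ]; ring
      rw [this, exs_mul_left, ih]; ring
  have h1 := markov s hp0 hp1 (fun W => (1 / 2 : ℝ) ^ W.card) (fun W => (W.card : ℝ) ≤ t)
    (Real.exp (-(Real.log 2 * t))) (Real.exp_pos _) (fun W _ => by positivity)
    (fun W _ h => by
      have : ((1 : ℝ) / 2) ^ W.card = Real.exp (-(Real.log 2 * W.card)) := by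
        rw [one_div, inv_pow, ← Real.exp_log (show (0:ℝ) < (2 ^ W.card) by positivity), ← Real.exp_neg,
          Real.log_pow]
        congr 1; ring
      rw [this]
      apply Real.exp_le_exp.mpr
      have := Real.log_pos (show (1:ℝ) < 2 by norm_num)
      nlinarith)
  refine h1.trans ?_
  rw [e1, div_le_iff₀ (Real.exp_pos _), ← Real.exp_add]
  have h2 : (1 - p / 2) ^ s.card ≤ Real.exp (-(p / 2)) ^ s.card := by
    apply pow_le_pow_left₀ (by linarith)
    have := Real.add_one_le_exp (-(p / 2))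
    linarith
  refine h2.trans ?_
  rw [← Real.exp_nat_mul]
  apply Real.exp_le_exp.mpr
  have h3 : Real.log 2 ≤ 7 / 10 := by
    have := Real.log_two_lt_d9; linarith
  have hc : (0:ℝ) ≤ p * s.card := by positivity
  have h4 : Real.log 2 * t ≤ 7 / 10 * (p * s.card / 4) := by
    have h5 : t ≤ p * s.card / 4 := by linarith
    have h6 := Real.log_pos (show (1:ℝ) < 2 by norm_num)
    calc Real.log 2 * t ≤ Real.log 2 * (p * s.card / 4) := mul_le_mul_of_nonneg_left h5 h6.le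
      _ ≤ _ := mul_le_mul_of_nonneg_right h3 (by positivity)
  nlinarith

end

end Pool.Agent.H98.CC
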