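import Pool.Agent.H98.CC.Exs

set_option autoImplicit false
set_option linter.unusedSectionVars false

/-!
# Independent sets and matchings in random vertex subsets
-/

namespace Pool.Agent.H98.CC

open Finset
open scoped Classical

section

variable {X : Type*} [DecidableEq X] {p : ℝ}

/-- decreasing events on the subsets of `s` -/
def Down (s : Finset X) (A : Finset X → Prop) : Prop := ∀ W W', W ⊆ W' → W' ⊆ s → A W' → A W

lemma Down.and {s : Finset X} {A B : Finset X → Prop} (hA : Down s A) (hB : Down s B) :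
    Down s (fun W => A W ∧ B W) :=
  fun W W' h h' hh => ⟨hA W W' h h' hh.1, hB W W' h h' hh.2⟩

lemma Down.mono {s t : Finset X} {A : Finset X → Prop} (hA : Down s A) (h : t ⊆ s) : Down t A :=
  fun W W' h1 h2 hh => hA W W' h1 (h2.trans h) hh

/-- Harris' inequality for a decreasing event and the events that some sets are not contained -/
lemma harris (s : Finset X) (hp0 : 0 ≤ p) (hp1 : p ≤ 1) (A : Finset X → Prop) (hA : Down s A)
    {ι : Type*} [DecidableEq ι] (I : Finset ι) (T : ι → Finset X) (hT : ∀ i ∈ I, T i ⊆ s) :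
    (∏ i ∈ I, (1 - p ^ (T i).card)) * prs s p A ≤
      prs s p (fun W => A W ∧ ∀ i ∈ I, ¬ T i ⊆ W) := by
  induction I using Finset.induction_on with
  | empty =>
    simp only [Finset.prod_empty, one_mul]
    apply le_of_eq
    apply prs_congr
    intro W _
    simp
  | insert i I hi ih =>
    have ih' := ih (fun j hj => hT j (Finset.mem_insert_of_mem hj))
    rw [Finset.prod_insert hi]
    set A' : Finset X → Prop := fun W => A W ∧ ∀ i ∈ I, ¬ T i ⊆ W with hA'
    have hA'd : Down s A' := by
      intro W W' h h' hh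
      exact ⟨hA W W' h h' hh.1, fun j hj hh2 => hh.2 j hj (hh2.trans h)⟩
    have h1 := prs_down s hp0 hp1 A' hA'd (T i) (hT i (Finset.mem_insert_self i I))
    have h2 : prs s p (fun W => A W ∧ ∀ j ∈ insert i I, ¬ T j ⊆ W)
        = prs s p A' - prs s p (fun W => A' W ∧ T i ⊆ W) := by
      have h3 : prs s p (fun W => A W ∧ ∀ j ∈ insert i I, ¬ T j ⊆ W)
          + prs s p (fun W => A' W ∧ T i ⊆ W) = prs s p A' := by
        unfold prs
        rw [← exs_add]
        apply exs_congr
        intro W _
        by_cases h4 : A' W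
        · by_cases h5 : T i ⊆ W
          · rw [ind_pos (show A' W ∧ T i ⊆ W from ⟨h4, h5⟩), ind_pos h4, ind_neg]
            · ring
            · intro h6
              exact h6.2 i (Finset.mem_insert_self i I) h5
          · rw [ind_neg (show ¬ (A' W ∧ T i ⊆ W) from fun h => h5 h.2), ind_pos h4, ind_pos]
            · ring
            · refine ⟨h4.1, ?_⟩
              intro j hj
              rcases Finset.mem_insert.mp hj with rfl | hj
              · exact h5
              · exact h4.2 j hj
        · rw [ind_neg (show ¬ (A' W ∧ T i ⊆ W) from fun h => h4 h.1), ind_neg h4, ind_neg]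
          · ring
          · intro h6
            exact h4 ⟨h6.1, fun j hj => h6.2 j (Finset.mem_insert_of_mem hj)⟩
      linarith
    have hpi : p ^ (T i).card ≤ 1 := pow_le_one₀ hp0 hp1
    calc (1 - p ^ (T i).card) * (∏ j ∈ I, (1 - p ^ (T j).card)) * prs s p A
        = (1 - p ^ (T i).card) * ((∏ j ∈ I, (1 - p ^ (T j).card)) * prs s p A) := by ring
      _ ≤ (1 - p ^ (T i).card) * prs s p A' :=
          mul_le_mul_of_nonneg_left ih' (by linarith)
      _ ≤ prs s p (fun W => A W ∧ ∀ j ∈ insert i I, ¬ T j ⊆ W) := by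
          rw [h2]; nlinarith

/-- no pair of `N` is related by `R` -/
def Indep (R : X → X → Prop) (N : Finset X) : Prop := ∀ x ∈ N, ∀ y ∈ N, ¬ R x y

lemma Indep.mono {R : X → X → Prop} {N N' : Finset X} (h : N ⊆ N') (h' : Indep R N') :
    Indep R N := fun x hx y hy => h' x (h hx) y (h hy)

lemma indep_down (s : Finset X) (R : X → X → Prop) : Down s (Indep R) :=
  fun _ _ h _ h' => h'.mono h

/-- the neighbours of `x` in `B` -/
noncomputable def nbr (R : X → X → Prop) (B : Finset X) (x : X) : Finset X := B.filter (fun y => R x y)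

/-- the number of ordered pairs of `B` related by `R` -/
noncomputable def cpair (R : X → X → Prop) (B : Finset X) : ℝ := ∑ x ∈ B, ((nbr R B x).card : ℝ)

lemma nbr_sub (R : X → X → Prop) (B : Finset X) (x : X) : nbr R B x ⊆ B := Finset.filter_subset _ _

lemma mem_nbr {R : X → X → Prop} {B : Finset X} {x y : X} : y ∈ nbr R B x ↔ y ∈ B ∧ R x y :=
  Finset.mem_filter

lemma cpair_insert (R : X → X → Prop) (hsym : ∀ x y, R x y → R y x) (hirr : ∀ x, ¬ R x x)
    (B : Finset X) (x : X) (hx : x ∉ B) :
    cpair R (insert x B) = cpair R B + 2 * ((nbr R B x).card : ℝ) := by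
  unfold cpair
  rw [Finset.sum_insert hx]
  have h1 : nbr R (insert x B) x = nbr R B x := by
    ext y
    rw [mem_nbr, mem_nbr, Finset.mem_insert]
    constructor
    · rintro ⟨rfl | h, h2⟩
      · exact absurd h2 (hirr _)
      · exact ⟨h, h2⟩
    · rintro ⟨h, h2⟩
      exact ⟨Or.inr h, h2⟩
  have h2 : ∀ y ∈ B, ((nbr R (insert x B) y).card : ℝ) = ((nbr R B y).card : ℝ) + ind (R x y) := by
    intro y hy
    by_cases h : R x y
    · have h3 : nbr R (insert x B) y = insert x (nbr R B y) := by
        ext z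
        rw [mem_nbr, Finset.mem_insert, Finset.mem_insert, mem_nbr]
        constructor
        · rintro ⟨rfl | h5, h6⟩
          · exact Or.inl rfl
          · exact Or.inr ⟨h5, h6⟩
        · rintro (rfl | ⟨h5, h6⟩)
          · exact ⟨Or.inl rfl, hsym _ _ h⟩
          · exact ⟨Or.inr h5, h6⟩
      rw [h3, Finset.card_insert_of_notMem (fun h4 => hx (mem_nbr.mp h4).1), ind_pos h]
      push_cast; ring
    · have h3 : nbr R (insert x B) y = nbr R B y := by
        ext z
        rw [mem_nbr, mem_nbr, Finset.mem_insert]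
        constructor
        · rintro ⟨rfl | h5, h6⟩
          · exact absurd (hsym _ _ h6) h
          · exact ⟨h5, h6⟩
        · rintro ⟨h5, h6⟩
          exact ⟨Or.inr h5, h6⟩
      rw [h3, ind_neg h, add_zero]
  rw [h1, Finset.sum_congr rfl h2, Finset.sum_add_distrib]
  have h3 : ∑ y ∈ B, ind (R x y) = ((nbr R B x).card : ℝ) := by
    unfold nbr
    rw [Finset.card_filter]
    push_cast
    apply Finset.sum_congr rfl
    intro y _
    unfold ind
    rfl
  rw [h3]; ring

lemma bonf (m : ℕ) : (m : ℝ) - m * (m - 1) / 2 ≤ ind (1 ≤ m) := by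
  rcases Nat.lt_or_ge m 3 with h | h
  · interval_cases m <;> norm_num [ind]
  · have h1 : (3 : ℝ) ≤ m := by exact_mod_cast h
    have h2 := ind_nonneg (1 ≤ m)
    nlinarith

lemma sum_ind_mem (Γ N : Finset X) : ∑ y ∈ Γ, ind (y ∈ N) = ((Γ ∩ N).card : ℝ) := by
  rw [← Finset.filter_mem_eq_inter, Finset.card_filter]
  push_cast
  apply Finset.sum_congr rfl
  intro y _
  by_cases h : y ∈ N
  · rw [ind_pos h, if_pos h]
  · rw [ind_neg h, if_neg h]

lemma sum_ind_pair (Γ N : Finset X) :
    ∑ e ∈ Γ.offDiag, ind (({e.1, e.2} : Finset X) ⊆ N)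
      = ((Γ ∩ N).card : ℝ) * ((Γ ∩ N).card - 1) := by
  have h1 : ∑ e ∈ Γ.offDiag, ind (({e.1, e.2} : Finset X) ⊆ N)
      = (((Γ ∩ N).offDiag).card : ℝ) := by
    have h2 : (Γ ∩ N).offDiag = Γ.offDiag.filter (fun e => ({e.1, e.2} : Finset X) ⊆ N) := by
      ext ⟨a, b⟩
      simp only [Finset.mem_offDiag, Finset.mem_inter, Finset.mem_filter, Finset.insert_subset_iff,
        Finset.singleton_subset_iff]
      tauto
    rw [h2, Finset.card_filter]
    push_cast
    apply Finset.sum_congr rfl
    intro y _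
    by_cases h : ({y.1, y.2} : Finset X) ⊆ N
    · rw [ind_pos h, if_pos h]
    · rw [ind_neg h, if_neg h]
  rw [h1, Finset.offDiag_card]
  have h2 : (Γ ∩ N).card ≤ (Γ ∩ N).card * (Γ ∩ N).card := Nat.le_mul_self _
  rw [Nat.cast_sub h2]
  push_cast
  ring

/-- one vertex more -/
lemma indep_step (B : Finset X) (x : X) (hx : x ∉ B) (R : X → X → Prop)
    (hsym : ∀ x y, R x y → R y x) (hirr : ∀ x, ¬ R x x)
    (D : ℝ) (hp0 : 0 ≤ p) (hp1 : p ≤ 1) (hDp : 3 * (D * p) ≤ 1)
    (hD : ∀ y ∈ insert x B, ((nbr R (insert x B) y).card : ℝ) ≤ D) :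
    prs (insert x B) p (Indep R) ≤
      (1 - p ^ 2 * ((nbr R B x).card : ℝ) / 2) * prs B p (Indep R) := by
  set f := prs B p (Indep R) with hf
  have hf0 : 0 ≤ f := prs_nonneg B hp0 hp1 _
  set Γ := nbr R B x with hΓ
  have hnb : ∀ y ∈ insert x B, ∀ C, C ⊆ insert x B → ((nbr R C y).card : ℝ) ≤ D := by
    intro y hy C hC
    refine le_trans ?_ (hD y hy)
    have : nbr R C y ⊆ nbr R (insert x B) y := by
      intro z hz
      rw [mem_nbr] at hz ⊢
      exact ⟨hC hz.1, hz.2⟩
    exact_mod_cast Finset.card_le_card this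
  have hΓD : (Γ.card : ℝ) ≤ D := hnb x (Finset.mem_insert_self x B) B (Finset.subset_insert x B)
  -- the event that `insert x N` is independent
  have e1 : prs (insert x B) p (Indep R)
      = (1 - p) * f + p * prs B p (fun N => Indep R N ∧ ¬ 1 ≤ (Γ ∩ N).card) := by
    unfold prs
    rw [exs_insert B x hx]
    congr 1
    congr 1
    apply exs_congr
    intro N hN
    apply ind_congr
    constructor
    · intro h
      refine ⟨h.mono (Finset.subset_insert x N), ?_⟩
      intro h2
      obtain ⟨y, hy⟩ := Finset.card_pos.mp h2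
      rw [Finset.mem_inter, hΓ, mem_nbr] at hy
      exact h x (Finset.mem_insert_self x N) y (Finset.mem_insert_of_mem hy.2) hy.1.2
    · rintro ⟨h, h2⟩ a ha b hb hab
      have h3 : ∀ y ∈ N, ¬ R x y := by
        intro y hy hxy
        apply h2
        apply Finset.card_pos.mpr
        exact ⟨y, Finset.mem_inter.mpr ⟨mem_nbr.mpr ⟨hN hy, hxy⟩, hy⟩⟩
      rcases Finset.mem_insert.mp ha with rfl | ha' <;> rcases Finset.mem_insert.mp hb with rfl | hb'
      · exact hirr _ hab
      · exact h3 b hb' hab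
      · exact h3 a ha' (hsym _ _ hab)
      · exact h a ha' b hb' hab
  have e2 : prs B p (fun N => Indep R N ∧ ¬ 1 ≤ (Γ ∩ N).card)
      = f - prs B p (fun N => Indep R N ∧ 1 ≤ (Γ ∩ N).card) := by
    have : prs B p (fun N => Indep R N ∧ ¬ 1 ≤ (Γ ∩ N).card)
        + prs B p (fun N => Indep R N ∧ 1 ≤ (Γ ∩ N).card) = f := by
      rw [hf]
      unfold prs
      rw [← exs_add]
      apply exs_congr
      intro N _
      by_cases h1 : Indep R N <;> by_cases h2 : 1 ≤ (Γ ∩ N).card <;> simp [ind, h1, h2]
    linarith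
  -- Bonferroni
  have e3 : (∑ y ∈ Γ, prs B p (fun N => Indep R N ∧ y ∈ N))
      - (∑ e ∈ Γ.offDiag, prs B p (fun N => Indep R N ∧ ({e.1, e.2} : Finset X) ⊆ N)) / 2
      ≤ prs B p (fun N => Indep R N ∧ 1 ≤ (Γ ∩ N).card) := by
    have h1 : (∑ y ∈ Γ, prs B p (fun N => Indep R N ∧ y ∈ N))
      - (∑ e ∈ Γ.offDiag, prs B p (fun N => Indep R N ∧ ({e.1, e.2} : Finset X) ⊆ N)) / 2
      = exs B p (fun N => ind (Indep R N) *
        (((Γ ∩ N).card : ℝ) - ((Γ ∩ N).card : ℝ) * ((Γ ∩ N).card - 1) / 2)) := by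
      unfold prs
      rw [← exs_sum, ← exs_sum]
      have h2 : ∀ (f g : Finset X → ℝ), exs B p f - exs B p g / 2 = exs B p (fun N => f N + (-1/2) * g N) := by
        intro f g
        rw [exs_add, exs_mul_left]; ring
      rw [h2]
      apply exs_congr
      intro N _
      simp only [ind_and]
      rw [← Finset.mul_sum, ← Finset.mul_sum, sum_ind_mem, sum_ind_pair]
      ring
    rw [h1]
    apply exs_mono B hp0 hp1
    intro N _
    rw [ind_and]
    exact mul_le_mul_of_nonneg_left (bonf _) (ind_nonneg _)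
  -- single vertices
  have e4 : ∀ y ∈ Γ, p * (1 - D * p) * f ≤ prs B p (fun N => Indep R N ∧ y ∈ N) := by
    intro y hy
    have hyB : y ∈ B := nbr_sub R B x hy
    have hBe : insert y (B.erase y) = B := Finset.insert_erase hyB
    have hye : y ∉ B.erase y := Finset.notMem_erase y B
    have h1 : prs B p (fun N => Indep R N ∧ y ∈ N)
        = p * prs (B.erase y) p (fun N => Indep R N ∧ ∀ z ∈ nbr R (B.erase y) y, ¬ ({z} : Finset X) ⊆ N) := by
      unfold prs
      conv_lhs => rw [← hBe]
      rw [exs_insert _ y hye]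
      have h2 : exs (B.erase y) p (fun W => ind (Indep R W ∧ y ∈ W)) = 0 := by
        rw [← exs_const (B.erase y) p 0]
        apply exs_congr
        intro W hW
        apply ind_neg
        rintro ⟨_, h⟩
        exact hye (hW h)
      rw [h2, mul_zero, zero_add]
      congr 1
      apply exs_congr
      intro N hN
      apply ind_congr
      constructor
      · rintro ⟨h, _⟩
        refine ⟨h.mono (Finset.subset_insert y N), ?_⟩
        intro z hz h3
        rw [Finset.singleton_subset_iff] at h3
        exact h y (Finset.mem_insert_self y N) z (Finset.mem_insert_of_mem h3) (mem_nbr.mp hz).2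
      · rintro ⟨h, h2⟩
        refine ⟨?_, Finset.mem_insert_self y N⟩
        have h3 : ∀ z ∈ N, ¬ R y z := by
          intro z hz hyz
          apply h2 z (mem_nbr.mpr ⟨hN hz, hyz⟩)
          rwa [Finset.singleton_subset_iff]
        intro a ha b hb hab
        rcases Finset.mem_insert.mp ha with rfl | ha' <;> rcases Finset.mem_insert.mp hb with rfl | hb'
        · exact hirr _ hab
        · exact h3 b hb' hab
        · exact h3 a ha' (hsym _ _ hab)
        · exact h a ha' b hb' hab
    have h2 := harris (B.erase y) hp0 hp1 (Indep R) (indep_down _ R) (nbr R (B.erase y) y)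
      (fun z => ({z} : Finset X)) (fun z hz => by
        rw [Finset.singleton_subset_iff]; exact nbr_sub R _ y hz)
    simp only [Finset.card_singleton, pow_one, Finset.prod_const] at h2
    have h3 : f ≤ prs (B.erase y) p (Indep R) := by
      rw [hf, ← prs_inter B (B.erase y) (Finset.erase_subset y B) (Indep R)]
      exact prs_mono B hp0 hp1 (fun W _ h => h.mono Finset.inter_subset_left)
    have h4 : 1 - D * p ≤ (1 - p) ^ (nbr R (B.erase y) y).card := by
      have h5 := one_add_mul_le_pow (a := -p) (by linarith) (nbr R (B.erase y) y).card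
      have h6 : ((nbr R (B.erase y) y).card : ℝ) ≤ D :=
        hnb y (Finset.mem_insert_of_mem hyB) _ ((Finset.erase_subset y B).trans (Finset.subset_insert x B))
      have h7 : ((nbr R (B.erase y) y).card : ℝ) * p ≤ D * p := mul_le_mul_of_nonneg_right h6 hp0
      have h8 : (1 : ℝ) + ((nbr R (B.erase y) y).card : ℝ) * (-p) ≤ (1 - p) ^ (nbr R (B.erase y) y).card := by
        have : (1 : ℝ) + -p = 1 - p := by ring
        rw [this] at h5
        exact h5
      linarith
    rw [h1, mul_assoc]
    apply mul_le_mul_of_nonneg_left _ hp0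
    refine le_trans ?_ h2
    have h9 : 0 ≤ 1 - D * p := by linarith
    exact mul_le_mul h4 h3 hf0 (by
      have : (0:ℝ) ≤ 1 - p := by linarith
      positivity)
  have e5 : ∀ e ∈ Γ.offDiag, prs B p (fun N => Indep R N ∧ ({e.1, e.2} : Finset X) ⊆ N) ≤ p ^ 2 * f := by
    intro e he
    rw [Finset.mem_offDiag] at he
    have h1 := prs_down B hp0 hp1 (Indep R) (indep_down B R) ({e.1, e.2} : Finset X) (by
      rw [Finset.insert_subset_iff, Finset.singleton_subset_iff]
      exact ⟨nbr_sub R B x he.1, nbr_sub R B x he.2.1⟩)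
    rw [Finset.card_pair he.2.2] at h1
    exact h1
  have e6 : (Γ.card : ℝ) * (p * (1 - D * p) * f) ≤ ∑ y ∈ Γ, prs B p (fun N => Indep R N ∧ y ∈ N) := by
    have := Finset.card_nsmul_le_sum Γ _ _ e4
    rwa [nsmul_eq_mul] at this
  have e7 : ∑ e ∈ Γ.offDiag, prs B p (fun N => Indep R N ∧ ({e.1, e.2} : Finset X) ⊆ N)
      ≤ (Γ.card : ℝ) ^ 2 * (p ^ 2 * f) := by
    have h1 := Finset.sum_le_card_nsmul Γ.offDiag _ _ e5
    rw [nsmul_eq_mul] at h1
    refine h1.trans ?_
    apply mul_le_mul_of_nonneg_right _ (by positivity)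
    rw [Finset.offDiag_card]
    have : ((Γ.card * Γ.card - Γ.card : ℕ) : ℝ) ≤ ((Γ.card * Γ.card : ℕ) : ℝ) := by
      exact_mod_cast Nat.sub_le _ _
    refine this.trans (le_of_eq ?_)
    push_cast; ring
  rw [e1, e2]
  have hc0 : (0 : ℝ) ≤ Γ.card := Nat.cast_nonneg _
  have hpf : 0 ≤ p * f := mul_nonneg hp0 hf0
  have key : (Γ.card : ℝ) * p / 2 * f ≤ prs B p (fun N => Indep R N ∧ 1 ≤ (Γ ∩ N).card) := by
    refine le_trans ?_ e3
    have h1 : (Γ.card : ℝ) ^ 2 * (p ^ 2 * f) ≤ (Γ.card : ℝ) * (D * p) * (p * f) := by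
      have : (Γ.card : ℝ) ^ 2 * (p ^ 2 * f) = (Γ.card : ℝ) * (Γ.card * p) * (p * f) := by ring
      rw [this]
      apply mul_le_mul_of_nonneg_right _ hpf
      apply mul_le_mul_of_nonneg_left _ hc0
      exact mul_le_mul_of_nonneg_right hΓD hp0
    have h2 : (Γ.card : ℝ) * (p * (1 - D * p) * f) - (Γ.card : ℝ) * (D * p) * (p * f) / 2
        - (Γ.card : ℝ) * p / 2 * f = (Γ.card : ℝ) * (p * f) * (1 / 2 - 3 / 2 * (D * p)) := by ring
    have h3 : 0 ≤ (Γ.card : ℝ) * (p * f) * (1 / 2 - 3 / 2 * (D * p)) := by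
      apply mul_nonneg (mul_nonneg hc0 hpf)
      linarith
    linarith
  nlinarith

/-- the probability that a random set is independent -/
lemma indep_bound (R : X → X → Prop) (hsym : ∀ x y, R x y → R y x) (hirr : ∀ x, ¬ R x x)
    (D : ℝ) (hp0 : 0 ≤ p) (hp1 : p ≤ 1) (hDp : 3 * (D * p) ≤ 1) (B : Finset X)
    (hD : ∀ y ∈ B, ((nbr R B y).card : ℝ) ≤ D) :
    prs B p (Indep R) ≤ Real.exp (-(p ^ 2 * cpair R B / 4)) := by
  induction B using Finset.induction_on with
  | empty =>
    have : cpair R ∅ = 0 := by simp [cpair]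
    rw [this]
    simp only [mul_zero, zero_div, neg_zero, Real.exp_zero]
    exact prs_le_one _ hp0 hp1 _
  | insert x B hx ih =>
    have h1 := indep_step B x hx R hsym hirr D hp0 hp1 hDp hD
    have h2 := ih (fun y hy => by
      refine le_trans ?_ (hD y (Finset.mem_insert_of_mem hy))
      have : nbr R B y ⊆ nbr R (insert x B) y := by
        intro z hz
        rw [mem_nbr] at hz ⊢
        exact ⟨Finset.mem_insert_of_mem hz.1, hz.2⟩
      exact_mod_cast Finset.card_le_card this)
    rw [cpair_insert R hsym hirr B x hx]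
    have h3 : Real.exp (-(p ^ 2 * (cpair R B + 2 * ((nbr R B x).card : ℝ)) / 4))
        = Real.exp (-(p ^ 2 * ((nbr R B x).card : ℝ) / 2)) * Real.exp (-(p ^ 2 * cpair R B / 4)) := by
      rw [← Real.exp_add]; congr 1; ring
    rw [h3]
    refine h1.trans ?_
    have h4 : 1 - p ^ 2 * ((nbr R B x).card : ℝ) / 2 ≤ Real.exp (-(p ^ 2 * ((nbr R B x).card : ℝ) / 2)) := by
      have := Real.add_one_le_exp (-(p ^ 2 * ((nbr R B x).card : ℝ) / 2))
      linarith
    calc (1 - p ^ 2 * ((nbr R B x).card : ℝ) / 2) * prs B p (Indep R)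
        ≤ Real.exp (-(p ^ 2 * ((nbr R B x).card : ℝ) / 2)) * prs B p (Indep R) :=
          mul_le_mul_of_nonneg_right h4 (prs_nonneg _ hp0 hp1 _)
      _ ≤ _ := mul_le_mul_of_nonneg_left h2 (Real.exp_pos _).le

/-- `N` contains `m` disjoint `R`-pairs -/
def HasMatching (R : X → X → Prop) (N : Finset X) (m : ℕ) : Prop :=
  ∃ M : Finset (X × X), M.card = m ∧ (∀ e ∈ M, e.1 ∈ N ∧ e.2 ∈ N ∧ R e.1 e.2) ∧
    ∀ e ∈ M, ∀ e' ∈ M, e ≠ e' → e.1 ≠ e'.1 ∧ e.1 ≠ e'.2 ∧ e.2 ≠ e'.1 ∧ e.2 ≠ e'.2

lemma matching_or (R : X → X → Prop) (B : Finset X) (hB : B.Nonempty) (m : ℕ) :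
    ∀ N, N ⊆ B → HasMatching R N m ∨
    ∃ g : Fin m → X × X, (∀ i, g i ∈ B ×ˢ B) ∧
      Indep R (N \ (Finset.univ.image (fun i => (g i).1) ∪ Finset.univ.image (fun i => (g i).2))) := by
  induction m with
  | zero =>
    intro N _
    left
    refine ⟨∅, rfl, by simp, by simp⟩
  | succ m ih =>
    intro N hN
    by_cases hI : Indep R N
    · right
      obtain ⟨x0, hx0⟩ := hB
      refine ⟨fun _ => (x0, x0), fun _ => by simp [hx0], hI.mono Finset.sdiff_subset⟩
    · unfold Indep at hI
      push Not at hI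
      obtain ⟨x, hx, y, hy, hxy⟩ := hI
      rcases ih (N \ {x, y}) (Finset.sdiff_subset.trans hN) with ⟨M, hM, hM1, hM2⟩ | ⟨g, hg, hg2⟩
      · left
        have hnot : ∀ e ∈ M, (e.1 ≠ x ∧ e.1 ≠ y) ∧ (e.2 ≠ x ∧ e.2 ≠ y) := by
          intro e he
          have h1 := (hM1 e he).1
          have h2 := (hM1 e he).2.1
          simp only [Finset.mem_sdiff, Finset.mem_insert, Finset.mem_singleton, not_or] at h1 h2
          exact ⟨h1.2, h2.2⟩
        have hxyM : (x, y) ∉ M := fun h => (hnot _ h).1.1 rfl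
        refine ⟨insert (x, y) M, ?_, ?_, ?_⟩
        · rw [Finset.card_insert_of_notMem hxyM, hM]
        · intro e he
          rcases Finset.mem_insert.mp he with rfl | he
          · exact ⟨hx, hy, hxy⟩
          · obtain ⟨h1, h2, h3⟩ := hM1 e he
            exact ⟨(Finset.mem_sdiff.mp h1).1, (Finset.mem_sdiff.mp h2).1, h3⟩
        · intro e he e' he' hne
          rcases Finset.mem_insert.mp he with rfl | he <;>
            rcases Finset.mem_insert.mp he' with rfl | he'
          · exact absurd rfl hne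
          · obtain ⟨⟨h1, h2⟩, h3, h4⟩ := hnot e' he'
            exact ⟨h1.symm, h3.symm, h2.symm, h4.symm⟩
          · obtain ⟨⟨h1, h2⟩, h3, h4⟩ := hnot e he
            exact ⟨h1, h2, h3, h4⟩
          · exact hM2 e he e' he' hne
      · right
        refine ⟨Fin.cons (x, y) g, ?_, ?_⟩
        · intro i
          refine Fin.cases ?_ (fun j => ?_) i
          · simp only [Fin.cons_zero, Finset.mem_product]
            exact ⟨hN hx, hN hy⟩
          · simp only [Fin.cons_succ]
            exact hg j
        · apply hg2.mono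
          intro z hz
          simp only [Finset.mem_sdiff, Finset.mem_union, Finset.mem_image, Finset.mem_univ,
            true_and, not_or, not_exists, Finset.mem_insert, Finset.mem_singleton] at hz ⊢
          obtain ⟨h1, h2, h3⟩ := hz
          refine ⟨⟨h1, ?_, ?_⟩, ?_, ?_⟩
          · have := h2 0
            simp only [Fin.cons_zero] at this
            exact fun h => this h.symm
          · have := h3 0
            simp only [Fin.cons_zero] at this
            exact fun h => this h.symm
          · intro i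
            have := h2 i.succ
            simpa only [Fin.cons_succ] using this
          · intro i
            have := h3 i.succ
            simpa only [Fin.cons_succ] using this

lemma cpair_sdiff (R : X → X → Prop) (hsym : ∀ x y, R x y → R y x) (hirr : ∀ x, ¬ R x x)
    (D : ℝ) (B Z : Finset X) (hD : ∀ y ∈ B, ((nbr R B y).card : ℝ) ≤ D) (hD0 : 0 ≤ D) :
    cpair R B - 2 * (Z.card : ℝ) * D ≤ cpair R (B \ Z) := by
  induction Z using Finset.induction_on with
  | empty => simp
  | insert z Z hz ih =>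
    rw [Finset.card_insert_of_notMem hz]
    by_cases hzB : z ∈ B
    · have h1 : insert z (B \ insert z Z) = B \ Z := by
        ext y
        simp only [Finset.mem_insert, Finset.mem_sdiff, not_or]
        constructor
        · rintro (rfl | ⟨h1, h2, h3⟩)
          · exact ⟨hzB, hz⟩
          · exact ⟨h1, h3⟩
        · rintro ⟨h1, h2⟩
          by_cases h3 : y = z
          · exact Or.inl h3
          · exact Or.inr ⟨h1, h3, h2⟩
      have h2 := cpair_insert R hsym hirr (B \ insert z Z) z (by simp)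
      rw [h1] at h2
      have h3 : ((nbr R (B \ insert z Z) z).card : ℝ) ≤ D := by
        refine le_trans ?_ (hD z hzB)
        have : nbr R (B \ insert z Z) z ⊆ nbr R B z := by
          intro y hy
          rw [mem_nbr] at hy ⊢
          exact ⟨(Finset.mem_sdiff.mp hy.1).1, hy.2⟩
        exact_mod_cast Finset.card_le_card this
      push_cast
      linarith
    · have h1 : B \ insert z Z = B \ Z := by
        ext y
        simp only [Finset.mem_insert, Finset.mem_sdiff, not_or]
        constructor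
        · rintro ⟨h1, h2, h3⟩; exact ⟨h1, h3⟩
        · rintro ⟨h1, h2⟩
          exact ⟨h1, fun h => hzB (h ▸ h1), h2⟩
      rw [h1]
      push_cast
      nlinarith

/-- the probability that a random set contains no large matching -/
lemma matching_bound (R : X → X → Prop) (hsym : ∀ x y, R x y → R y x) (hirr : ∀ x, ¬ R x x)
    (D : ℝ) (hD0 : 0 ≤ D) (hp0 : 0 ≤ p) (hp1 : p ≤ 1) (hDp : 3 * (D * p) ≤ 1) (B : Finset X)
    (hB : B.Nonempty) (hD : ∀ y ∈ B, ((nbr R B y).card : ℝ) ≤ D) (m : ℕ) :
    prs B p (fun N => ¬ HasMatching R N m) ≤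
      ((B.card : ℝ) ^ 2) ^ m * Real.exp (-(p ^ 2 * (cpair R B - 4 * m * D) / 4)) := by
  have h1 : prs B p (fun N => ¬ HasMatching R N m) ≤
      prs B p (fun N => ∃ g ∈ Fintype.piFinset (fun _ : Fin m => B ×ˢ B),
        Indep R (N \ (Finset.univ.image (fun i => (g i).1) ∪ Finset.univ.image (fun i => (g i).2)))) := by
    apply prs_mono B hp0 hp1
    intro N hN h
    rcases matching_or R B hB m N hN with h2 | ⟨g, hg, hg2⟩
    · exact absurd h2 h
    · exact ⟨g, Fintype.mem_piFinset.mpr hg, hg2⟩
  refine h1.trans ((prs_union B hp0 hp1 _ _).trans ?_)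
  have h2 : ∀ g ∈ Fintype.piFinset (fun _ : Fin m => B ×ˢ B),
      prs B p (fun N => Indep R (N \ (Finset.univ.image (fun i => (g i).1) ∪
        Finset.univ.image (fun i => (g i).2)))) ≤
      Real.exp (-(p ^ 2 * (cpair R B - 4 * m * D) / 4)) := by
    intro g _
    set Z := (Finset.univ.image (fun i => (g i).1) ∪ Finset.univ.image (fun i => (g i).2)) with hZ
    have h3 : prs B p (fun N => Indep R (N \ Z)) = prs (B \ Z) p (Indep R) := by
      rw [← prs_inter B (B \ Z) Finset.sdiff_subset (Indep R)]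
      apply prs_congr
      intro W hW
      have : W \ Z = W ∩ (B \ Z) := by
        ext y
        simp only [Finset.mem_sdiff, Finset.mem_inter]
        constructor
        · rintro ⟨h1, h2⟩; exact ⟨h1, hW h1, h2⟩
        · rintro ⟨h1, _, h2⟩; exact ⟨h1, h2⟩
      rw [this]
    rw [h3]
    have hZc : (Z.card : ℝ) ≤ 2 * m := by
      have h4 : Z.card ≤ m + m := by
        refine (Finset.card_union_le _ _).trans ?_
        apply Nat.add_le_add
        · exact Finset.card_image_le.trans (by simp)
        · exact Finset.card_image_le.trans (by simp)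
      have : (Z.card : ℝ) ≤ ((m + m : ℕ) : ℝ) := by exact_mod_cast h4
      push_cast at this
      linarith
    refine (indep_bound R hsym hirr D hp0 hp1 hDp (B \ Z) (fun y hy => ?_)).trans ?_
    · refine le_trans ?_ (hD y (Finset.mem_sdiff.mp hy).1)
      have : nbr R (B \ Z) y ⊆ nbr R B y := by
        intro z hz
        rw [mem_nbr] at hz ⊢
        exact ⟨(Finset.mem_sdiff.mp hz.1).1, hz.2⟩
      exact_mod_cast Finset.card_le_card this
    · apply Real.exp_le_exp.mpr
      have h5 := cpair_sdiff R hsym hirr D B Z hD hD0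
      have h6 : 2 * (Z.card : ℝ) * D ≤ 4 * m * D := by nlinarith
      have h7 : cpair R B - 4 * m * D ≤ cpair R (B \ Z) := by linarith
      have h8 : p ^ 2 * (cpair R B - 4 * m * D) ≤ p ^ 2 * cpair R (B \ Z) :=
        mul_le_mul_of_nonneg_left h7 (by positivity)
      linarith
  refine (Finset.sum_le_card_nsmul _ _ _ h2).trans (le_of_eq ?_)
  rw [nsmul_eq_mul, Fintype.card_piFinset]
  simp only [Finset.card_product, Finset.prod_const, Finset.card_univ, Fintype.card_fin]
  push_cast
  ring

end

end Pool.Agent.H98.CC
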