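import Pool.Agent.H98.CC.Fin2
import Pool.Agent.H98.CC.Asy

set_option autoImplicit false
set_option linter.unusedSectionVars false

/-!
# The lower bound
-/

namespace Pool.Agent.H98.CC

open Finset
open scoped Classical

/-- the order of magnitude -/
noncomputable def ff (n : ℕ) (p : ℝ) : ℝ :=
  1 / p * Real.log (1 + n * p ^ (5 / 2 : ℝ) / Real.sqrt (Real.log n))

lemma ff_eq (n : ℕ) (p Λ L : ℝ) (hΛ : p = Real.exp (-Λ)) (hL : L = Real.log n) (hn : 0 < n) :
    ff n p = Real.exp Λ * Real.log (1 + Real.exp (L - 5 / 2 * Λ) / Real.sqrt L) := by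
  have hnr : (0 : ℝ) < n := by exact_mod_cast hn
  unfold ff
  rw [hΛ, ← hL, ← Real.exp_mul, Real.exp_neg, one_div, inv_inv]
  congr 4
  rw [Real.exp_sub, hL, Real.exp_log hnr]
  rw [show -Λ * (5 / 2) = -(5 / 2 * Λ) by ring, Real.exp_neg]
  rfl

/-- bounds for `u = log (1 + Y)` -/
lemma u_bounds (Λ L : ℝ) (h1 : L ≤ 3 * Λ) (hL : 1 ≤ L) :
    0 < Real.log (1 + Real.exp (L - 5 / 2 * Λ) / Real.sqrt L) ∧
    Real.log (1 + Real.exp (L - 5 / 2 * Λ) / Real.sqrt L) ≤ 2 * L ∧
    Real.exp (L - 5 / 2 * Λ) / Real.sqrt L ≤ Real.exp (L / 6) := by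
  have hs : 1 ≤ Real.sqrt L := by rw [Real.one_le_sqrt]; exact hL
  have hY : 0 < Real.exp (L - 5 / 2 * Λ) / Real.sqrt L := by positivity
  have hY2 : Real.exp (L - 5 / 2 * Λ) / Real.sqrt L ≤ Real.exp (L / 6) := by
    refine (div_le_self (Real.exp_pos _).le hs).trans ?_
    apply Real.exp_le_exp.mpr
    linarith
  refine ⟨Real.log_pos (by linarith), ?_, hY2⟩
  rw [Real.log_le_iff_le_exp (by linarith)]
  have h2 : Real.exp (L / 6) ≤ Real.exp L := Real.exp_le_exp.mpr (by linarith)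
  have h3 : Real.exp (2 * L) = Real.exp L * Real.exp L := by rw [← Real.exp_add]; congr 1; ring
  have h4 : 2 ≤ Real.exp L := by
    have := Real.add_one_le_exp L; linarith
  rw [h3]
  nlinarith

/-- the lower bound holds with probability at least `1 - 8 / n` -/
lemma asy_lower (n : ℕ) (p Λ L K δ η : ℝ) (j m : ℕ) (hn : 2 ≤ n) (hp : p = Real.exp (-Λ))
    (hL : L = Real.log n) (hΛ1 : (1 + δ) * L ≤ 3 * Λ) (hΛ2 : 2 * Λ ≤ L) (hδ : 0 < δ)
    (hδ2 : δ ≤ 1 / 4) (hm : m = 8 * (j * (3 * 300))) (hj : 38 ≤ j * δ) (hj0 : 0 < j)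
    (hK : K = 200 * (m + 4)) (hbig : Big K δ η L) :
    gnp n p (fun G => ¬ 1 / (100 * K) * ff n p ≤ (cliqueChromaticNumber G : ℝ)) ≤ 8 / n := by
  obtain ⟨b1, b2, b3, b4, b5, b6, b7, b8, b9, b10, b11, b12⟩ := hbig
  have hn0 : 0 < n := by omega
  have hnr : (0 : ℝ) < n := by exact_mod_cast hn0
  have hnL : (n : ℝ) = Real.exp L := by rw [hL, Real.exp_log hnr]
  have hL0 : 0 < L := by linarith only [b1]
  have hΛ3 : L ≤ 3 * Λ := by
    have := mul_pos hδ hL0
    linarith only [this, hΛ1]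
  have hΛ200 : 200 ≤ Λ := by linarith only [hΛ3, b1]
  have hsq1 : 1 ≤ Real.sqrt L := by rw [Real.one_le_sqrt]; linarith
  have hsqL : Real.sqrt L ≤ L := by
    rw [Real.sqrt_le_left (by linarith)]; nlinarith only [b1]
  have hsq2 : Real.sqrt L ^ 2 = L := Real.sq_sqrt (by linarith)
  have hmr : (1 : ℝ) ≤ m := by
    have : 1 ≤ m := by omega
    exact_mod_cast this
  have hK1 : 1000 ≤ K := by rw [hK]; linarith
  have hK0 : 0 < K := by linarith
  have hp0 : 0 < p := hp ▸ Real.exp_pos _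
  -- `E = p^{-3/2} √L`
  set E : ℝ := Real.exp (3 / 2 * Λ) * Real.sqrt L with hE
  have hE0 : 0 < E := by positivity
  have hE1 : Real.exp (3 / 2 * Λ) ≤ E := by
    rw [hE]; exact le_mul_of_one_le_right (Real.exp_pos _).le hsq1
  have hE2 : E ^ 2 = Real.exp (3 * Λ) * L := by
    rw [hE, mul_pow, hsq2, ← Real.exp_nat_mul]; congr 2; push_cast; ring
  have hEL : Real.exp (L / 2) ≤ E := le_trans (Real.exp_le_exp.mpr (by linarith)) hE1
  have hE3 : 1 ≤ E := le_trans (Real.one_le_exp (by linarith)) hEL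
  have hKE : E ≤ K * E := le_mul_of_one_le_left hE0.le (by linarith)
  -- `s`
  set s : ℕ := ⌈K * E⌉₊ with hs
  have s_lo : K * E ≤ s := Nat.le_ceil _
  have s_hi : (s : ℝ) ≤ 2 * (K * E) := by
    have := Nat.ceil_lt_add_one (show 0 ≤ K * E by positivity)
    linarith
  have s_lo1 : Real.exp (3 / 2 * Λ) ≤ s := by linarith
  have s_lo2 : Real.exp (L / 2) ≤ s := by linarith
  have hs100 : 100 ≤ s := by
    have h1 : 1000 * 1 ≤ K * E := mul_le_mul hK1 hE3 (by norm_num) (by linarith only [hK0])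
    have : (100 : ℝ) ≤ s := by linarith only [h1, s_lo]
    exact_mod_cast this
  have hs0 : (0 : ℝ) < s := by
    have : 0 < s := by omega
    exact_mod_cast this
  -- `b`
  set b : ℕ := 2 * s - s / 100 with hb
  have b_hi : (b : ℝ) ≤ 2 * s := by
    have : b ≤ 2 * s := by omega
    exact_mod_cast this
  have b_lo : 199 / 100 * (s : ℝ) ≤ b := by
    have : 199 * s ≤ 100 * b := by omega
    have h2 : 199 * (s : ℝ) ≤ 100 * b := by exact_mod_cast this
    linarith
  have b_lo1 : (s : ℝ) ≤ b := by linarith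
  have hb0 : (0 : ℝ) < b := by linarith
  -- `D`
  set D : ℕ := ⌈Real.exp (-(7 / 10 * Λ)) * s⌉₊ with hD
  have D_lo : Real.exp (-(7 / 10 * Λ)) * s ≤ D := Nat.le_ceil _
  have D_hi : (D : ℝ) ≤ Real.exp (-(7 / 10 * Λ)) * s + 1 :=
    (Nat.ceil_lt_add_one (show 0 ≤ Real.exp (-(7 / 10 * Λ)) * s by positivity)).le
  have D_lo1 : Real.exp (L / 4) ≤ D := by
    refine le_trans ?_ D_lo
    refine le_trans ?_ (mul_le_mul_of_nonneg_left s_lo1 (Real.exp_pos _).le)
    rw [← Real.exp_add]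
    apply Real.exp_le_exp.mpr
    linarith
  have D0 : (0 : ℝ) < D := lt_of_lt_of_le (Real.exp_pos _) D_lo1
  -- `D p`
  have hDp : D * p ≤ Real.exp (-(1 / 10 * Λ)) := by
    have h1 : D * p ≤ (Real.exp (-(7 / 10 * Λ)) * (2 * (K * E)) + 1) * p := by
      apply mul_le_mul_of_nonneg_right _ hp0.le
      have := mul_le_mul_of_nonneg_left s_hi (Real.exp_pos (-(7 / 10 * Λ))).le
      linarith
    have h2 : (Real.exp (-(7 / 10 * Λ)) * (2 * (K * E)) + 1) * p = Real.exp (-(1 / 10 * Λ)) *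
        (2 * K * Real.sqrt L * Real.exp (-(1 / 10 * Λ)) + Real.exp (-(9 / 10 * Λ))) := by
      have e1 : Real.exp (-(7 / 10 * Λ)) * Real.exp (3 / 2 * Λ) * Real.exp (-Λ) =
          Real.exp (-(1 / 10 * Λ)) * Real.exp (-(1 / 10 * Λ)) := by
        rw [← Real.exp_add, ← Real.exp_add, ← Real.exp_add]; congr 1; ring
      have e2 : Real.exp (-Λ) = Real.exp (-(1 / 10 * Λ)) * Real.exp (-(9 / 10 * Λ)) := by
        rw [← Real.exp_add]; congr 1; ring
      rw [hE, hp]
      calc (Real.exp (-(7 / 10 * Λ)) * (2 * (K * (Real.exp (3 / 2 * Λ) * Real.sqrt L))) + 1) *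
            Real.exp (-Λ) = 2 * K * Real.sqrt L *
            (Real.exp (-(7 / 10 * Λ)) * Real.exp (3 / 2 * Λ) * Real.exp (-Λ)) + Real.exp (-Λ) := by
            ring
        _ = _ := by rw [e1, e2]; ring
    have h3 : 2 * K * Real.sqrt L * Real.exp (-(1 / 10 * Λ)) + Real.exp (-(9 / 10 * Λ)) ≤ 1 := by
      refine le_trans ?_ b6
      apply add_le_add
      · apply mul_le_mul
        · exact mul_le_mul_of_nonneg_left hsqL (by positivity)
        · apply Real.exp_le_exp.mpr; linarith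
        · positivity
        · positivity
      · apply Real.exp_le_exp.mpr; linarith
    rw [h2] at h1
    refine h1.trans ?_
    exact mul_le_of_le_one_right (Real.exp_pos _).le h3
  have hDp1 : Real.exp (-(1 / 10 * Λ)) ≤ 1 / 3 := by
    rw [Real.exp_neg, inv_le_comm₀ (Real.exp_pos _) (by norm_num)]
    have := Real.add_one_le_exp (1 / 10 * Λ)
    norm_num
    linarith
  have hp13 : p ≤ 1 / 3 := by
    refine le_trans ?_ hDp1
    rw [hp]; apply Real.exp_le_exp.mpr; linarith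
  -- `D2`
  set D2 : ℕ := ⌈6 * (n * p ^ 2)⌉₊ + ⌈4 * L⌉₊ with hD2
  have D2_lo1 : 6 * (n * p ^ 2) ≤ D2 := by
    rw [hD2]; push_cast
    have h1 := Nat.le_ceil (6 * (n * p ^ 2))
    have h2 : (0 : ℝ) ≤ (⌈4 * L⌉₊ : ℝ) := by positivity
    linarith
  have D2_lo2 : 4 * L ≤ D2 := by
    rw [hD2]; push_cast
    have h1 := Nat.le_ceil (4 * L)
    have h2 : (0 : ℝ) ≤ (⌈6 * (n * p ^ 2)⌉₊ : ℝ) := by positivity
    linarith
  have hnp2 : n * p ^ 2 = Real.exp (L - 2 * Λ) := by
    rw [hnL, hp, ← Real.exp_nat_mul, ← Real.exp_add]; congr 1; push_cast; ring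
  have D2_hi : (D2 : ℝ) ≤ 6 * Real.exp (L - 2 * Λ) + 4 * L + 2 := by
    rw [hD2]; push_cast
    have h1 := (Nat.ceil_lt_add_one (show 0 ≤ 6 * (n * p ^ 2) by positivity)).le
    have h2 := (Nat.ceil_lt_add_one (show 0 ≤ 4 * L by linarith)).le
    rw [hnp2] at h1 ⊢
    linarith
  -- `u`, `k`
  have hff := ff_eq n p Λ L hp hL hn0
  obtain ⟨u1, u2, u3⟩ := u_bounds Λ L hΛ3 (by linarith)
  set Y : ℝ := Real.exp (L - 5 / 2 * Λ) / Real.sqrt L with hY
  have hY0 : 0 < Y := by positivity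
  set u : ℝ := Real.log (1 + Y) with hu
  set k : ℕ := ⌊1 / (100 * K) * ff n p⌋₊ with hk
  have hff0 : 0 ≤ 1 / (100 * K) * ff n p := by rw [hff]; positivity
  have k_hi : (k : ℝ) ≤ 1 / (100 * K) * (Real.exp Λ * u) := by
    have := Nat.floor_le hff0
    rw [hff] at this
    rw [hk, hff]; exact this
  have hcK : 1 / (100 * K) ≤ 1 / 40 := by
    apply one_div_le_one_div_of_le (by norm_num); linarith
  have hcK0 : 0 < 1 / (100 * K) := by positivity
  have hpk : p * k ≤ 1 / (100 * K) * u := by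
    have h1 := mul_le_mul_of_nonneg_left k_hi hp0.le
    refine h1.trans (le_of_eq ?_)
    have e1 : p * Real.exp Λ = 1 := by
      rw [hp, ← Real.exp_add, neg_add_cancel, Real.exp_zero]
    calc p * (1 / (100 * K) * (Real.exp Λ * u)) = (p * Real.exp Λ) * (1 / (100 * K) * u) := by ring
      _ = _ := by rw [e1, one_mul]
  have k_hi2 : (k : ℝ) ≤ 2 * L * Real.exp (L / 2) := by
    refine k_hi.trans ?_
    have h1 : Real.exp Λ * u ≤ Real.exp (L / 2) * (2 * L) := by
      apply mul_le_mul _ u2 u1.le (Real.exp_pos _).le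
      apply Real.exp_le_exp.mpr; linarith
    have h2 : 1 / (100 * K) * (Real.exp Λ * u) ≤ 1 * (Real.exp Λ * u) := by
      apply mul_le_mul_of_nonneg_right _ (by positivity)
      linarith
    linarith
  -- reduction
  have hred : gnp n p (fun G => ¬ 1 / (100 * K) * ff n p ≤ (cliqueChromaticNumber G : ℝ)) ≤
      gnp n p (fun G => ¬ k < cliqueChromaticNumber G) := by
    apply gnp_mono hp0.le (by linarith)
    intro G h h2
    apply h
    have h3 : ((k + 1 : ℕ) : ℝ) ≤ cliqueChromaticNumber G := by exact_mod_cast h2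
    have h4 := Nat.lt_floor_add_one (1 / (100 * K) * ff n p)
    push_cast at h3
    linarith
  refine hred.trans ?_
  have hm0 : 0 < m := by omega
  refine lower_prob hp0.le (by linarith) hn s b ((s + 7) / 8) D D2 300 j m k Λ hp hΛ200 hs100 hb
    rfl ?_ ?_ (hL ▸ hΛ3) (by linarith) ?_ (by norm_num) hm0 (le_of_eq hm.symm)
    ?_ ?_ ?_ ?_ ?_ ?_ ?_ ?_ ?_ ?_ ?_ ?_ ?_ ?_
  · -- b ≤ n
    have h1 : (b : ℝ) ≤ n := by
      rw [hnL]
      refine le_trans ?_ b4
      have h2 : E ≤ Real.exp (3 / 4 * L) * L := by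
        rw [hE]
        apply mul_le_mul _ hsqL (by positivity) (by positivity)
        apply Real.exp_le_exp.mpr; linarith
      have h3 := mul_le_mul_of_nonneg_left h2 hK0.le
      have h4 : 4 * K * Real.exp (3 / 4 * L) * L = 4 * (K * (Real.exp (3 / 4 * L) * L)) := by ring
      rw [h4]
      linarith only [h3, b_hi, s_hi]
    exact_mod_cast h1
  · -- 2 k ≤ n
    have h1 : 2 * (k : ℝ) ≤ n := by rw [hnL]; linarith
    exact_mod_cast h1
  · -- 50 D2 ≤ s
    have h1 : 50 * (D2 : ℝ) ≤ s := by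
      have h2 : Real.exp (L - 2 * Λ) ≤ Real.exp (L / 3) := Real.exp_le_exp.mpr (by linarith)
      linarith
    exact_mod_cast h1
  · -- c1
    linarith
  · -- c2
    linarith
  · -- c3
    have h1 : 11 * Real.exp (-Λ) ≤ Real.exp (-(7 / 10 * Λ)) * Real.exp (-(Λ / 5)) := by
      have e1 : Real.exp (-(7 / 10 * Λ)) * Real.exp (-(Λ / 5)) =
          Real.exp (-Λ) * Real.exp (1 / 10 * Λ) := by
        rw [← Real.exp_add, ← Real.exp_add]; congr 1; ring
      rw [e1]
      have h2 := Real.add_one_le_exp (1 / 10 * Λ)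
      have h4 : 11 ≤ Real.exp (1 / 10 * Λ) := by linarith only [h2, hΛ200]
      have h5 := mul_le_mul_of_nonneg_left h4 (Real.exp_pos (-Λ)).le
      linarith only [h5]
    calc 11 * (s * p) = s * (11 * Real.exp (-Λ)) := by rw [hp]; ring
      _ ≤ s * (Real.exp (-(7 / 10 * Λ)) * Real.exp (-(Λ / 5))) :=
        mul_le_mul_of_nonneg_left h1 hs0.le
      _ = (Real.exp (-(7 / 10 * Λ)) * s) * Real.exp (-(Λ / 5)) := by ring
      _ ≤ _ := mul_le_mul_of_nonneg_right D_lo (Real.exp_pos _).le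
  · -- c4
    rw [← hL]
    have h1 : (6060 : ℝ) ≤ D := le_trans b3 D_lo1
    have h2 : L / 15 ≤ Λ / 5 := by linarith
    have h3 : L / 15 * 6060 ≤ Λ / 5 * D := mul_le_mul h2 h1 (by norm_num) (by linarith)
    linarith
  · -- c5
    have h1 : (225 : ℝ) ≤ D := by linarith
    exact_mod_cast h1
  · -- c6
    rw [Real.log_le_iff_le_exp (by positivity), div_le_iff₀ D0]
    have h1 : 2 ≤ Real.exp 1 := by
      have := Real.add_one_le_exp (1 : ℝ); linarith
    have e1 : Real.exp (7 / 10 * Λ + 1) * Real.exp (-(7 / 10 * Λ)) = Real.exp 1 := by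
      rw [← Real.exp_add]; congr 1; ring
    calc (b : ℝ) ≤ 2 * s := b_hi
      _ ≤ Real.exp 1 * s := mul_le_mul_of_nonneg_right h1 hs0.le
      _ = Real.exp (7 / 10 * Λ + 1) * (Real.exp (-(7 / 10 * Λ)) * s) := by rw [← e1]; ring
      _ ≤ _ := mul_le_mul_of_nonneg_left D_lo (Real.exp_pos _).le
  · -- c7
    rw [Real.le_log_iff_exp_le hb0]
    linarith
  · -- c8
    rw [← hL]
    refine b5.trans ?_
    have h1 : Real.exp (3 / 2 * Λ) * p ≤ b * p := mul_le_mul_of_nonneg_right (by linarith) hp0.le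
    refine le_trans ?_ h1
    rw [hp, ← Real.exp_add]
    apply Real.exp_le_exp.mpr; linarith
  · -- c9
    linarith
  · -- c10
    rw [← hL]
    have h1 : K * E * (199 / 100) ≤ b := by linarith
    have h2 : (K * E * (199 / 100)) ^ 2 ≤ (b : ℝ) ^ 2 := pow_le_pow_left₀ (by positivity) h1 2
    have e1 : p ^ 3 = Real.exp (-(3 * Λ)) := by
      rw [hp, ← Real.exp_nat_mul]; congr 1; push_cast; ring
    have e2 : Real.exp (-(3 * Λ)) * Real.exp (3 * Λ) = 1 := by
      rw [← Real.exp_add, neg_add_cancel, Real.exp_zero]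
    have h3 : K ^ 2 * L * (199 / 100) ^ 2 ≤ p ^ 3 * (b : ℝ) ^ 2 := by
      calc K ^ 2 * L * (199 / 100) ^ 2 = (Real.exp (-(3 * Λ)) * Real.exp (3 * Λ)) *
            (K ^ 2 * L * (199 / 100) ^ 2) := by rw [e2, one_mul]
        _ = p ^ 3 * (K * E * (199 / 100)) ^ 2 := by
          rw [e1]
          have : (K * E * (199 / 100)) ^ 2 = K ^ 2 * (Real.exp (3 * Λ) * L) * (199 / 100) ^ 2 := by
            rw [← hE2]; ring
          rw [this]; ring
        _ ≤ _ := mul_le_mul_of_nonneg_left h2 (by positivity)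
    have h4 : p ^ 2 * (m * D) ≤ m := by
      have h5 : p * (D * p) ≤ 1 := by
        have h6 : p * (D * p) ≤ 1 / 3 * (1 / 3) :=
          mul_le_mul hp13 (hDp.trans hDp1) (by positivity) (by norm_num)
        linarith only [h6]
      calc p ^ 2 * (m * D) = m * (p * (D * p)) := by ring
        _ ≤ m * 1 := mul_le_mul_of_nonneg_left h5 (by positivity)
        _ = m := mul_one _
    have h5 : 200 * (m + 4) ≤ K ^ 2 := by
      rw [← hK]; nlinarith only [hK1]
    have h6 : 200 * ((m : ℝ) + 4) * L ≤ K ^ 2 * L := mul_le_mul_of_nonneg_right h5 (by linarith)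
    have h7 : (m : ℝ) ≤ m * L := by nlinarith only [hmr, b1]
    have e3 : p ^ 2 * (2 / 100 * (b : ℝ) ^ 2 * p - 4 * m * D) / 4 =
        1 / 200 * (p ^ 3 * (b : ℝ) ^ 2) - p ^ 2 * (m * D) := by ring
    rw [e3]
    have h8 : K ^ 2 * L * (199 / 100) ^ 2 = K ^ 2 * L * (39601 / 10000) := by norm_num
    have h9 : 0 ≤ m * L := by positivity
    have h10 : 200 * ((m : ℝ) + 4) * L = 200 * (m * L) + 800 * L := by ring
    have h11 : (2 * (m : ℝ) + 4) * L = 2 * (m * L) + 4 * L := by ring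
    rw [h11]
    linarith only [h3, h4, h6, h7, h8, h9, h10, hL0]
  · -- c11
    rw [← hL]
    refine (pow_le_pow_left₀ (by positivity) hDp _).trans ?_
    rw [← Real.exp_nat_mul]
    apply Real.exp_le_exp.mpr
    push_cast
    linarith
  · -- c12
    rw [← hL]
    have h1 : 8 * (b : ℝ) ^ 2 * p * D2 * p ^ 3 ≤ Real.exp (-(δ * L / 2)) := by
      refine le_trans ?_ b7
      have h2 : (b : ℝ) ^ 2 ≤ 16 * K ^ 2 * (Real.exp (3 * Λ) * L) := by
        have h3 : (b : ℝ) ≤ 4 * (K * E) := by linarith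
        calc (b : ℝ) ^ 2 ≤ (4 * (K * E)) ^ 2 := pow_le_pow_left₀ hb0.le h3 2
          _ = 16 * K ^ 2 * E ^ 2 := by ring
          _ = _ := by rw [hE2]
      have e1 : p ^ 4 = Real.exp (-(4 * Λ)) := by
        rw [hp, ← Real.exp_nat_mul]; congr 1; push_cast; ring
      have h3 : (D2 : ℝ) * Real.exp (-Λ) ≤ (4 * L + 9) * Real.exp (-(δ * L)) := by
        have h4 := mul_le_mul_of_nonneg_right D2_hi (Real.exp_pos (-Λ)).le
        refine h4.trans ?_
        have e2 : (6 * Real.exp (L - 2 * Λ) + 4 * L + 2) * Real.exp (-Λ) =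
            6 * Real.exp (L - 3 * Λ) + (4 * L + 2) * Real.exp (-Λ) := by
          have : Real.exp (L - 3 * Λ) = Real.exp (L - 2 * Λ) * Real.exp (-Λ) := by
            rw [← Real.exp_add]; congr 1; ring
          rw [this]; ring
        rw [e2]
        have h5 : Real.exp (L - 3 * Λ) ≤ Real.exp (-(δ * L)) := Real.exp_le_exp.mpr (by linarith)
        have h6 : Real.exp (-Λ) ≤ Real.exp (-(δ * L)) := by
          apply Real.exp_le_exp.mpr
          have : δ * L ≤ 1 / 4 * L := mul_le_mul_of_nonneg_right hδ2 (by linarith)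
          linarith
        have h7 : (4 * L + 2) * Real.exp (-Λ) ≤ (4 * L + 2) * Real.exp (-(δ * L)) :=
          mul_le_mul_of_nonneg_left h6 (by linarith)
        have h8 := Real.exp_pos (-(δ * L))
        linarith
      have e3 : Real.exp (3 * Λ) * Real.exp (-(4 * Λ)) = Real.exp (-Λ) := by
        rw [← Real.exp_add]; congr 1; ring
      calc 8 * (b : ℝ) ^ 2 * p * D2 * p ^ 3 = 8 * (b : ℝ) ^ 2 * (D2 * p ^ 4) := by ring
        _ ≤ 8 * (16 * K ^ 2 * (Real.exp (3 * Λ) * L)) * (D2 * p ^ 4) := by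
          apply mul_le_mul_of_nonneg_right _ (by positivity)
          linarith
        _ = 128 * K ^ 2 * L * (D2 * (Real.exp (3 * Λ) * Real.exp (-(4 * Λ)))) := by rw [e1]; ring
        _ = 128 * K ^ 2 * L * (D2 * Real.exp (-Λ)) := by rw [e3]
        _ ≤ 128 * K ^ 2 * L * ((4 * L + 9) * Real.exp (-(δ * L))) :=
          mul_le_mul_of_nonneg_left h3 (by positivity)
        _ = _ := by ring
    refine (pow_le_pow_left₀ (by positivity) h1 j).trans ?_
    rw [← Real.exp_nat_mul]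
    apply Real.exp_le_exp.mpr
    have h2 : 38 * L ≤ j * δ * L := mul_le_mul_of_nonneg_right hj (by linarith)
    linarith
  · -- c13
    rw [← hL, hnL, ← Real.exp_add]
    have h1 : Real.exp (9 / 10 * L) ≤ Real.exp (L + -(2 * p * k)) := by
      apply Real.exp_le_exp.mpr
      have h2 : 1 / (100 * K) * u ≤ 1 / 40 * (2 * L) := by
        apply mul_le_mul hcK u2 u1.le (by norm_num)
      have h3 : 2 * p * k = 2 * (p * k) := by ring
      rw [h3]
      linarith only [h2, hpk]
    have h2 : ((k : ℝ) + 1) * L ≤ (2 * L * Real.exp (L / 2) + 1) * L := by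
      apply mul_le_mul_of_nonneg_right _ (by linarith)
      linarith
    linarith
  · -- c14
    rw [hnL]
    have h1 : 6 * (s : ℝ) * k ≤ 12 / 100 * (E * Real.exp Λ * u) := by
      calc 6 * (s : ℝ) * k ≤ 6 * (2 * (K * E)) * (1 / (100 * K) * (Real.exp Λ * u)) := by
            apply mul_le_mul _ k_hi (by positivity) (by positivity)
            linarith
        _ = _ := by field_simp; ring
    have e1 : E * Real.exp Λ * Y = Real.exp L := by
      have e2 : Real.exp L = Real.exp (3 / 2 * Λ) * Real.exp Λ * Real.exp (L - 5 / 2 * Λ) := by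
        rw [← Real.exp_add, ← Real.exp_add]; congr 1; ring
      rw [hE, hY, e2]
      have : Real.sqrt L ≠ 0 := by positivity
      field_simp
    have h2 : Real.exp (-(u / 2)) ≤ Real.exp (-(2 * p * k)) := by
      apply Real.exp_le_exp.mpr
      have h3 : 1 / (100 * K) * u ≤ 1 / 40 * u := mul_le_mul_of_nonneg_right hcK u1.le
      have h4 : 2 * p * k = 2 * (p * k) := by ring
      rw [h4]
      linarith only [h3, hpk, u1]
    have h3 : u * Real.exp (u / 2) ≤ Y := by
      have := u_ineq u u1.le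
      rw [hu, Real.exp_log (by linarith)] at this
      rw [← hu] at this
      linarith
    have h4 : u ≤ Y * Real.exp (-(u / 2)) := by
      have e3 : Real.exp (u / 2) * Real.exp (-(u / 2)) = 1 := by
        rw [← Real.exp_add, add_neg_cancel, Real.exp_zero]
      have := mul_le_mul_of_nonneg_right h3 (Real.exp_pos (-(u / 2))).le
      rw [mul_assoc, e3, mul_one] at this
      exact this
    have hEΛ : 0 < E * Real.exp Λ := by positivity
    have h5 : E * Real.exp Λ * u ≤ Real.exp L * Real.exp (-(u / 2)) := by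
      rw [← e1]
      calc E * Real.exp Λ * u ≤ E * Real.exp Λ * (Y * Real.exp (-(u / 2))) :=
            mul_le_mul_of_nonneg_left h4 hEΛ.le
        _ = _ := by ring
    have h6 : Real.exp L * Real.exp (-(u / 2)) ≤ Real.exp L * Real.exp (-(2 * p * k)) :=
      mul_le_mul_of_nonneg_left h2 (Real.exp_pos _).le
    have h7 : 0 < Real.exp L * Real.exp (-(2 * p * k)) := by positivity
    have h8 : Real.exp L / 8 * Real.exp (-(2 * p * k)) =
        1 / 8 * (Real.exp L * Real.exp (-(2 * p * k))) := by ring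
    rw [h8]
    linarith

end Pool.Agent.H98.CC
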