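import Pool.Agent.H98.CC.Det

set_option autoImplicit false
set_option linter.unusedSectionVars false

/-!
# Probability estimates, first part
-/

namespace Pool.Agent.H98.CC

open Finset
open scoped Classical

section

variable {n : ℕ} {p : ℝ}

/-- a random set has at least `t` points -/
lemma prs_many {X : Type*} [DecidableEq X] (hp0 : 0 ≤ p) (hp1 : p ≤ 1) (s : Finset X) (t : ℕ) :
    prs s p (fun W => t ≤ W.card) ≤ (s.card.choose t : ℝ) * p ^ t := by
  have h1 : prs s p (fun W => t ≤ W.card) ≤ prs s p (fun W => ∃ T ∈ s.powersetCard t, T ⊆ W) := by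
    apply prs_mono _ hp0 hp1
    intro W hW h
    obtain ⟨T, hT, hTc⟩ := Finset.exists_subset_card_eq h
    exact ⟨T, Finset.mem_powersetCard.mpr ⟨hT.trans hW, hTc⟩, hT⟩
  refine h1.trans ((prs_union _ hp0 hp1 _ _).trans ?_)
  have h2 : ∀ T ∈ s.powersetCard t, prs s p (fun W => T ⊆ W) ≤ p ^ t := by
    intro T hT
    rw [Finset.mem_powersetCard] at hT
    rw [prs_subset _ _ hT.1, hT.2]
  refine (Finset.sum_le_card_nsmul _ _ _ h2).trans (le_of_eq ?_)
  rw [nsmul_eq_mul, Finset.card_powersetCard]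

lemma card_pc (k : ℕ) : (((univ : Finset (Fin n)).powersetCard k).card : ℝ) ≤ (n : ℝ) ^ k := by
  rw [Finset.card_powersetCard, Finset.card_univ, Fintype.card_fin]
  exact_mod_cast Nat.choose_le_pow n k

lemma pow_eq_exp (hn : 0 < n) (k : ℕ) : (n : ℝ) ^ k = Real.exp (k * Real.log n) := by
  rw [← Real.log_pow, Real.exp_log (by positivity)]

lemma inv_eq_exp (hn : 0 < n) : 1 / (n : ℝ) = Real.exp (-Real.log n) := by
  rw [Real.exp_neg, Real.exp_log (by exact_mod_cast hn), one_div]

/-- the probability that all vertices of `T` are joined to both `u` and `v` -/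
lemma common_prob (hp0 : 0 ≤ p) (hp1 : p ≤ 1) (u v : Fin n) (huv : u ≠ v) (t : ℕ) :
    gnp n p (fun G => t ≤ (nb G u (nb G v univ)).card) ≤ (n.choose t : ℝ) * (p ^ 2) ^ t := by
  rw [gnp_eq]
  set Q : Finset (Fin n) := {u, v} with hQ
  have hQc : Q.card = 2 := Finset.card_pair huv
  have h1 : prs (eT n) p (fun W => t ≤ (nb (gr W) u (nb (gr W) v univ)).card) ≤
      prs (eT n) p (fun W => ∃ T ∈ (Qᶜ).powersetCard t, ∀ w ∈ T, nb (gr W) w Q = Q) := by
    apply prs_mono _ hp0 hp1
    intro W _ h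
    obtain ⟨T, hT, hTc⟩ := Finset.exists_subset_card_eq h
    refine ⟨T, Finset.mem_powersetCard.mpr ⟨?_, hTc⟩, ?_⟩
    · intro w hw
      have h2 := hT hw
      rw [mem_nb, mem_nb] at h2
      rw [Finset.mem_compl, hQ, Finset.mem_insert, Finset.mem_singleton]
      rintro (h3 | h3)
      · exact (gr W).loopless.irrefl _ (h3 ▸ h2.2)
      · exact (gr W).loopless.irrefl _ (h3 ▸ h2.1.2)
    · intro w hw
      have h2 := hT hw
      rw [mem_nb, mem_nb] at h2
      apply Finset.Subset.antisymm (Finset.filter_subset _ _)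
      intro x hx
      refine mem_nb.mpr ⟨hx, ?_⟩
      rw [hQ, Finset.mem_insert, Finset.mem_singleton] at hx
      rcases hx with rfl | rfl
      · exact h2.2.symm
      · exact h2.1.2.symm
  refine h1.trans ((prs_union _ hp0 hp1 _ _).trans ?_)
  have h2 : ∀ T ∈ (Qᶜ).powersetCard t,
      prs (eT n) p (fun W => ∀ w ∈ T, nb (gr W) w Q = Q) ≤ (p ^ 2) ^ t := by
    intro T hT
    rw [Finset.mem_powersetCard] at hT
    have hd : Disjoint T Q := by
      rw [Finset.disjoint_left]
      intro x hx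
      exact Finset.mem_compl.mp (hT.1 hx)
    have h3 := rows_exs (p := p) T Q hd (fun _ N => ind (N = Q))
    have h4 : prs Q p (fun N => N = Q) = p ^ 2 := by
      have := prs_subset (p := p) Q Q (Finset.Subset.refl _)
      rw [hQc] at this
      rw [← this]
      apply prs_congr
      intro W hW
      exact ⟨fun h => h.ge, fun h => Finset.Subset.antisymm hW h⟩
    have h5 : prs (eT n) p (fun W => ∀ w ∈ T, nb (gr W) w Q = Q)
        = exs (eT n) p (fun W => ∏ w ∈ T, ind (nb (gr W) w Q = Q)) := by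
      apply exs_congr
      intro W _
      rw [ind_forall]
    rw [h5, h3]
    have h6 : ∀ w ∈ T, exs Q p (fun N => ind (N = Q)) = p ^ 2 := fun w _ => h4
    rw [Finset.prod_congr rfl h6, Finset.prod_const, hT.2]
  refine (Finset.sum_le_card_nsmul _ _ _ h2).trans ?_
  rw [nsmul_eq_mul, Finset.card_powersetCard]
  apply mul_le_mul_of_nonneg_right _ (by positivity)
  have h7 : (Qᶜ).card ≤ n := by
    refine (Finset.card_le_univ _).trans ?_
    rw [Fintype.card_fin]
  exact_mod_cast Nat.choose_le_choose t h7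

/-- the codegrees are small -/
lemma codeg_bound (hp0 : 0 ≤ p) (hp1 : p ≤ 1) (hn : 0 < n) (D2 : ℕ)
    (h1 : 6 * (n * p ^ 2) ≤ (D2 : ℝ) + 1) (h2 : 4 * Real.log n ≤ (D2 : ℝ) + 1) :
    gnp n p (fun G => ¬ ∀ u v : Fin n, u ≠ v → (nb G u (nb G v univ)).card ≤ D2) ≤ 1 / n := by
  have hnr : (0 : ℝ) < n := by exact_mod_cast hn
  have e1 : gnp n p (fun G => ¬ ∀ u v : Fin n, u ≠ v → (nb G u (nb G v univ)).card ≤ D2) ≤
      gnp n p (fun G => ∃ e ∈ (univ : Finset (Fin n)).offDiag,
        D2 + 1 ≤ (nb G e.1 (nb G e.2 univ)).card) := by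
    apply gnp_mono hp0 hp1
    intro G h
    push Not at h
    obtain ⟨u, v, huv, h⟩ := h
    exact ⟨(u, v), by simp [huv], h⟩
  refine e1.trans ((gnp_union_le hp0 hp1 _ _ (Real.exp (-(3 * Real.log n))) (n ^ 2)
    (Real.exp_pos _).le ?_ ?_).trans ?_)
  · rw [Finset.offDiag_card, Finset.card_univ, Fintype.card_fin]
    have : n * n - n ≤ n ^ 2 := by rw [pow_two]; exact Nat.sub_le _ _
    exact_mod_cast this
  · intro e he
    have hne : e.1 ≠ e.2 := (Finset.mem_offDiag.mp he).2.2
    refine (common_prob hp0 hp1 e.1 e.2 hne (D2 + 1)).trans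
      ((choose_mul_pow_le n (D2 + 1) (p ^ 2) (by positivity) (Nat.succ_pos _)).trans ?_)
    have hD : (0 : ℝ) < ((D2 + 1 : ℕ) : ℝ) := by exact_mod_cast Nat.succ_pos _
    have h3 : Real.exp 1 * n * p ^ 2 / ((D2 + 1 : ℕ) : ℝ) ≤ Real.exp (-(3 / 4)) := by
      rw [div_le_iff₀ hD]
      push_cast
      have h4 : Real.exp 1 ≤ 6 * Real.exp (-(3 / 4)) := by
        have h5 : Real.exp 1 = Real.exp (-(3 / 4)) * Real.exp (7 / 4) := by
          rw [← Real.exp_add]; norm_num
        have h6 : Real.exp (7 / 4) ≤ 6 := by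
          have h7 : Real.exp (7 / 4) = (Real.exp 1) ^ (7 / 4 : ℝ) := by
            rw [← Real.exp_mul, one_mul]
          have h8 : Real.exp (7 / 4) ^ 4 ≤ 6 ^ 4 := by
            rw [← Real.exp_nat_mul]
            have h9 : ((4 : ℕ) : ℝ) * (7 / 4) = ((7 : ℕ) : ℝ) * 1 := by norm_num
            rw [h9, Real.exp_nat_mul]
            have h10 := Real.exp_one_lt_d9
            have h11 : Real.exp 1 ^ 7 ≤ 2.7182818286 ^ 7 :=
              pow_le_pow_left₀ (Real.exp_pos 1).le h10.le 7
            refine h11.trans ?_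
            norm_num
          exact le_of_pow_le_pow_left₀ (by norm_num) (by norm_num) h8
        rw [h5, mul_comm]
        exact mul_le_mul_of_nonneg_right h6 (Real.exp_pos _).le
      calc Real.exp 1 * n * p ^ 2 = Real.exp 1 * (n * p ^ 2) := by ring
        _ ≤ 6 * Real.exp (-(3 / 4)) * (n * p ^ 2) :=
          mul_le_mul_of_nonneg_right h4 (by positivity)
        _ = Real.exp (-(3 / 4)) * (6 * (n * p ^ 2)) := by ring
        _ ≤ _ := mul_le_mul_of_nonneg_left h1 (Real.exp_pos _).le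
    refine (pow_le_pow_left₀ (by positivity) h3 _).trans ?_
    rw [← Real.exp_nat_mul]
    apply Real.exp_le_exp.mpr
    push_cast
    linarith
  · have : (n : ℝ) ^ 2 = Real.exp (2 * Real.log n) := by
      have := pow_eq_exp hn 2
      exact_mod_cast this
    rw [this, inv_eq_exp hn, ← Real.exp_add]
    apply Real.exp_le_exp.mpr
    linarith

/-- every edge lies in a triangle -/
lemma tri_bound (hp0 : 0 ≤ p) (hp1 : p ≤ 1) (hn : 0 < n)
    (h1 : 3 * Real.log n ≤ p ^ 2 * (n - 2)) :
    gnp n p (fun G => ¬ ∀ u v : Fin n, u ≠ v → ∃ w, G.Adj w u ∧ G.Adj w v) ≤ 1 / n := by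
  have hnr : (0 : ℝ) < n := by exact_mod_cast hn
  have e1 : gnp n p (fun G => ¬ ∀ u v : Fin n, u ≠ v → ∃ w, G.Adj w u ∧ G.Adj w v) ≤
      gnp n p (fun G => ∃ e ∈ (univ : Finset (Fin n)).offDiag,
        ∀ w, w ∉ ({e.1, e.2} : Finset (Fin n)) → nb G w {e.1, e.2} ≠ {e.1, e.2}) := by
    apply gnp_mono hp0 hp1
    intro G h
    push Not at h
    obtain ⟨u, v, huv, h⟩ := h
    refine ⟨(u, v), by simp [huv], ?_⟩
    intro w _ h3
    have hu : u ∈ nb G w {u, v} := by rw [h3]; simp
    have hv : v ∈ nb G w {u, v} := by rw [h3]; simp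
    exact h w (mem_nb.mp hu).2 (mem_nb.mp hv).2
  refine e1.trans ((gnp_union_le hp0 hp1 _ _ (Real.exp (-(3 * Real.log n))) (n ^ 2)
    (Real.exp_pos _).le ?_ ?_).trans ?_)
  · rw [Finset.offDiag_card, Finset.card_univ, Fintype.card_fin]
    have : n * n - n ≤ n ^ 2 := by rw [pow_two]; exact Nat.sub_le _ _
    exact_mod_cast this
  · intro e he
    have hne : e.1 ≠ e.2 := (Finset.mem_offDiag.mp he).2.2
    set Q : Finset (Fin n) := {e.1, e.2} with hQ
    have hQc : Q.card = 2 := Finset.card_pair hne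
    rw [gnp_eq]
    have h3 := rows_exs (p := p) Qᶜ Q (disjoint_compl_left) (fun _ N => ind (N ≠ Q))
    have h4 : prs Q p (fun N => N ≠ Q) = 1 - p ^ 2 := by
      have := prs_subset (p := p) Q Q (Finset.Subset.refl _)
      rw [hQc] at this
      rw [← this, ← prs_not]
      apply prs_congr
      intro W hW
      exact not_congr ⟨fun h => h.ge, fun h => Finset.Subset.antisymm hW h⟩
    have h5 : prs (eT n) p (fun W => ∀ w, w ∉ Q → nb (gr W) w Q ≠ Q)
        = exs (eT n) p (fun W => ∏ w ∈ Qᶜ, ind (nb (gr W) w Q ≠ Q)) := by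
      apply exs_congr
      intro W _
      rw [← ind_forall]
      apply ind_congr
      constructor
      · intro h w hw; exact h w (Finset.mem_compl.mp hw)
      · intro h w hw; exact h w (Finset.mem_compl.mpr hw)
    rw [h5, h3]
    have h6 : ∀ w ∈ Qᶜ, exs Q p (fun N => ind (N ≠ Q)) = 1 - p ^ 2 := fun w _ => h4
    rw [Finset.prod_congr rfl h6, Finset.prod_const, Finset.card_compl, Fintype.card_fin, hQc]
    have hn2 : 2 ≤ n := by
      have := Finset.card_le_univ Q
      rwa [hQc, Fintype.card_fin] at this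
    have h7 : (1 - p ^ 2) ≤ Real.exp (-(p ^ 2)) := by
      have := Real.add_one_le_exp (-(p ^ 2))
      linarith
    have hp2 : p ^ 2 ≤ 1 := by nlinarith
    refine (pow_le_pow_left₀ (by linarith) h7 _).trans ?_
    rw [← Real.exp_nat_mul]
    apply Real.exp_le_exp.mpr
    push_cast [Nat.cast_sub hn2]
    linarith
  · have : (n : ℝ) ^ 2 = Real.exp (2 * Real.log n) := by
      have := pow_eq_exp hn 2
      exact_mod_cast this
    rw [this, inv_eq_exp hn, ← Real.exp_add]
    apply Real.exp_le_exp.mpr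
    linarith

/-- the potential edges between `W` and `X` -/
noncomputable def eWX (W X : Finset (Fin n)) : Finset (Sym2 (Fin n)) :=
  ((W ×ˢ X).filter (fun e => e.1 ≠ e.2)).image (fun e => s(e.1, e.2))

lemma eWX_sub (W X : Finset (Fin n)) : eWX W X ⊆ eT n := by
  intro e he
  obtain ⟨a, ha, rfl⟩ := Finset.mem_image.mp he
  rw [mem_eT, Sym2.mk_isDiag_iff]
  exact (Finset.mem_filter.mp ha).2

lemma eWX_card (W X : Finset (Fin n)) : (eWX W X).card ≤ W.card * X.card := by
  refine Finset.card_image_le.trans ((Finset.card_filter_le _ _).trans ?_)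
  rw [Finset.card_product]

/-- the number of edges between `W` and `X` is at least half the degree sum -/
lemma eWX_deg (G : SimpleGraph (Fin n)) (W X : Finset (Fin n)) :
    ∑ w ∈ W, (nb G w X).card ≤ 2 * ((eWX W X).filter (fun e => e ∈ G.edgeSet)).card := by
  rw [← Finset.card_sigma]
  refine Finset.card_le_mul_card_image_of_maps_to (f := fun a : (Σ _ : Fin n, Fin n) => s(a.1, a.2))
    ?_ 2 ?_
  · rintro ⟨w, x⟩ h
    rw [Finset.mem_sigma, mem_nb] at h
    rw [Finset.mem_filter]
    refine ⟨?_, ?_⟩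
    · apply Finset.mem_image_of_mem (fun e : Fin n × Fin n => s(e.1, e.2)) (a := (w, x))
      rw [Finset.mem_filter, Finset.mem_product]
      exact ⟨⟨h.1, h.2.1⟩, h.2.2.ne⟩
    · exact h.2.2
  · intro e he
    induction e using Sym2.ind with
    | _ a b =>
      have : (({⟨a, b⟩, ⟨b, a⟩} : Finset (Σ _ : Fin n, Fin n))).card ≤ 2 := Finset.card_le_two
      refine le_trans (Finset.card_le_card ?_) this
      rintro ⟨w, x⟩ h
      rw [Finset.mem_filter] at h
      have h2 := h.2
      simp only [Sym2.eq_iff] at h2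
      rw [Finset.mem_insert, Finset.mem_singleton]
      rcases h2 with ⟨rfl, rfl⟩ | ⟨rfl, rfl⟩
      · exact Or.inl rfl
      · exact Or.inr rfl

end

end Pool.Agent.H98.CC
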