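import Pool.Agent.H98.CC.Prob1

set_option autoImplicit false
set_option linter.unusedSectionVars false

/-!
# Probability estimates, second part
-/

namespace Pool.Agent.H98.CC

open Finset
open scoped Classical

section

variable {n : ℕ} {p : ℝ}

lemma cast_choose_le {a b : ℕ} (h : a ≤ b) (t : ℕ) : (a.choose t : ℝ) ≤ (b.choose t : ℝ) := by
  exact_mod_cast Nat.choose_le_choose t h

/-- few vertices have many neighbours in a small set -/
lemma few_bound (hp0 : 0 ≤ p) (hp1 : p ≤ 1) (hn : 0 < n) (s D : ℕ) (hD : 0 < D) (μ : ℝ)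
    (hμ : 0 ≤ μ) (h1 : 11 * (s * p) ≤ D * Real.exp (-μ)) (h2 : 404 * Real.log n ≤ μ * D) :
    gnp n p (fun G => ¬ ∀ X : Finset (Fin n), X.card = 2 * s →
      (univ.filter (fun w => D ≤ (nb G w X).card)).card ≤ s / 100) ≤ 1 / n := by
  have hL : 0 ≤ Real.log n := Real.log_nonneg (by exact_mod_cast hn)
  set k := s / 100 + 1 with hk
  have hsk : s ≤ 100 * k := by omega
  have hk0 : 0 < k := by omega
  set t := (k * D + 1) / 2 with ht
  have hkD : 0 < k * D := Nat.mul_pos hk0 hD
  have ht2 : k * D ≤ 2 * t := by omega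
  have ht0 : 0 < t := by omega
  have e1 : gnp n p (fun G => ¬ ∀ X : Finset (Fin n), X.card = 2 * s →
      (univ.filter (fun w => D ≤ (nb G w X).card)).card ≤ s / 100) ≤
      gnp n p (fun G => ∃ e ∈ (univ : Finset (Fin n)).powersetCard (2 * s) ×ˢ
        (univ : Finset (Fin n)).powersetCard k,
        t ≤ ((eWX e.2 e.1).filter (fun e => e ∈ G.edgeSet)).card) := by
    apply gnp_mono hp0 hp1
    intro G h
    push Not at h
    obtain ⟨X, hX, h⟩ := h
    obtain ⟨W, hW, hWc⟩ := Finset.exists_subset_card_eq (show k ≤ _ from h)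
    refine ⟨(X, W), ?_, ?_⟩
    · rw [Finset.mem_product, Finset.mem_powersetCard, Finset.mem_powersetCard]
      exact ⟨⟨Finset.subset_univ _, hX⟩, Finset.subset_univ _, hWc⟩
    · show t ≤ ((eWX W X).filter (fun e => e ∈ G.edgeSet)).card
      have h3 := eWX_deg G W X
      have h4 : k * D ≤ ∑ w ∈ W, (nb G w X).card := by
        rw [← hWc, ← smul_eq_mul]
        apply Finset.card_nsmul_le_sum
        intro w hw
        exact (Finset.mem_filter.mp (hW hw)).2
      omega
  refine e1.trans ((gnp_union_le hp0 hp1 _ _ (Real.exp (-(μ * (k * D / 2))))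
    (Real.exp ((2 * s + k) * Real.log n)) (Real.exp_pos _).le ?_ ?_).trans ?_)
  · rw [Finset.card_product]
    push_cast
    refine (mul_le_mul (card_pc _) (card_pc _) (by positivity) (by positivity)).trans ?_
    rw [pow_eq_exp hn, pow_eq_exp hn, ← Real.exp_add]
    apply Real.exp_le_exp.mpr
    push_cast
    linarith
  · rintro ⟨X, W⟩ he
    rw [Finset.mem_product, Finset.mem_powersetCard, Finset.mem_powersetCard] at he
    refine (gnp_many hp0 hp1 (eWX W X) (eWX_sub W X) t).trans ?_
    have hc : (eWX W X).card ≤ k * (2 * s) := by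
      have := eWX_card W X
      rwa [he.1.2, he.2.2] at this
    refine (mul_le_mul_of_nonneg_right (cast_choose_le hc t) (by positivity)).trans
      ((choose_mul_pow_le _ t p hp0 ht0).trans ?_)
    have htr : (0 : ℝ) < t := by exact_mod_cast ht0
    have ht2r : (k : ℝ) * D ≤ 2 * t := by exact_mod_cast ht2
    have hkr : (0 : ℝ) < k := by exact_mod_cast hk0
    have h3 : Real.exp 1 * ((k * (2 * s) : ℕ) : ℝ) * p / t ≤ Real.exp (-μ) := by
      rw [div_le_iff₀ htr]
      push_cast
      have h4 : Real.exp 1 ≤ 11 / 4 := by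
        have := Real.exp_one_lt_d9; linarith
      have hsp : (0 : ℝ) ≤ s * p := by positivity
      calc Real.exp 1 * (k * (2 * s)) * p = Real.exp 1 * (2 * k * (s * p)) := by ring
        _ ≤ 11 / 4 * (2 * k * (s * p)) := mul_le_mul_of_nonneg_right h4 (by positivity)
        _ = k / 2 * (11 * (s * p)) := by ring
        _ ≤ k / 2 * (D * Real.exp (-μ)) := mul_le_mul_of_nonneg_left h1 (by positivity)
        _ = Real.exp (-μ) * (k * D / 2) := by ring
        _ ≤ Real.exp (-μ) * t := mul_le_mul_of_nonneg_left (by linarith) (Real.exp_pos _).le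
    refine (pow_le_pow_left₀ (by positivity) h3 _).trans ?_
    rw [← Real.exp_nat_mul]
    apply Real.exp_le_exp.mpr
    nlinarith
  · rw [inv_eq_exp hn, ← Real.exp_add]
    apply Real.exp_le_exp.mpr
    have hkr : (1 : ℝ) ≤ k := by exact_mod_cast hk0
    have hskr : (s : ℝ) ≤ 100 * k := by exact_mod_cast hsk
    have h3 : (k : ℝ) * (404 * Real.log n) ≤ k * (μ * D) :=
      mul_le_mul_of_nonneg_left h2 (by positivity)
    have h4 : (s : ℝ) * Real.log n ≤ 100 * k * Real.log n := mul_le_mul_of_nonneg_right hskr hL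
    have h5 : Real.log n ≤ k * Real.log n := by
      nlinarith
    nlinarith

lemma nbr_adj (G : SimpleGraph (Fin n)) (B : Finset (Fin n)) (x : Fin n) :
    nbr G.Adj B x = nb G x B := rfl

/-- no set is too dense -/
lemma dense_bound (hp0 : 0 ≤ p) (hp1 : p ≤ 1) (hn : 0 < n) (b : ℕ) (hb : 0 < b)
    (h1 : 2 * Real.log n ≤ b * p) :
    gnp n p (fun G => ¬ ∀ B : Finset (Fin n), B.card = b → cpair G.Adj B ≤ 8 * (b : ℝ) ^ 2 * p) ≤
      1 / n := by
  have hL : 0 ≤ Real.log n := Real.log_nonneg (by exact_mod_cast hn)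
  have hbr : (1 : ℝ) ≤ b := by exact_mod_cast hb
  by_cases hpos : p = 0
  · -- then log n = 0, n = 1
    have hb2 : (b : ℝ) * p = 0 := by rw [hpos, mul_zero]
    rw [hb2] at h1
    have hL0 : Real.log n = 0 := by linarith
    have hn1 : 1 / (n : ℝ) = 1 := by
      rw [inv_eq_exp hn, hL0, neg_zero, Real.exp_zero]
    rw [hn1]
    exact gnp_le_one hp0 hp1 _
  have hp : 0 < p := lt_of_le_of_ne hp0 (Ne.symm hpos)
  set τ : ℝ := 4 * (b : ℝ) ^ 2 * p with hτ
  have hτ0 : 0 < τ := by positivity
  set t := ⌈τ⌉₊ with ht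
  have htτ : τ ≤ t := Nat.le_ceil _
  have ht0 : 0 < t := Nat.ceil_pos.mpr hτ0
  have e1 : gnp n p (fun G => ¬ ∀ B : Finset (Fin n), B.card = b →
      cpair G.Adj B ≤ 8 * (b : ℝ) ^ 2 * p) ≤
      gnp n p (fun G => ∃ B ∈ (univ : Finset (Fin n)).powersetCard b,
        t ≤ ((eWX B B).filter (fun e => e ∈ G.edgeSet)).card) := by
    apply gnp_mono hp0 hp1
    intro G h
    push Not at h
    obtain ⟨B, hB, h⟩ := h
    refine ⟨B, ?_, ?_⟩
    · rw [Finset.mem_powersetCard]
      exact ⟨Finset.subset_univ _, hB⟩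
    · have h3 := eWX_deg G B B
      have h4 : cpair G.Adj B = ((∑ w ∈ B, (nb G w B).card : ℕ) : ℝ) := by
        unfold cpair
        push_cast
        rfl
      rw [h4] at h
      have h5 : ((∑ w ∈ B, (nb G w B).card : ℕ) : ℝ) ≤
          2 * (((eWX B B).filter (fun e => e ∈ G.edgeSet)).card : ℝ) := by exact_mod_cast h3
      apply Nat.ceil_le.mpr
      rw [hτ]
      linarith
  refine e1.trans ((gnp_union_le hp0 hp1 _ _ (Real.exp (-(3 / 8 * τ)))
    (Real.exp (b * Real.log n)) (Real.exp_pos _).le ?_ ?_).trans ?_)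
  · rw [← pow_eq_exp hn]
    exact card_pc b
  · intro B hB
    rw [Finset.mem_powersetCard] at hB
    refine (gnp_many hp0 hp1 (eWX B B) (eWX_sub B B) t).trans ?_
    have hc : (eWX B B).card ≤ b * b := by
      have := eWX_card B B
      rwa [hB.2] at this
    refine (mul_le_mul_of_nonneg_right (cast_choose_le hc t) (by positivity)).trans
      ((choose_mul_pow_le _ t p hp0 ht0).trans ?_)
    have htr : (0 : ℝ) < t := by exact_mod_cast ht0
    have h3 : Real.exp 1 * ((b * b : ℕ) : ℝ) * p / t ≤ Real.exp (-(3 / 8)) := by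
      rw [div_le_iff₀ htr]
      push_cast
      have h4 : Real.exp 1 ≤ 4 * Real.exp (-(3 / 8)) := by
        have h5 : Real.exp 1 = Real.exp (-(3 / 8)) * Real.exp (11 / 8) := by
          rw [← Real.exp_add]; norm_num
        have h6 : Real.exp (11 / 8) ≤ 4 := by
          have h8 : Real.exp (11 / 8) ^ 8 ≤ 4 ^ 8 := by
            rw [← Real.exp_nat_mul]
            have h9 : ((8 : ℕ) : ℝ) * (11 / 8) = ((11 : ℕ) : ℝ) * 1 := by norm_num
            rw [h9, Real.exp_nat_mul]
            have h10 := Real.exp_one_lt_d9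
            have h11 : Real.exp 1 ^ 11 ≤ 2.7182818286 ^ 11 :=
              pow_le_pow_left₀ (Real.exp_pos 1).le h10.le 11
            refine h11.trans ?_
            norm_num
          exact le_of_pow_le_pow_left₀ (by norm_num) (by norm_num) h8
        rw [h5, mul_comm]
        exact mul_le_mul_of_nonneg_right h6 (Real.exp_pos _).le
      calc Real.exp 1 * (b * b) * p = Real.exp 1 * (b ^ 2 * p) := by ring
        _ ≤ 4 * Real.exp (-(3 / 8)) * (b ^ 2 * p) :=
          mul_le_mul_of_nonneg_right h4 (by positivity)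
        _ = Real.exp (-(3 / 8)) * τ := by rw [hτ]; ring
        _ ≤ _ := mul_le_mul_of_nonneg_left htτ (Real.exp_pos _).le
    refine (pow_le_pow_left₀ (by positivity) h3 _).trans ?_
    rw [← Real.exp_nat_mul]
    apply Real.exp_le_exp.mpr
    linarith
  · rw [inv_eq_exp hn, ← Real.exp_add]
    apply Real.exp_le_exp.mpr
    have h3 : (b : ℝ) * (2 * Real.log n) ≤ b * (b * p) :=
      mul_le_mul_of_nonneg_left h1 (by positivity)
    have h5 : Real.log n ≤ b * Real.log n := by nlinarith
    rw [hτ]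
    nlinarith

/-- moment generating function of a truncated function of the size of a random set -/
lemma mgf_le {X : Type*} [DecidableEq X] (hp0 : 0 ≤ p) (hp1 : p ≤ 1) (B : Finset X) (f : ℕ → ℝ)
    (R : Finset ℕ) :
    exs B p (fun N => Real.exp (if N.card ∈ R then f N.card else 0)) ≤
      1 + ∑ d ∈ R, Real.exp (f d) * ((B.card.choose d : ℝ) * p ^ d) := by
  have h1 : exs B p (fun N => Real.exp (if N.card ∈ R then f N.card else 0)) ≤
      exs B p (fun N => 1 + ∑ d ∈ R, Real.exp (f d) * ind (d ≤ N.card)) := by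
    apply exs_mono _ hp0 hp1
    intro N _
    by_cases h : N.card ∈ R
    · rw [if_pos h]
      have h2 : Real.exp (f N.card) * ind (N.card ≤ N.card) ≤
          ∑ d ∈ R, Real.exp (f d) * ind (d ≤ N.card) := by
        apply Finset.single_le_sum (f := fun d => Real.exp (f d) * ind (d ≤ N.card)) _ h
        intro d _
        exact mul_nonneg (Real.exp_pos _).le (ind_nonneg _)
      rw [ind_pos (le_refl _), mul_one] at h2
      linarith
    · rw [if_neg h, Real.exp_zero]
      have : 0 ≤ ∑ d ∈ R, Real.exp (f d) * ind (d ≤ N.card) :=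
        Finset.sum_nonneg (fun d _ => mul_nonneg (Real.exp_pos _).le (ind_nonneg _))
      linarith
  refine h1.trans ?_
  rw [exs_add, exs_const, exs_sum]
  apply add_le_add (le_refl _)
  apply Finset.sum_le_sum
  intro d _
  rw [exs_mul_left]
  apply mul_le_mul_of_nonneg_left _ (Real.exp_pos _).le
  exact prs_many hp0 hp1 B d

end

end Pool.Agent.H98.CC
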