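import Pool.Agent.H98.CC.Prob3

set_option autoImplicit false
set_option linter.unusedSectionVars false

/-!
# Probability estimates, fourth part: many clean edges
-/

namespace Pool.Agent.H98.CC

open Finset
open scoped Classical

section

variable {n : ℕ} {p : ℝ}

lemma mem_eWX {W X : Finset (Fin n)} {a b : Fin n} (h : s(a, b) ∈ eWX W X) :
    (a ∈ W ∧ b ∈ X) ∨ (b ∈ W ∧ a ∈ X) := by
  obtain ⟨e, he, h2⟩ := Finset.mem_image.mp h
  have h3 := Finset.mem_product.mp (Finset.mem_filter.mp he).1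
  simp only [Sym2.eq_iff] at h2
  rcases h2 with ⟨h4, h5⟩ | ⟨h4, h5⟩
  · left; exact ⟨h4 ▸ h3.1, h5 ▸ h3.2⟩
  · right; exact ⟨h4 ▸ h3.1, h5 ▸ h3.2⟩

lemma cpair_eq (R : Fin n → Fin n → Prop) (B : Finset (Fin n)) :
    cpair R B = (((B ×ˢ B).filter (fun e => R e.1 e.2)).card : ℝ) := by
  unfold cpair nbr
  rw [Finset.card_filter, Finset.sum_product]
  push_cast
  apply Finset.sum_congr rfl
  intro x _
  rw [Finset.card_filter]
  push_cast
  rfl

lemma adj_outside (W : Finset (Sym2 (Fin n))) (hW : W ⊆ eT n) (B : Finset (Fin n)) (w x : Fin n)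
    (hw : w ∉ B) : (gr (W ∩ (eT n \ eWX B B))).Adj w x ↔ (gr W).Adj w x := by
  rw [gr_adj, gr_adj, Finset.mem_inter, Finset.mem_sdiff]
  constructor
  · rintro ⟨⟨h1, _⟩, h2⟩; exact ⟨h1, h2⟩
  · rintro ⟨h1, h2⟩
    refine ⟨⟨h1, hW h1, ?_⟩, h2⟩
    intro h
    rcases mem_eWX h with ⟨h3, _⟩ | ⟨_, h3⟩
    · exact hw h3
    · exact hw h3

lemma nb_outside (W : Finset (Sym2 (Fin n))) (hW : W ⊆ eT n) (B : Finset (Fin n)) (w : Fin n)
    (hw : w ∉ B) (Q : Finset (Fin n)) : nb (gr (W ∩ (eT n \ eWX B B))) w Q = nb (gr W) w Q := by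
  unfold nb
  apply Finset.filter_congr
  intro x _
  exact adj_outside W hW B w x hw

lemma unc_outside (W : Finset (Sym2 (Fin n))) (hW : W ⊆ eT n) (B : Finset (Fin n)) (D : ℕ) :
    unc (gr (W ∩ (eT n \ eWX B B))) B D = unc (gr W) B D := by
  unfold unc
  apply Finset.filter_congr
  intro e _
  constructor
  · intro h w hw hD
    have := h w hw (by rwa [nb_outside W hW B w hw])
    rwa [adj_outside W hW B w _ hw, adj_outside W hW B w _ hw] at this
  · intro h w hw hD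
    rw [nb_outside W hW B w hw] at hD
    rw [adj_outside W hW B w _ hw, adj_outside W hW B w _ hw]
    exact h w hw hD

/-- the uncovered edges as unordered pairs -/
noncomputable def uU (G : SimpleGraph (Fin n)) (B : Finset (Fin n)) (D : ℕ) :
    Finset (Sym2 (Fin n)) :=
  ((unc G B D).filter (fun e => e.1 < e.2)).image (fun e => s(e.1, e.2))

lemma unc_swap (G : SimpleGraph (Fin n)) (B : Finset (Fin n)) (D : ℕ) (e : Fin n × Fin n)
    (h : e ∈ unc G B D) : e.swap ∈ unc G B D := by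
  unfold unc at h ⊢
  rw [Finset.mem_filter, Finset.mem_offDiag] at h ⊢
  exact ⟨⟨h.1.2.1, h.1.1, h.1.2.2.symm⟩, fun w hw hD h2 => h.2 w hw hD ⟨h2.2, h2.1⟩⟩

lemma lt_inj (A : Finset (Fin n × Fin n)) (h : ∀ e ∈ A, e.1 < e.2) :
    Set.InjOn (fun e : Fin n × Fin n => s(e.1, e.2)) (A : Set (Fin n × Fin n)) := by
  intro e he e' he' h2
  simp only [Sym2.eq_iff] at h2
  rcases h2 with ⟨h3, h4⟩ | ⟨h3, h4⟩
  · exact Prod.ext h3 h4
  · have h5 := h e he
    have h6 := h e' he'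
    rw [h3, h4] at h5
    exact absurd h5 (not_lt.mpr h6.le)

lemma uU_card (G : SimpleGraph (Fin n)) (B : Finset (Fin n)) (D : ℕ) :
    (unc G B D).card ≤ 2 * (uU G B D).card := by
  unfold uU
  rw [Finset.card_image_of_injOn (lt_inj _ (fun e he => (Finset.mem_filter.mp he).2))]
  set A := (unc G B D).filter (fun e => e.1 < e.2) with hA
  have h1 : unc G B D ⊆ A ∪ A.image Prod.swap := by
    intro e he
    have hne : e.1 ≠ e.2 := by
      unfold unc at he
      exact (Finset.mem_offDiag.mp (Finset.mem_filter.mp he).1).2.2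
    rcases lt_or_gt_of_ne hne with h | h
    · exact Finset.mem_union_left _ (Finset.mem_filter.mpr ⟨he, h⟩)
    · apply Finset.mem_union_right
      rw [Finset.mem_image]
      exact ⟨e.swap, Finset.mem_filter.mpr ⟨unc_swap G B D e he, h⟩, Prod.swap_swap e⟩
  have h2 := (Finset.card_le_card h1).trans (Finset.card_union_le _ _)
  have h3 : (A.image Prod.swap).card ≤ A.card := Finset.card_image_le
  omega

lemma uU_sub (G : SimpleGraph (Fin n)) (B : Finset (Fin n)) (D : ℕ) : uU G B D ⊆ eWX B B := by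
  intro e he
  obtain ⟨a, ha, rfl⟩ := Finset.mem_image.mp he
  have h1 := (Finset.mem_filter.mp ha).1
  unfold unc at h1
  have h2 := Finset.mem_offDiag.mp (Finset.mem_filter.mp h1).1
  unfold eWX
  apply Finset.mem_image_of_mem (fun e : Fin n × Fin n => s(e.1, e.2)) (a := a)
  rw [Finset.mem_filter, Finset.mem_product]
  exact ⟨⟨h2.1, h2.2.1⟩, h2.2.2⟩

lemma clean_many (W : Finset (Sym2 (Fin n))) (B : Finset (Fin n)) (D : ℕ) :
    2 * ((W ∩ uU (gr W) B D).card : ℝ) ≤ cpair (clean (gr W) B D) B := by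
  rw [cpair_eq]
  set A := ((B ×ˢ B).filter (fun e => clean (gr W) B D e.1 e.2)) with hA
  set A1 := A.filter (fun e => e.1 < e.2) with hA1
  have hinj := lt_inj A1 (fun e he => (Finset.mem_filter.mp he).2)
  have h1 : W ∩ uU (gr W) B D ⊆ A1.image (fun e => s(e.1, e.2)) := by
    intro e he
    rw [Finset.mem_inter] at he
    obtain ⟨a, ha, rfl⟩ := Finset.mem_image.mp he.2
    apply Finset.mem_image_of_mem (fun e : Fin n × Fin n => s(e.1, e.2)) (a := a)
    rw [Finset.mem_filter] at ha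
    have h2 := ha.1
    unfold unc at h2
    rw [Finset.mem_filter, Finset.mem_offDiag] at h2
    rw [hA1, Finset.mem_filter, hA, Finset.mem_filter, Finset.mem_product]
    refine ⟨⟨⟨h2.1.1, h2.1.2.1⟩, ?_, h2.2⟩, ha.2⟩
    rw [gr_adj]
    exact ⟨he.1, h2.1.2.2⟩
  have h2 : (W ∩ uU (gr W) B D).card ≤ A1.card := by
    refine (Finset.card_le_card h1).trans ?_
    exact Finset.card_image_le
  have h3 : Disjoint A1 (A1.image Prod.swap) := by
    rw [Finset.disjoint_left]
    intro e he he2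
    obtain ⟨a, ha, rfl⟩ := Finset.mem_image.mp he2
    have h4 := (Finset.mem_filter.mp he).2
    have h5 := (Finset.mem_filter.mp ha).2
    exact absurd h4 (not_lt.mpr h5.le)
  have h4 : A1 ∪ A1.image Prod.swap ⊆ A := by
    apply Finset.union_subset (Finset.filter_subset _ _)
    intro e he
    obtain ⟨a, ha, rfl⟩ := Finset.mem_image.mp he
    have h5 := (Finset.mem_filter.mp ha).1
    rw [hA, Finset.mem_filter, Finset.mem_product] at h5 ⊢
    exact ⟨⟨h5.1.2, h5.1.1⟩, clean_symm _ _ _ _ _ h5.2⟩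
  have h5 := Finset.card_le_card h4
  rw [Finset.card_union_of_disjoint h3, Finset.card_image_of_injective _ Prod.swap_injective] at h5
  have h6 : 2 * (W ∩ uU (gr W) B D).card ≤ A.card := by omega
  exact_mod_cast h6

/-- many uncovered pairs give many clean edges -/
lemma edges_bound (hp0 : 0 ≤ p) (hp1 : p ≤ 1) (hn : 0 < n) (b D : ℕ) (hb : 0 < b)
    (h1 : 200 * Real.log n ≤ b * p) :
    gnp n p (fun G => ¬ ∀ B : Finset (Fin n), B.card = b →
      8 / 100 * (b : ℝ) ^ 2 ≤ ((unc G B D).card : ℝ) →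
      2 / 100 * (b : ℝ) ^ 2 * p ≤ cpair (clean G B D) B) ≤ 1 / n := by
  have hL : 0 ≤ Real.log n := Real.log_nonneg (by exact_mod_cast hn)
  have hbr : (1 : ℝ) ≤ b := by exact_mod_cast hb
  have e1 : gnp n p (fun G => ¬ ∀ B : Finset (Fin n), B.card = b →
      8 / 100 * (b : ℝ) ^ 2 ≤ ((unc G B D).card : ℝ) →
      2 / 100 * (b : ℝ) ^ 2 * p ≤ cpair (clean G B D) B) ≤
      gnp n p (fun G => ∃ B ∈ (univ : Finset (Fin n)).powersetCard b,
        8 / 100 * (b : ℝ) ^ 2 ≤ ((unc G B D).card : ℝ) ∧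
        cpair (clean G B D) B ≤ 2 / 100 * (b : ℝ) ^ 2 * p) := by
    apply gnp_mono hp0 hp1
    intro G h
    push Not at h
    obtain ⟨B, hB, h, h'⟩ := h
    refine ⟨B, ?_, h, h'.le⟩
    rw [Finset.mem_powersetCard]
    exact ⟨Finset.subset_univ _, hB⟩
  refine e1.trans ((gnp_union_le hp0 hp1 _ _ (Real.exp (-(12 / 1000 * ((b : ℝ) ^ 2 * p))))
    (Real.exp (b * Real.log n)) (Real.exp_pos _).le ?_ ?_).trans ?_)
  · rw [← pow_eq_exp hn]
    exact card_pc b
  · intro B _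
    rw [gnp_eq]
    have hT : eWX B B ⊆ eT n := eWX_sub B B
    have e2 : prs (eT n) p (fun W => 8 / 100 * (b : ℝ) ^ 2 ≤ ((unc (gr W) B D).card : ℝ) ∧
        cpair (clean (gr W) B D) B ≤ 2 / 100 * (b : ℝ) ^ 2 * p) ≤
        prs (eT n) p (fun W => (fun Z Y => 4 / 100 * (b : ℝ) ^ 2 ≤ ((uU (gr Z) B D).card : ℝ) ∧
          ((Y ∩ uU (gr Z) B D).card : ℝ) ≤ 1 / 100 * (b : ℝ) ^ 2 * p)
          (W ∩ (eT n \ eWX B B)) (W ∩ eWX B B)) := by
      apply prs_mono _ hp0 hp1
      intro W hW h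
      have h3 : uU (gr (W ∩ (eT n \ eWX B B))) B D = uU (gr W) B D := by
        unfold uU
        rw [unc_outside W hW]
      beta_reduce
      rw [h3]
      have h4 := uU_card (gr W) B D
      have h4r : ((unc (gr W) B D).card : ℝ) ≤ 2 * ((uU (gr W) B D).card : ℝ) := by
        exact_mod_cast h4
      have h5 := clean_many W B D
      have h6 : W ∩ eWX B B ∩ uU (gr W) B D = W ∩ uU (gr W) B D := by
        rw [Finset.inter_assoc, Finset.inter_eq_right.mpr (uU_sub _ _ _)]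
      rw [h6]
      constructor
      · linarith [h.1]
      · linarith [h.2]
    refine e2.trans (expose_inside hp0 hp1 (eWX B B) hT (Real.exp (-(12 / 1000 * ((b : ℝ) ^ 2 * p))))
      (fun Z Y => 4 / 100 * (b : ℝ) ^ 2 ≤ ((uU (gr Z) B D).card : ℝ) ∧
          ((Y ∩ uU (gr Z) B D).card : ℝ) ≤ 1 / 100 * (b : ℝ) ^ 2 * p) ?_)
    intro Z _
    by_cases h : 4 / 100 * (b : ℝ) ^ 2 ≤ ((uU (gr Z) B D).card : ℝ)
    · have e3 : prs (eWX B B) p (fun Y => 4 / 100 * (b : ℝ) ^ 2 ≤ ((uU (gr Z) B D).card : ℝ) ∧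
          ((Y ∩ uU (gr Z) B D).card : ℝ) ≤ 1 / 100 * (b : ℝ) ^ 2 * p) =
          prs (uU (gr Z) B D) p (fun Y => (Y.card : ℝ) ≤ 1 / 100 * (b : ℝ) ^ 2 * p) := by
        rw [← prs_inter (eWX B B) (uU (gr Z) B D) (uU_sub _ _ _)]
        apply prs_congr
        intro W _
        exact ⟨fun h2 => h2.2, fun h2 => ⟨h, h2⟩⟩
      rw [e3]
      have h7 : p * (4 / 100 * (b : ℝ) ^ 2) ≤ p * ((uU (gr Z) B D).card : ℝ) :=
        mul_le_mul_of_nonneg_left h hp0
      refine (lower_tail hp0 hp1 (uU (gr Z) B D) (1 / 100 * (b : ℝ) ^ 2 * p) (by linarith)).trans ?_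
      apply Real.exp_le_exp.mpr
      linarith
    · have e3 : prs (eWX B B) p (fun Y => 4 / 100 * (b : ℝ) ^ 2 ≤ ((uU (gr Z) B D).card : ℝ) ∧
          ((Y ∩ uU (gr Z) B D).card : ℝ) ≤ 1 / 100 * (b : ℝ) ^ 2 * p) = 0 := by
        rw [show (0 : ℝ) = exs (eWX B B) p (fun _ => 0) by rw [exs_const]]
        apply exs_congr
        intro W _
        exact ind_neg (fun h2 => h h2.1)
      rw [e3]
      exact (Real.exp_pos _).le
  · rw [inv_eq_exp hn, ← Real.exp_add]
    apply Real.exp_le_exp.mpr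
    have h3 : (b : ℝ) * (200 * Real.log n) ≤ b * (b * p) :=
      mul_le_mul_of_nonneg_left h1 (by positivity)
    have h5 : Real.log n ≤ b * Real.log n := by nlinarith
    nlinarith

end

end Pool.Agent.H98.CC
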