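import Pool.Agent.H98.CC.Prob4

set_option autoImplicit false
set_option linter.unusedSectionVars false

/-!
# Probability estimates, fifth part: matchings and bad events
-/

namespace Pool.Agent.H98.CC

open Finset
open scoped Classical

section

variable {n : ℕ} {p : ℝ}

lemma off_le (A : Finset (Fin n)) (G : SimpleGraph (Fin n)) {x y : Fin n} (h : (off A G).Adj x y) :
    G.Adj x y := h.1

lemma nb_off_sub (A : Finset (Fin n)) (G : SimpleGraph (Fin n)) (w : Fin n) (Q : Finset (Fin n)) :
    nb (off A G) w Q ⊆ nb G w Q := by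
  intro x hx
  rw [mem_nb] at hx ⊢
  exact ⟨hx.1, off_le A G hx.2⟩

/-- some vertex of each set of `s` vertices has a large matching in its neighbourhood -/
lemma mat_bound (hp0 : 0 ≤ p) (hp1 : p ≤ 1) (hn : 0 < n) (s b D m : ℕ) (hs : 0 < s)
    (hb0 : 0 < b) (hb : b ≤ 2 * s) (hbn : b ≤ n) (h3 : 3 * (D * p) ≤ 1)
    (h4 : (2 * m + 4) * Real.log n ≤ p ^ 2 * (2 / 100 * (b : ℝ) ^ 2 * p - 4 * m * D) / 4) :
    gnp n p (fun G => ¬ ∀ B A : Finset (Fin n), B.card = b → A.card = s → Disjoint A B →
      2 / 100 * (b : ℝ) ^ 2 * p ≤ cpair (clean (off A G) B D) B →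
      (∀ x ∈ B, (nb (off A G) x B).card < D) →
      ∃ a ∈ A, HasMatching (clean (off A G) B D) (nb G a Aᶜ ∩ B) m) ≤ 1 / n := by
  have hL : 0 ≤ Real.log n := Real.log_nonneg (by exact_mod_cast hn)
  have hnr : (0 : ℝ) < n := by exact_mod_cast hn
  have hbr : (1 : ℝ) ≤ b := by exact_mod_cast hb0
  have hsr : (1 : ℝ) ≤ s := by exact_mod_cast hs
  set Bad : Finset (Fin n) → SimpleGraph (Fin n) → Fin n → Finset (Fin n) → Prop :=
    fun B H a N => (2 / 100 * (b : ℝ) ^ 2 * p ≤ cpair (clean H B D) B ∧
      ∀ x ∈ B, (nb H x B).card < D) ∧ ¬ HasMatching (clean H B D) (N ∩ B) m with hBad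
  have e1 : gnp n p (fun G => ¬ ∀ B A : Finset (Fin n), B.card = b → A.card = s → Disjoint A B →
      2 / 100 * (b : ℝ) ^ 2 * p ≤ cpair (clean (off A G) B D) B →
      (∀ x ∈ B, (nb (off A G) x B).card < D) →
      ∃ a ∈ A, HasMatching (clean (off A G) B D) (nb G a Aᶜ ∩ B) m) ≤
      gnp n p (fun G => ∃ e ∈ ((univ : Finset (Fin n)).powersetCard b ×ˢ
        (univ : Finset (Fin n)).powersetCard s).filter (fun e => Disjoint e.2 e.1),
        ∀ a ∈ e.2, Bad e.1 (off e.2 G) a (nb G a e.2ᶜ)) := by
    apply gnp_mono hp0 hp1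
    intro G h
    push Not at h
    obtain ⟨B, A, hB, hA, hd, h5, h6, h7⟩ := h
    refine ⟨(B, A), ?_, ?_⟩
    · rw [Finset.mem_filter, Finset.mem_product, Finset.mem_powersetCard, Finset.mem_powersetCard]
      exact ⟨⟨⟨Finset.subset_univ _, hB⟩, Finset.subset_univ _, hA⟩, hd⟩
    · intro a ha
      exact ⟨⟨h5, h6⟩, h7 a ha⟩
  refine e1.trans ((gnp_union_le hp0 hp1 _ _ (Real.exp (-(4 * (s * Real.log n))))
    (Real.exp ((b + s) * Real.log n)) (Real.exp_pos _).le ?_ ?_).trans ?_)
  · have h5 : (((((univ : Finset (Fin n)).powersetCard b ×ˢ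
        (univ : Finset (Fin n)).powersetCard s).filter (fun e => Disjoint e.2 e.1)).card : ℕ) : ℝ) ≤
        ((((univ : Finset (Fin n)).powersetCard b ×ˢ
        (univ : Finset (Fin n)).powersetCard s).card : ℕ) : ℝ) := by
      exact_mod_cast Finset.card_filter_le _ _
    refine h5.trans ?_
    rw [Finset.card_product]
    push_cast
    refine (mul_le_mul (card_pc _) (card_pc _) (by positivity) (by positivity)).trans ?_
    rw [pow_eq_exp hn, pow_eq_exp hn, ← Real.exp_add]
    apply Real.exp_le_exp.mpr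
    linarith
  · rintro ⟨B, A⟩ he
    rw [Finset.mem_filter, Finset.mem_product, Finset.mem_powersetCard,
      Finset.mem_powersetCard] at he
    obtain ⟨⟨⟨_, hB⟩, ⟨_, hA⟩⟩, hd⟩ := he
    dsimp only at hB hA hd
    have h5 : ∀ H : SimpleGraph (Fin n), ∀ a ∈ A, prs Aᶜ p (Bad B H a) ≤
        Real.exp (-(4 * Real.log n)) := by
      intro H a _
      by_cases hc : (2 / 100 * (b : ℝ) ^ 2 * p ≤ cpair (clean H B D) B ∧
          ∀ x ∈ B, (nb H x B).card < D)
      · have hBA : B ⊆ Aᶜ := by
          intro x hx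
          rw [Finset.mem_compl]
          exact fun hxA => Finset.disjoint_left.mp hd hxA hx
        have e2 : prs Aᶜ p (Bad B H a) = prs B p (fun N => ¬ HasMatching (clean H B D) N m) := by
          rw [← prs_inter Aᶜ B hBA]
          apply prs_congr
          intro W _
          exact ⟨fun h => h.2, fun h => ⟨hc, h⟩⟩
        rw [e2]
        have hBne : B.Nonempty := by rw [← Finset.card_pos, hB]; exact hb0
        refine (matching_bound (clean H B D) (clean_symm H B D) (clean_irrefl H B D) D
          (by positivity) hp0 hp1 h3 B hBne ?_ m).trans ?_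
        · intro y hy
          have h6 : nbr (clean H B D) B y ⊆ nb H y B := by
            intro z hz
            rw [mem_nbr] at hz
            exact mem_nb.mpr ⟨hz.1, hz.2.1⟩
          have h7 := (Finset.card_le_card h6).trans (hc.2 y hy).le
          exact_mod_cast h7
        · rw [hB]
          have h6 : ((b : ℝ) ^ 2) ^ m ≤ Real.exp (2 * m * Real.log n) := by
            have h7 : ((b : ℝ) ^ 2) ^ m ≤ ((n : ℝ) ^ 2) ^ m := by
              apply pow_le_pow_left₀ (by positivity)
              apply pow_le_pow_left₀ (by positivity)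
              exact_mod_cast hbn
            refine h7.trans (le_of_eq ?_)
            rw [← pow_mul, pow_eq_exp hn]
            congr 1
            push_cast
            ring
          refine (mul_le_mul_of_nonneg_right h6 (Real.exp_pos _).le).trans ?_
          rw [← Real.exp_add]
          apply Real.exp_le_exp.mpr
          have h7 : p ^ 2 * (2 / 100 * (b : ℝ) ^ 2 * p - 4 * m * D) / 4 ≤
              p ^ 2 * (cpair (clean H B D) B - 4 * m * D) / 4 := by
            apply div_le_div_of_nonneg_right _ (by norm_num)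
            apply mul_le_mul_of_nonneg_left _ (by positivity)
            linarith [hc.1]
          linarith
      · have e2 : prs Aᶜ p (Bad B H a) = 0 := by
          rw [show (0 : ℝ) = exs Aᶜ p (fun _ => 0) by rw [exs_const]]
          apply exs_congr
          intro W _
          exact ind_neg (fun h2 => hc h2.1)
        rw [e2]
        exact (Real.exp_pos _).le
    refine (rows_env hp0 hp1 A (Bad B) _ (Real.exp_pos _).le h5).trans (le_of_eq ?_)
    rw [hA, ← Real.exp_nat_mul]
    congr 1
    ring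
  · rw [inv_eq_exp hn, ← Real.exp_add]
    apply Real.exp_le_exp.mpr
    have hbsr : (b : ℝ) ≤ 2 * s := by exact_mod_cast hb
    have h5 : (b : ℝ) * Real.log n ≤ 2 * s * Real.log n := mul_le_mul_of_nonneg_right hbsr hL
    have h6 : Real.log n ≤ s * Real.log n := by nlinarith
    nlinarith

/-- the triangles with an edge in `B` -/
noncomputable def Tri (H : SimpleGraph (Fin n)) (B Q : Finset (Fin n)) :
    Finset (Fin n × Fin n × Fin n) :=
  (B ×ˢ B ×ˢ Q).filter (fun e => H.Adj e.1 e.2.1 ∧ H.Adj e.2.2 e.1 ∧ H.Adj e.2.2 e.2.1)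

lemma Tri_card (H : SimpleGraph (Fin n)) (B Q : Finset (Fin n)) (D2 : ℕ)
    (hcod : ∀ u v : Fin n, u ≠ v → (nb H u (nb H v univ)).card ≤ D2) :
    ((Tri H B Q).card : ℝ) ≤ cpair H.Adj B * D2 := by
  rw [cpair_eq]
  have h1 : (Tri H B Q).card ≤ ((B ×ˢ B).filter (fun e => H.Adj e.1 e.2)).card * D2 := by
    rw [mul_comm]
    refine Finset.card_le_mul_card_image_of_maps_to
      (f := fun e : Fin n × Fin n × Fin n => (e.1, e.2.1)) ?_ D2 ?_
    · intro e he
      unfold Tri at he
      rw [Finset.mem_filter, Finset.mem_product, Finset.mem_product] at he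
      rw [Finset.mem_filter, Finset.mem_product]
      exact ⟨⟨he.1.1, he.1.2.1⟩, he.2.1⟩
    · intro e he
      rw [Finset.mem_filter, Finset.mem_product] at he
      refine le_trans ?_ (hcod e.1 e.2 he.2.ne)
      have h2 : ((Tri H B Q).filter (fun a => (a.1, a.2.1) = e)) ⊆
          (nb H e.1 (nb H e.2 univ)).image (fun z => (e.1, e.2, z)) := by
        intro a ha
        rw [Finset.mem_filter] at ha
        obtain ⟨ha1, ha2⟩ := ha
        unfold Tri at ha1
        rw [Finset.mem_filter] at ha1
        rw [Finset.mem_image]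
        have h3 : a.1 = e.1 := congrArg Prod.fst ha2
        have h4 : a.2.1 = e.2 := congrArg Prod.snd ha2
        refine ⟨a.2.2, ?_, ?_⟩
        · rw [mem_nb, mem_nb]
          refine ⟨⟨Finset.mem_univ _, ?_⟩, ?_⟩
          · rw [← h4]; exact ha1.2.2.2.symm
          · rw [← h3]; exact ha1.2.2.1.symm
        · rw [← h3, ← h4]
      exact (Finset.card_le_card h2).trans Finset.card_image_le
  exact_mod_cast h1

/-- disjoint triangles in a random set are unlikely -/
lemma triples_bound (hp0 : 0 ≤ p) (hp1 : p ≤ 1) (H : SimpleGraph (Fin n)) (B Q : Finset (Fin n))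
    (hBQ : B ⊆ Q) (j : ℕ) :
    prs Q p (fun N => Triples H B N j) ≤ (((Tri H B Q).card : ℝ) * p ^ 3) ^ j := by
  have e1 : prs Q p (fun N => Triples H B N j) ≤ prs Q p (fun N =>
      ∃ M ∈ ((Tri H B Q).powersetCard j).filter (fun M => ∀ e ∈ M, ∀ e' ∈ M, e ≠ e' →
        Disjoint ({e.1, e.2.1, e.2.2} : Finset (Fin n)) {e'.1, e'.2.1, e'.2.2}),
        M.biUnion (fun e => ({e.1, e.2.1, e.2.2} : Finset (Fin n))) ⊆ N) := by
    apply prs_mono _ hp0 hp1
    rintro N hN ⟨M, hM, hM1, hM2⟩
    refine ⟨M, ?_, ?_⟩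
    · rw [Finset.mem_filter, Finset.mem_powersetCard]
      refine ⟨⟨?_, hM⟩, hM2⟩
      intro e he
      obtain ⟨h1, h2, _, _, h5, h6⟩ := hM1 e he
      unfold Tri
      rw [Finset.mem_filter, Finset.mem_product, Finset.mem_product]
      exact ⟨⟨h1, h2, hN h5⟩, h6⟩
    · rw [Finset.biUnion_subset]
      intro e he
      obtain ⟨_, _, h3, h4, h5, _⟩ := hM1 e he
      intro x hx
      simp only [Finset.mem_insert, Finset.mem_singleton] at hx
      rcases hx with rfl | rfl | rfl
      · exact h3
      · exact h4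
      · exact h5
  refine e1.trans ((prs_union _ hp0 hp1 _ _).trans ?_)
  have h2 : ∀ M ∈ ((Tri H B Q).powersetCard j).filter (fun M => ∀ e ∈ M, ∀ e' ∈ M, e ≠ e' →
        Disjoint ({e.1, e.2.1, e.2.2} : Finset (Fin n)) {e'.1, e'.2.1, e'.2.2}),
      prs Q p (fun N => M.biUnion (fun e => ({e.1, e.2.1, e.2.2} : Finset (Fin n))) ⊆ N) ≤
        (p ^ 3) ^ j := by
    intro M hM
    rw [Finset.mem_filter, Finset.mem_powersetCard] at hM
    obtain ⟨⟨hM1, hM2⟩, hM3⟩ := hM
    have hsub : M.biUnion (fun e => ({e.1, e.2.1, e.2.2} : Finset (Fin n))) ⊆ Q := by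
      rw [Finset.biUnion_subset]
      intro e he x hx
      have h3 := hM1 he
      unfold Tri at h3
      rw [Finset.mem_filter, Finset.mem_product, Finset.mem_product] at h3
      simp only [Finset.mem_insert, Finset.mem_singleton] at hx
      rcases hx with rfl | rfl | rfl
      · exact hBQ h3.1.1
      · exact hBQ h3.1.2.1
      · exact h3.1.2.2
    rw [prs_subset _ _ hsub, Finset.card_biUnion hM3]
    have h4 : ∑ e ∈ M, ({e.1, e.2.1, e.2.2} : Finset (Fin n)).card = 3 * j := by
      rw [Finset.sum_congr rfl (g := fun _ => 3), Finset.sum_const, hM2, smul_eq_mul, mul_comm]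
      intro e he
      have h3 := hM1 he
      unfold Tri at h3
      rw [Finset.mem_filter] at h3
      exact Finset.card_eq_three.mpr ⟨e.1, e.2.1, e.2.2, h3.2.1.ne, h3.2.2.1.ne.symm,
        h3.2.2.2.ne.symm, rfl⟩
    rw [h4, pow_mul]
  refine (Finset.sum_le_card_nsmul _ _ _ h2).trans ?_
  rw [nsmul_eq_mul, mul_pow]
  apply mul_le_mul_of_nonneg_right _ (by positivity)
  have h3 : (((Tri H B Q).powersetCard j).filter (fun M => ∀ e ∈ M, ∀ e' ∈ M, e ≠ e' →
        Disjoint ({e.1, e.2.1, e.2.2} : Finset (Fin n)) {e'.1, e'.2.1, e'.2.2})).card ≤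
        (Tri H B Q).card ^ j := by
    refine (Finset.card_filter_le _ _).trans ?_
    rw [Finset.card_powersetCard]
    exact Nat.choose_le_pow _ _
  exact_mod_cast h3

/-- some vertex of each set of `s8` vertices has no bad event -/
lemma nobad_bound (hp0 : 0 ≤ p) (hp1 : p ≤ 1) (hn : 2 ≤ n) (b s8 D D2 T j : ℕ)
    (hs : 0 < s8) (hb : b ≤ 16 * s8)
    (h1 : (D * p) ^ (2 * T) ≤ Real.exp (-(20 * Real.log n)))
    (h2 : (8 * (b : ℝ) ^ 2 * p * D2 * p ^ 3) ^ j ≤ Real.exp (-(19 * Real.log n))) :
    gnp n p (fun G => (∀ u v : Fin n, u ≠ v → (nb G u (nb G v univ)).card ≤ D2) ∧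
      (∀ B : Finset (Fin n), B.card = b → cpair G.Adj B ≤ 8 * (b : ℝ) ^ 2 * p) ∧
      ¬ ∀ B S : Finset (Fin n), B.card = b → S.card = s8 → Disjoint S B →
      ∃ a ∈ S, ¬ BadE (off S G) B S T j D (nb G a Sᶜ)) ≤ 1 / n := by
  have hn0 : 0 < n := by omega
  have hL : 0 ≤ Real.log n := Real.log_nonneg (by exact_mod_cast hn0)
  have hnr : (0 : ℝ) < n := by exact_mod_cast hn0
  have hsr : (1 : ℝ) ≤ s8 := by exact_mod_cast hs
  set Env : Finset (Fin n) → SimpleGraph (Fin n) → Prop := fun B H =>
    (∀ u v : Fin n, u ≠ v → (nb H u (nb H v univ)).card ≤ D2) ∧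
      cpair H.Adj B ≤ 8 * (b : ℝ) ^ 2 * p with hEnv
  have e1 : gnp n p (fun G => (∀ u v : Fin n, u ≠ v → (nb G u (nb G v univ)).card ≤ D2) ∧
      (∀ B : Finset (Fin n), B.card = b → cpair G.Adj B ≤ 8 * (b : ℝ) ^ 2 * p) ∧
      ¬ ∀ B S : Finset (Fin n), B.card = b → S.card = s8 → Disjoint S B →
      ∃ a ∈ S, ¬ BadE (off S G) B S T j D (nb G a Sᶜ)) ≤
      gnp n p (fun G => ∃ e ∈ ((univ : Finset (Fin n)).powersetCard b ×ˢ
        (univ : Finset (Fin n)).powersetCard s8).filter (fun e => Disjoint e.2 e.1),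
        ∀ a ∈ e.2, (fun H _ N => Env e.1 H ∧ BadE H e.1 e.2 T j D N) (off e.2 G) a
          (nb G a e.2ᶜ)) := by
    apply gnp_mono hp0 hp1
    rintro G ⟨h3, h4, h⟩
    push Not at h
    obtain ⟨B, S, hB, hS, hd, h5⟩ := h
    refine ⟨(B, S), ?_, ?_⟩
    · rw [Finset.mem_filter, Finset.mem_product, Finset.mem_powersetCard, Finset.mem_powersetCard]
      exact ⟨⟨⟨Finset.subset_univ _, hB⟩, Finset.subset_univ _, hS⟩, hd⟩
    · intro a ha
      refine ⟨⟨?_, ?_⟩, h5 a ha⟩
      · intro u v huv
        refine le_trans (Finset.card_le_card ?_) (h3 u v huv)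
        exact (nb_off_sub S G u _).trans (nb_mono G u (nb_off_sub S G v _))
      · refine le_trans ?_ (h4 B hB)
        unfold cpair
        apply Finset.sum_le_sum
        intro x _
        have : (nbr (off S G).Adj B x).card ≤ (nbr G.Adj B x).card :=
          Finset.card_le_card (nb_off_sub S G x B)
        exact_mod_cast this
  refine e1.trans ((gnp_union_le hp0 hp1 _ _ (Real.exp (-(18 * (s8 * Real.log n))))
    (Real.exp ((b + s8) * Real.log n)) (Real.exp_pos _).le ?_ ?_).trans ?_)
  · have h5 : (((((univ : Finset (Fin n)).powersetCard b ×ˢ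
        (univ : Finset (Fin n)).powersetCard s8).filter (fun e => Disjoint e.2 e.1)).card : ℕ) : ℝ) ≤
        ((((univ : Finset (Fin n)).powersetCard b ×ˢ
        (univ : Finset (Fin n)).powersetCard s8).card : ℕ) : ℝ) := by
      exact_mod_cast Finset.card_filter_le _ _
    refine h5.trans ?_
    rw [Finset.card_product]
    push_cast
    refine (mul_le_mul (card_pc _) (card_pc _) (by positivity) (by positivity)).trans ?_
    rw [pow_eq_exp hn0, pow_eq_exp hn0, ← Real.exp_add]
    apply Real.exp_le_exp.mpr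
    linarith
  · rintro ⟨B, S⟩ he
    rw [Finset.mem_filter, Finset.mem_product, Finset.mem_powersetCard,
      Finset.mem_powersetCard] at he
    obtain ⟨⟨⟨_, hB⟩, ⟨_, hS⟩⟩, hd⟩ := he
    dsimp only at hB hS hd
    have hBS : B ⊆ Sᶜ := by
      intro x hx
      rw [Finset.mem_compl]
      exact fun hxA => Finset.disjoint_left.mp hd hxA hx
    have h5 : ∀ H : SimpleGraph (Fin n), ∀ a ∈ S,
        prs Sᶜ p (fun N => Env B H ∧ BadE H B S T j D N) ≤ Real.exp (-(18 * Real.log n)) := by
      intro H a _
      by_cases hc : Env B H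
      · have e2 : prs Sᶜ p (fun N => Env B H ∧ BadE H B S T j D N) ≤
            prs Sᶜ p (fun N => (∃ w ∈ univ.filter (fun w => w ∉ S ∧ (nb H w B).card < D),
              2 * T ≤ (N ∩ nb H w B).card) ∨ Triples H B N j) := by
          apply prs_mono _ hp0 hp1
          rintro N _ ⟨_, h6 | h6⟩
          · left
            obtain ⟨w, hw1, hw2, hw3⟩ := h6
            refine ⟨w, Finset.mem_filter.mpr ⟨Finset.mem_univ _, hw1, hw2⟩, ?_⟩
            rwa [Finset.inter_comm]
          · right; exact h6
        refine e2.trans ((prs_or_le _ hp0 hp1 _ _).trans ?_)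
        have h6 : prs Sᶜ p (fun N => ∃ w ∈ univ.filter (fun w => w ∉ S ∧ (nb H w B).card < D),
              2 * T ≤ (N ∩ nb H w B).card) ≤ Real.exp (-(19 * Real.log n)) := by
          refine (prs_union _ hp0 hp1 _ _).trans ?_
          have h7 : ∀ w ∈ univ.filter (fun w => w ∉ S ∧ (nb H w B).card < D),
              prs Sᶜ p (fun N => 2 * T ≤ (N ∩ nb H w B).card) ≤
                Real.exp (-(20 * Real.log n)) := by
            intro w hw
            rw [Finset.mem_filter] at hw
            have hsub : nb H w B ⊆ Sᶜ := (Finset.filter_subset _ _).trans hBS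
            rw [prs_inter Sᶜ (nb H w B) hsub (fun N => 2 * T ≤ N.card)]
            refine (prs_many hp0 hp1 _ _).trans ?_
            refine le_trans ?_ h1
            rw [mul_pow]
            apply mul_le_mul_of_nonneg_right _ (by positivity)
            have h8 : ((nb H w B).card.choose (2 * T) : ℝ) ≤ (D.choose (2 * T) : ℝ) :=
              cast_choose_le hw.2.2.le _
            refine h8.trans ?_
            exact_mod_cast Nat.choose_le_pow _ _
          refine (Finset.sum_le_card_nsmul _ _ _ h7).trans ?_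
          rw [nsmul_eq_mul]
          have h8 : ((univ.filter (fun w : Fin n => w ∉ S ∧ (nb H w B).card < D)).card : ℝ) ≤
              Real.exp (Real.log n) := by
            rw [Real.exp_log hnr]
            have : (univ.filter (fun w : Fin n => w ∉ S ∧ (nb H w B).card < D)).card ≤ n := by
              refine (Finset.card_le_univ _).trans ?_
              rw [Fintype.card_fin]
            exact_mod_cast this
          refine (mul_le_mul_of_nonneg_right h8 (Real.exp_pos _).le).trans (le_of_eq ?_)
          rw [← Real.exp_add]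
          congr 1
          ring
        have h7 : prs Sᶜ p (fun N => Triples H B N j) ≤ Real.exp (-(19 * Real.log n)) := by
          refine (triples_bound hp0 hp1 H B Sᶜ hBS j).trans (le_trans ?_ h2)
          apply pow_le_pow_left₀ (by positivity)
          apply mul_le_mul_of_nonneg_right _ (by positivity)
          refine (Tri_card H B Sᶜ D2 hc.1).trans ?_
          exact mul_le_mul_of_nonneg_right hc.2 (by positivity)
        have h8 : 2 * Real.exp (-(19 * Real.log n)) ≤ Real.exp (-(18 * Real.log n)) := by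
          have h9 : Real.exp (-(18 * Real.log n)) =
              Real.exp (Real.log n) * Real.exp (-(19 * Real.log n)) := by
            rw [← Real.exp_add]; congr 1; ring
          rw [h9, Real.exp_log hnr]
          apply mul_le_mul_of_nonneg_right _ (Real.exp_pos _).le
          exact_mod_cast hn
        linarith
      · have e2 : prs Sᶜ p (fun N => Env B H ∧ BadE H B S T j D N) = 0 := by
          rw [show (0 : ℝ) = exs Sᶜ p (fun _ => 0) by rw [exs_const]]
          apply exs_congr
          intro W _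
          exact ind_neg (fun h2 => hc h2.1)
        rw [e2]
        exact (Real.exp_pos _).le
    refine (rows_env hp0 hp1 S (fun H _ N => Env B H ∧ BadE H B S T j D N) _ (Real.exp_pos _).le
      h5).trans (le_of_eq ?_)
    rw [hS, ← Real.exp_nat_mul]
    congr 1
    ring
  · rw [inv_eq_exp hn0, ← Real.exp_add]
    apply Real.exp_le_exp.mpr
    have hbsr : (b : ℝ) ≤ 16 * s8 := by exact_mod_cast hb
    have h5 : (b : ℝ) * Real.log n ≤ 16 * s8 * Real.log n := mul_le_mul_of_nonneg_right hbsr hL
    have h6 : Real.log n ≤ s8 * Real.log n := by nlinarith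
    nlinarith

end

end Pool.Agent.H98.CC
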