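import Pool.Agent.H98.CC.Prob5

set_option autoImplicit false
set_option linter.unusedSectionVars false

/-!
# Probability estimates, sixth part: vertices without a neighbour in a given set
-/

namespace Pool.Agent.H98.CC

open Finset
open scoped Classical

section

variable {n : ℕ} {p : ℝ}

/-- the vertices outside `Q` without a neighbour in `Q` -/
noncomputable def unn (G : SimpleGraph (Fin n)) (Q : Finset (Fin n)) : Finset (Fin n) :=
  Qᶜ.filter (fun w => nb G w Q = ∅)

lemma mem_unn {G : SimpleGraph (Fin n)} {Q : Finset (Fin n)} {w : Fin n} :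
    w ∈ unn G Q ↔ w ∉ Q ∧ ∀ x ∈ Q, ¬ G.Adj w x := by
  unfold unn
  rw [Finset.mem_filter, Finset.mem_compl]
  apply and_congr_right
  intro _
  rw [Finset.eq_empty_iff_forall_notMem]
  constructor
  · intro h x hx hadj; exact h x (mem_nb.mpr ⟨hx, hadj⟩)
  · intro h x hx; exact h x (mem_nb.mp hx).1 (mem_nb.mp hx).2

lemma unn_mgf (hp0 : 0 ≤ p) (hp1 : p ≤ 1) (Q : Finset (Fin n)) (a : ℝ) :
    exs (eT n) p (fun W => a ^ (unn (gr W) Q).card) =
      (1 + (a - 1) * (1 - p) ^ Q.card) ^ (Qᶜ).card := by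
  have h1 : exs (eT n) p (fun W => a ^ (unn (gr W) Q).card) =
      exs (eT n) p (fun W => ∏ w ∈ Qᶜ, (fun N => 1 + (a - 1) * ind (N = ∅)) (nb (gr W) w Q)) := by
    apply exs_congr
    intro W _
    unfold unn
    rw [← Finset.prod_const, Finset.prod_filter]
    apply Finset.prod_congr rfl
    intro w _
    by_cases h : nb (gr W) w Q = ∅
    · rw [if_pos h]
      dsimp only
      rw [ind_pos h]; ring
    · rw [if_neg h]
      dsimp only
      rw [ind_neg h]; ring
  rw [h1, rows_exs (p := p) Qᶜ Q disjoint_compl_left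
    (fun _ N => 1 + (a - 1) * ind (N = ∅)), Finset.prod_const]
  congr 1
  rw [exs_add, exs_const, exs_mul_left]
  congr 2
  have h2 := prs_disjoint (p := p) Q Q (Finset.Subset.refl _)
  rw [← h2]
  apply exs_congr
  intro W hW
  apply ind_congr
  constructor
  · rintro rfl; exact Finset.disjoint_empty_right _
  · intro h
    rw [← Finset.inter_eq_right.mpr hW]
    exact Finset.disjoint_iff_inter_eq_empty.mp h

lemma one_sub_ge (hp0 : 0 ≤ p) (hp : p ≤ 1 / 2) : Real.exp (-(2 * p)) ≤ 1 - p := by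
  have h1 := Real.add_one_le_exp (2 * p)
  rw [Real.exp_neg]
  rw [inv_le_comm₀ (Real.exp_pos _) (by linarith)]
  refine le_trans ?_ h1
  rw [inv_le_iff_one_le_mul₀ (by linarith)]
  nlinarith

/-- every set of `k` vertices leaves many vertices without a neighbour in it -/
lemma unn_lower (hp0 : 0 ≤ p) (hp : p ≤ 1 / 2) (hn : 0 < n) (k : ℕ) (hk : 2 * k ≤ n)
    (h1 : (k + 1) * Real.log n ≤ 3 / 20 * (n * Real.exp (-(2 * p * k)))) :
    gnp n p (fun G => ¬ ∀ Q : Finset (Fin n), Q.card = k →
      n / 8 * Real.exp (-(2 * p * k)) ≤ ((unn G Q).card : ℝ)) ≤ 1 / n := by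
  have hp1 : p ≤ 1 := by linarith
  have hL : 0 ≤ Real.log n := Real.log_nonneg (by exact_mod_cast hn)
  have hnr : (0 : ℝ) < n := by exact_mod_cast hn
  set t : ℝ := n / 8 * Real.exp (-(2 * p * k)) with ht
  have ht0 : 0 ≤ t := by positivity
  have e1 : gnp n p (fun G => ¬ ∀ Q : Finset (Fin n), Q.card = k → t ≤ ((unn G Q).card : ℝ)) ≤
      gnp n p (fun G => ∃ Q ∈ (univ : Finset (Fin n)).powersetCard k,
        ((unn G Q).card : ℝ) ≤ t) := by
    apply gnp_mono hp0 hp1
    intro G h
    push Not at h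
    obtain ⟨Q, hQ, h⟩ := h
    refine ⟨Q, ?_, h.le⟩
    rw [Finset.mem_powersetCard]
    exact ⟨Finset.subset_univ _, hQ⟩
  refine e1.trans ((gnp_union_le hp0 hp1 _ _ (Real.exp (-(6 / 5 * t)))
    (Real.exp (k * Real.log n)) (Real.exp_pos _).le ?_ ?_).trans ?_)
  · rw [← pow_eq_exp hn]
    exact card_pc k
  · intro Q hQ
    rw [Finset.mem_powersetCard] at hQ
    rw [gnp_eq]
    have hm := markov (eT n) hp0 hp1 (fun W => (1 / 2 : ℝ) ^ (unn (gr W) Q).card)
      (fun W => ((unn (gr W) Q).card : ℝ) ≤ t)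
      (Real.exp (-(Real.log 2 * t))) (Real.exp_pos _) (fun W _ => by positivity)
      (fun W _ h => by
        have : ((1 : ℝ) / 2) ^ (unn (gr W) Q).card =
            Real.exp (-(Real.log 2 * (unn (gr W) Q).card)) := by
          rw [one_div, inv_pow, ← Real.exp_log (show (0:ℝ) < (2 ^ (unn (gr W) Q).card) by positivity),
            ← Real.exp_neg, Real.log_pow]
          congr 1; ring
        rw [this]
        apply Real.exp_le_exp.mpr
        have := Real.log_pos (show (1:ℝ) < 2 by norm_num)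
        nlinarith)
    refine hm.trans ?_
    rw [unn_mgf hp0 hp1, div_le_iff₀ (Real.exp_pos _), ← Real.exp_add, hQ.2]
    have h2 : Real.exp (-(2 * p * k)) ≤ (1 - p) ^ k := by
      have h3 := pow_le_pow_left₀ (Real.exp_pos _).le (one_sub_ge hp0 hp) k
      rw [← Real.exp_nat_mul] at h3
      refine le_trans (le_of_eq ?_) h3
      congr 1; ring
    have h4 : 1 + (1 / 2 - 1) * (1 - p) ^ k ≤ Real.exp (-(Real.exp (-(2 * p * k)) / 2)) := by
      have := Real.add_one_le_exp (-(Real.exp (-(2 * p * k)) / 2))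
      linarith
    have h5 : 0 ≤ 1 + (1 / 2 - 1) * (1 - p) ^ k := by
      have : (1 - p) ^ k ≤ 1 := pow_le_one₀ (by linarith) (by linarith)
      linarith
    refine (pow_le_pow_left₀ h5 h4 _).trans ?_
    rw [← Real.exp_nat_mul]
    apply Real.exp_le_exp.mpr
    rw [Finset.card_compl, Fintype.card_fin, hQ.2]
    have hkn : k ≤ n := by omega
    push_cast [Nat.cast_sub hkn]
    have h6 : (n : ℝ) / 2 ≤ n - k := by
      have : (2 * k : ℝ) ≤ n := by exact_mod_cast hk
      linarith
    have h7 : (n : ℝ) / 2 * (Real.exp (-(2 * p * k)) / 2) ≤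
        (n - k) * (Real.exp (-(2 * p * k)) / 2) :=
      mul_le_mul_of_nonneg_right h6 (by positivity)
    have h8 : Real.log 2 ≤ 7 / 10 := by
      have := Real.log_two_lt_d9; linarith
    have h9 : Real.log 2 * t ≤ 7 / 10 * t := mul_le_mul_of_nonneg_right h8 ht0
    have h10 : (n : ℝ) / 2 * (Real.exp (-(2 * p * k)) / 2) = 2 * t := by rw [ht]; ring
    linarith
  · rw [inv_eq_exp hn, ← Real.exp_add]
    apply Real.exp_le_exp.mpr
    rw [ht]
    linarith

/-- a fixed set of `k` vertices does not leave too many vertices without a neighbour in it -/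
lemma unn_upper (hp0 : 0 ≤ p) (hp1 : p ≤ 1) (Q : Finset (Fin n)) (M : ℝ)
    (h1 : n * Real.exp (-(p * Q.card)) ≤ M) :
    gnp n p (fun G => ¬ ((unn G Q).card : ℝ) ≤ 3 * M) ≤ Real.exp (-M) := by
  have hM : 0 ≤ M := le_trans (by positivity) h1
  have hm := markov (eT n) hp0 hp1 (fun W => (2 : ℝ) ^ (unn (gr W) Q).card)
      (fun W => ¬ ((unn (gr W) Q).card : ℝ) ≤ 3 * M)
      (Real.exp (2 * M)) (Real.exp_pos _) (fun W _ => by positivity)
      (fun W _ h => by
        push Not at h
        have : (2 : ℝ) ^ (unn (gr W) Q).card =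
            Real.exp (Real.log 2 * (unn (gr W) Q).card) := by
          rw [← Real.exp_log (show (0:ℝ) < (2 ^ (unn (gr W) Q).card) by positivity),
            Real.log_pow]
          congr 1; ring
        rw [this]
        apply Real.exp_le_exp.mpr
        have h2 := Real.log_two_gt_d9
        have h3 : (0.6931471803 : ℝ) * ((unn (gr W) Q).card : ℝ) ≤
            Real.log 2 * ((unn (gr W) Q).card : ℝ) := mul_le_mul_of_nonneg_right h2.le (by positivity)
        linarith)
  rw [gnp_eq]
  refine hm.trans ?_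
  rw [unn_mgf hp0 hp1, div_le_iff₀ (Real.exp_pos _), ← Real.exp_add]
  have h2 : (1 - p) ^ Q.card ≤ Real.exp (-(p * Q.card)) := by
    have h3 : 1 - p ≤ Real.exp (-p) := by
      have := Real.add_one_le_exp (-p)
      linarith
    have h4 := pow_le_pow_left₀ (by linarith) h3 Q.card
    rw [← Real.exp_nat_mul] at h4
    refine h4.trans (le_of_eq ?_)
    congr 1; ring
  have h3 : 1 + (2 - 1) * (1 - p) ^ Q.card ≤ Real.exp (Real.exp (-(p * Q.card))) := by
    have := Real.add_one_le_exp (Real.exp (-(p * Q.card)))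
    linarith
  have h4 : 0 ≤ 1 + (2 - 1) * (1 - p) ^ Q.card := by
    have : 0 ≤ (1 - p) ^ Q.card := pow_nonneg (by linarith) _
    linarith
  refine (pow_le_pow_left₀ h4 h3 _).trans ?_
  rw [← Real.exp_nat_mul]
  apply Real.exp_le_exp.mpr
  have h5 : ((Qᶜ).card : ℝ) ≤ n := by
    have : (Qᶜ).card ≤ n := by
      refine (Finset.card_le_univ _).trans ?_
      rw [Fintype.card_fin]
    exact_mod_cast this
  have h6 : ((Qᶜ).card : ℝ) * Real.exp (-(p * Q.card)) ≤ n * Real.exp (-(p * Q.card)) :=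
    mul_le_mul_of_nonneg_right h5 (Real.exp_pos _).le
  linarith

end

end Pool.Agent.H98.CC
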