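import Pool.Agent.H98.CC.Prob6

set_option autoImplicit false
set_option linter.unusedSectionVars false

/-!
# The upper bound: partition into triangle-free sets
-/

namespace Pool.Agent.H98.CC

open Finset
open scoped Classical

section

variable {n : ℕ} {p : ℝ}

/-- `C` contains no triangle -/
def TF (G : SimpleGraph (Fin n)) (C : Finset (Fin n)) : Prop :=
  ∀ x ∈ C, ∀ y ∈ C, ∀ z ∈ C, G.Adj x y → G.Adj x z → G.Adj y z → False

/-- `R` can be partitioned into `k` triangle-free sets of size at most `sm` -/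
def Par (G : SimpleGraph (Fin n)) (R : Finset (Fin n)) (k sm : ℕ) : Prop :=
  ∃ f : Fin n → Fin k, ∀ i, (R.filter (fun x => f x = i)).card ≤ sm ∧
    TF G (R.filter (fun x => f x = i))

/-- all small subsets of `R` are sparse -/
def Sp (G : SimpleGraph (Fin n)) (R : Finset (Fin n)) (sm : ℕ) (c : ℝ) : Prop :=
  ∀ C, C ⊆ R → C.card ≤ sm → cpair G.Adj C ≤ c

/-- a random subset is independent with at least this probability -/
lemma indep_lower (hp0 : 0 ≤ p) (hp : p ≤ 1 / 2) (H : SimpleGraph (Fin n)) (C : Finset (Fin n))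
    (c : ℝ) (hc : cpair H.Adj C ≤ c) :
    Real.exp (-(p ^ 2 * c)) ≤ prs C p (Indep H.Adj) := by
  have hp1 : p ≤ 1 := by linarith
  set E := (C ×ˢ C).filter (fun e => H.Adj e.1 e.2 ∧ e.1 < e.2) with hE
  have h1 := harris C hp0 hp1 (fun _ => True) (fun _ _ _ _ _ => trivial) E
    (fun e => ({e.1, e.2} : Finset (Fin n))) (fun e he => by
      rw [hE, Finset.mem_filter, Finset.mem_product] at he
      intro x hx
      rw [Finset.mem_insert, Finset.mem_singleton] at hx
      rcases hx with rfl | rfl
      · exact he.1.1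
      · exact he.1.2)
  rw [prs_true, mul_one] at h1
  have h2 : prs C p (fun W => True ∧ ∀ i ∈ E, ¬ ({i.1, i.2} : Finset (Fin n)) ⊆ W) ≤
      prs C p (Indep H.Adj) := by
    apply prs_mono _ hp0 hp1
    rintro W hW ⟨_, h⟩ x hx y hy hadj
    rcases lt_or_gt_of_ne hadj.ne with h3 | h3
    · apply h (x, y)
      · rw [hE, Finset.mem_filter, Finset.mem_product]
        exact ⟨⟨hW hx, hW hy⟩, hadj, h3⟩
      · intro z hz
        rw [Finset.mem_insert, Finset.mem_singleton] at hz
        rcases hz with rfl | rfl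
        · exact hx
        · exact hy
    · apply h (y, x)
      · rw [hE, Finset.mem_filter, Finset.mem_product]
        exact ⟨⟨hW hy, hW hx⟩, hadj.symm, h3⟩
      · intro z hz
        rw [Finset.mem_insert, Finset.mem_singleton] at hz
        rcases hz with rfl | rfl
        · exact hy
        · exact hx
  refine le_trans ?_ (h1.trans h2)
  have h3 : ∏ i ∈ E, (1 - p ^ (({i.1, i.2} : Finset (Fin n)).card)) = (1 - p ^ 2) ^ E.card := by
    rw [← Finset.prod_const]
    apply Finset.prod_congr rfl
    intro e he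
    rw [hE, Finset.mem_filter] at he
    rw [Finset.card_pair he.2.1.ne]
  rw [h3]
  have h4 : 2 * (E.card : ℝ) ≤ c := by
    refine le_trans ?_ hc
    rw [cpair_eq]
    have h5 : E ∪ E.image Prod.swap ⊆ (C ×ˢ C).filter (fun e => H.Adj e.1 e.2) := by
      apply Finset.union_subset
      · intro e he
        rw [hE, Finset.mem_filter] at he
        exact Finset.mem_filter.mpr ⟨he.1, he.2.1⟩
      · intro e he
        obtain ⟨a, ha, rfl⟩ := Finset.mem_image.mp he
        rw [hE, Finset.mem_filter, Finset.mem_product] at ha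
        rw [Finset.mem_filter, Finset.mem_product]
        exact ⟨⟨ha.1.2, ha.1.1⟩, ha.2.1.symm⟩
    have h6 : Disjoint E (E.image Prod.swap) := by
      rw [Finset.disjoint_left]
      intro e he he2
      obtain ⟨a, ha, rfl⟩ := Finset.mem_image.mp he2
      have h4 := (Finset.mem_filter.mp he).2.2
      have h5 := (Finset.mem_filter.mp ha).2.2
      exact absurd h4 (not_lt.mpr h5.le)
    have h7 := Finset.card_le_card h5
    rw [Finset.card_union_of_disjoint h6, Finset.card_image_of_injective _ Prod.swap_injective] at h7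
    have h8 : 2 * E.card ≤ ((C ×ˢ C).filter (fun e => H.Adj e.1 e.2)).card := by omega
    exact_mod_cast h8
  have hp2 : p ^ 2 ≤ 1 / 2 := by nlinarith
  have h5 := one_sub_ge (sq_nonneg p) hp2
  have h6 := pow_le_pow_left₀ (Real.exp_pos _).le h5 E.card
  refine le_trans ?_ h6
  rw [← Real.exp_nat_mul]
  apply Real.exp_le_exp.mpr
  have h7 : p ^ 2 * (2 * (E.card : ℝ)) ≤ p ^ 2 * c := mul_le_mul_of_nonneg_left h4 (sq_nonneg p)
  linarith

lemma par_off (G : SimpleGraph (Fin n)) (A R : Finset (Fin n)) (hd : Disjoint R A) (k sm : ℕ) :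
    Par (off A G) R k sm ↔ Par G R k sm := by
  have h0 : ∀ x ∈ R, x ∉ A := fun x hx => Finset.disjoint_left.mp hd hx
  have h1 : ∀ (f : Fin n → Fin k) i, TF (off A G) (R.filter (fun x => f x = i)) ↔
      TF G (R.filter (fun x => f x = i)) := by
    intro f i
    constructor
    · intro h x hx y hy z hz h1 h2 h3
      have hx' := h0 x (Finset.mem_filter.mp hx).1
      have hy' := h0 y (Finset.mem_filter.mp hy).1
      have hz' := h0 z (Finset.mem_filter.mp hz).1
      exact h x hx y hy z hz ⟨h1, hx', hy'⟩ ⟨h2, hx', hz'⟩ ⟨h3, hy', hz'⟩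
    · intro h x hx y hy z hz h1 h2 h3
      exact h x hx y hy z hz h1.1 h2.1 h3.1
  unfold Par
  constructor
  · rintro ⟨f, hf⟩; exact ⟨f, fun i => ⟨(hf i).1, (h1 f i).1 (hf i).2⟩⟩
  · rintro ⟨f, hf⟩; exact ⟨f, fun i => ⟨(hf i).1, (h1 f i).2 (hf i).2⟩⟩

lemma cpair_off (G : SimpleGraph (Fin n)) (A C : Finset (Fin n)) (hd : Disjoint C A) :
    cpair (off A G).Adj C = cpair G.Adj C := by
  have h0 : ∀ x ∈ C, x ∉ A := fun x hx => Finset.disjoint_left.mp hd hx
  rw [cpair_eq, cpair_eq]
  congr 2
  apply Finset.filter_congr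
  intro e he
  rw [Finset.mem_product] at he
  exact ⟨fun h => h.1, fun h => ⟨h, h0 _ he.1, h0 _ he.2⟩⟩

lemma sp_off (G : SimpleGraph (Fin n)) (A R : Finset (Fin n)) (hd : Disjoint R A) (sm : ℕ) (c : ℝ) :
    Sp (off A G) R sm c ↔ Sp G R sm c := by
  unfold Sp
  constructor
  · intro h C hC hc
    rw [← cpair_off G A C (hd.mono_left hC)]; exact h C hC hc
  · intro h C hC hc
    rw [cpair_off G A C (hd.mono_left hC)]; exact h C hC hc

/-- one step of the greedy partition -/
lemma greedy_step (hp0 : 0 ≤ p) (hp : p ≤ 1 / 2) (R : Finset (Fin n)) (v : Fin n) (hv : v ∉ R)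
    (k sm : ℕ) (hR : 2 * R.card ≤ k * sm) (hsm : 0 < sm) (c : ℝ) :
    gnp n p (fun G => Sp G R sm c ∧ Par G R k sm ∧ ¬ Par G (insert v R) k sm) ≤
      Real.exp (-(Real.exp (-(p ^ 2 * c)) * k / 2)) := by
  have hp1 : p ≤ 1 := by linarith
  -- a fixed partition for each graph
  set ch : SimpleGraph (Fin n) → (Fin n → Fin k) → Prop := fun H f =>
    ∀ i, (R.filter (fun x => f x = i)).card ≤ sm ∧ TF H (R.filter (fun x => f x = i)) with hch
  set Bad : SimpleGraph (Fin n) → Fin n → Finset (Fin n) → Prop := fun H _ N =>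
    Sp H R sm c ∧ ∃ h : Par H R k sm,
      ∀ i, (R.filter (fun x => h.choose x = i)).card < sm →
        ¬ Indep H.Adj (N ∩ R.filter (fun x => h.choose x = i)) with hBad
  have hd : Disjoint R {v} := by
    rw [Finset.disjoint_singleton_right]; exact hv
  have e1 : gnp n p (fun G => Sp G R sm c ∧ Par G R k sm ∧ ¬ Par G (insert v R) k sm) ≤
      gnp n p (fun G => ∀ a ∈ ({v} : Finset (Fin n)), Bad (off {v} G) a (nb G a ({v} : Finset (Fin n))ᶜ)) := by
    apply gnp_mono hp0 hp1
    rintro G ⟨h1, h2, h3⟩ a ha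
    rw [Finset.mem_singleton] at ha
    subst ha
    refine ⟨(sp_off G _ R hd sm c).2 h1, (par_off G _ R hd k sm).2 h2, ?_⟩
    intro i hi hI
    apply h3
    set h := (par_off G _ R hd k sm).2 h2 with hh
    refine ⟨fun x => if x = a then i else h.choose x, ?_⟩
    intro i'
    have hspec := h.choose_spec
    have hRf : ∀ j, R.filter (fun x => (if x = a then i else h.choose x) = j) =
        R.filter (fun x => h.choose x = j) := by
      intro j
      apply Finset.filter_congr
      intro x hx
      rw [if_neg (fun h : x = a => hv (h ▸ hx))]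
    by_cases hii : i' = i
    · subst hii
      rw [Finset.filter_insert, if_pos (by simp), hRf]
      constructor
      · refine (Finset.card_insert_le _ _).trans ?_
        omega
      · have htf := (hspec i').2
        set Ci := R.filter (fun x => h.choose x = i') with hCi
        have h0 : ∀ x ∈ Ci, x ≠ a := fun x hx hxa => hv (hxa ▸ (Finset.mem_filter.mp hx).1)
        have hoff : ∀ x ∈ Ci, ∀ y ∈ Ci, G.Adj x y → (off {a} G).Adj x y := by
          intro x hx y hy hxy
          refine ⟨hxy, ?_, ?_⟩
          · rw [Finset.mem_singleton]; exact h0 x hx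
          · rw [Finset.mem_singleton]; exact h0 y hy
        -- no edge of `Ci` in the neighbourhood of `a`
        have hno : ∀ x ∈ Ci, ∀ y ∈ Ci, G.Adj a x → G.Adj a y → G.Adj x y → False := by
          intro x hx y hy hax hay hxy
          refine hI x ?_ y ?_ (hoff x hx y hy hxy)
          · rw [Finset.mem_inter, mem_nb, Finset.mem_compl, Finset.mem_singleton]
            exact ⟨⟨h0 x hx, hax⟩, hx⟩
          · rw [Finset.mem_inter, mem_nb, Finset.mem_compl, Finset.mem_singleton]
            exact ⟨⟨h0 y hy, hay⟩, hy⟩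
        intro x hx y hy z hz hxy hxz hyz
        rw [Finset.mem_insert] at hx hy hz
        rcases hx with rfl | hx
        · rcases hy with rfl | hy
          · exact hxy.ne rfl
          · rcases hz with rfl | hz
            · exact hxz.ne rfl
            · exact hno y hy z hz hxy hxz hyz
        · rcases hy with rfl | hy
          · rcases hz with rfl | hz
            · exact hyz.ne rfl
            · exact hno x hx z hz hxy.symm hyz hxz
          · rcases hz with rfl | hz
            · exact hno x hx y hy hxz.symm hyz.symm hxy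
            · exact htf x hx y hy z hz (hoff x hx y hy hxy) (hoff x hx z hz hxz) (hoff y hy z hz hyz)
    · rw [Finset.filter_insert, if_neg (by simp; exact fun h => hii h.symm), hRf]
      refine ⟨(hspec i').1, ?_⟩
      have htf := (hspec i').2
      intro x hx y hy z hz hxy hxz hyz
      have h0 : ∀ x ∈ R.filter (fun x => h.choose x = i'), x ∉ ({a} : Finset (Fin n)) := by
        intro x hx hxa
        rw [Finset.mem_singleton] at hxa
        exact hv (hxa ▸ (Finset.mem_filter.mp hx).1)
      exact htf x hx y hy z hz ⟨hxy, h0 x hx, h0 y hy⟩ ⟨hxz, h0 x hx, h0 z hz⟩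
        ⟨hyz, h0 y hy, h0 z hz⟩
  refine e1.trans ?_
  have h5 : ∀ H : SimpleGraph (Fin n), ∀ a ∈ ({v} : Finset (Fin n)),
      prs ({v} : Finset (Fin n))ᶜ p (Bad H a) ≤ Real.exp (-(Real.exp (-(p ^ 2 * c)) * k / 2)) := by
    intro H a _
    by_cases hc : Sp H R sm c ∧ Par H R k sm
    · obtain ⟨hsp, hpar⟩ := hc
      set f := hpar.choose with hf
      have hspec := hpar.choose_spec
      set Cl : Fin k → Finset (Fin n) := fun i => R.filter (fun x => f x = i) with hCl
      set Op : Finset (Fin k) := univ.filter (fun i => (Cl i).card < sm) with hOp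
      -- many open classes
      have hopen : k ≤ 2 * Op.card := by
        have h6 : ∑ i : Fin k, (Cl i).card = R.card := by
          rw [← Finset.card_eq_sum_card_fiberwise]
          intro x _
          exact Finset.mem_coe.mpr (Finset.mem_univ _)
        have h7 : Op.card + (univ.filter (fun i => ¬ (Cl i).card < sm)).card = k := by
          rw [Finset.card_filter_add_card_filter_not, Finset.card_univ, Fintype.card_fin]
        have h8 : (univ.filter (fun i => ¬ (Cl i).card < sm)).card * sm ≤ R.card := by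
          rw [← h6, ← smul_eq_mul]
          refine (Finset.card_nsmul_le_sum _ (fun i => (Cl i).card) sm ?_).trans
            (Finset.sum_le_sum_of_subset (Finset.filter_subset _ _))
          intro i hi
          exact not_lt.mp (Finset.mem_filter.mp hi).2
        have h9 : 2 * ((univ.filter (fun i => ¬ (Cl i).card < sm)).card) * sm ≤ k * sm := by
          calc _ = 2 * ((univ.filter (fun i => ¬ (Cl i).card < sm)).card * sm) := by ring
            _ ≤ 2 * R.card := by omega
            _ ≤ k * sm := hR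
        have h10 := Nat.le_of_mul_le_mul_right h9 hsm
        omega
      have e2 : prs ({v} : Finset (Fin n))ᶜ p (Bad H a) ≤
          exs ({v} : Finset (Fin n))ᶜ p (fun N => ∏ i ∈ Op, ind (¬ Indep H.Adj (N ∩ Cl i))) := by
        apply exs_mono _ hp0 hp1
        intro N _
        rw [← ind_forall]
        apply ind_mono
        rintro ⟨_, h6, h7⟩ i hi
        exact h7 i (Finset.mem_filter.mp hi).2
      refine e2.trans ?_
      rw [exs_prod Op p Cl (fun i N => ind (¬ Indep H.Adj N)) _
        (fun i _ x hx => by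
          rw [Finset.mem_compl, Finset.mem_singleton]
          exact fun h => hv (h ▸ (Finset.mem_filter.mp hx).1))
        (fun i _ i' _ hne => by
          rw [Finset.disjoint_left]
          intro x hx hx2
          exact hne ((Finset.mem_filter.mp hx).2.symm.trans (Finset.mem_filter.mp hx2).2))]
      have h6 : ∀ i ∈ Op, exs (Cl i) p (fun N => ind (¬ Indep H.Adj N)) ≤
          Real.exp (-(Real.exp (-(p ^ 2 * c)))) := by
        intro i _
        have h7 : exs (Cl i) p (fun N => ind (¬ Indep H.Adj N)) = 1 - prs (Cl i) p (Indep H.Adj) :=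
          prs_not (Cl i) (Indep H.Adj)
        rw [h7]
        have h8 := indep_lower hp0 hp H (Cl i) c (hsp (Cl i) (Finset.filter_subset _ _) (hspec i).1)
        have h9 := Real.add_one_le_exp (-(Real.exp (-(p ^ 2 * c))))
        linarith
      refine (Finset.prod_le_prod (fun i _ => exs_nonneg _ hp0 hp1 (fun _ _ => ind_nonneg _))
        h6).trans ?_
      rw [Finset.prod_const, ← Real.exp_nat_mul]
      apply Real.exp_le_exp.mpr
      have h7 : (k : ℝ) ≤ 2 * (Op.card : ℝ) := by exact_mod_cast hopen
      have h8 := Real.exp_pos (-(p ^ 2 * c))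
      nlinarith
    · have e2 : prs ({v} : Finset (Fin n))ᶜ p (Bad H a) = 0 := by
        rw [show (0 : ℝ) = exs ({v} : Finset (Fin n))ᶜ p (fun _ => 0) by rw [exs_const]]
        apply exs_congr
        intro W _
        apply ind_neg
        rintro ⟨h6, h7, _⟩
        exact hc ⟨h6, h7⟩
      rw [e2]
      exact (Real.exp_pos _).le
  refine (rows_env hp0 hp1 {v} Bad _ (Real.exp_pos _).le h5).trans (le_of_eq ?_)
  rw [Finset.card_singleton, pow_one]

/-- the greedy partition of a fixed set -/
lemma greedy (hp0 : 0 ≤ p) (hp : p ≤ 1 / 2) (k sm : ℕ) (hk : 0 < k) (hsm : 0 < sm) (c : ℝ)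
    (R : Finset (Fin n)) :
    2 * R.card ≤ k * sm →
    gnp n p (fun G => Sp G R sm c ∧ ¬ Par G R k sm) ≤
      R.card * Real.exp (-(Real.exp (-(p ^ 2 * c)) * k / 2)) := by
  have hp1 : p ≤ 1 := by linarith
  induction R using Finset.induction_on with
  | empty =>
    intro _
    have h1 : gnp n p (fun G => Sp G ∅ sm c ∧ ¬ Par G ∅ k sm) ≤ gnp n p (fun _ => False) := by
      apply gnp_mono hp0 hp1
      rintro G ⟨_, h⟩
      apply h
      refine ⟨fun _ => ⟨0, hk⟩, fun i => ⟨by simp, ?_⟩⟩
      intro x hx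
      simp at hx
    have h2 : gnp n p (fun _ => False) = 0 := by simp [gnp]
    rw [h2] at h1
    simpa using h1
  | insert v R hv ih =>
    intro hR
    rw [Finset.card_insert_of_notMem hv] at hR ⊢
    have ih' := ih (by omega)
    have h1 : gnp n p (fun G => Sp G (insert v R) sm c ∧ ¬ Par G (insert v R) k sm) ≤
        gnp n p (fun G => (Sp G R sm c ∧ ¬ Par G R k sm) ∨
          (Sp G R sm c ∧ Par G R k sm ∧ ¬ Par G (insert v R) k sm)) := by
      apply gnp_mono hp0 hp1
      rintro G ⟨h1, h2⟩
      have h3 : Sp G R sm c := fun C hC hc => h1 C (hC.trans (Finset.subset_insert _ _)) hc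
      by_cases h4 : Par G R k sm
      · exact Or.inr ⟨h3, h4, h2⟩
      · exact Or.inl ⟨h3, h4⟩
    refine h1.trans ((gnp_or hp0 hp1 _ _).trans ?_)
    have h2 := greedy_step hp0 hp R v hv k sm (by omega) hsm c
    push_cast
    linarith

/-- the greedy partition of the vertices without a neighbour in `Q` -/
lemma greedy_unn (hp0 : 0 ≤ p) (hp : p ≤ 1 / 2) (k sm : ℕ) (hk : 0 < k) (hsm : 0 < sm) (c : ℝ)
    (Q : Finset (Fin n)) :
    gnp n p (fun G => 2 * (unn G Q).card ≤ k * sm ∧ Sp G (unn G Q) sm c ∧ ¬ Par G (unn G Q) k sm) ≤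
      n * Real.exp (-(Real.exp (-(p ^ 2 * c)) * k / 2)) := by
  have hp1 : p ≤ 1 := by linarith
  rw [gnp_eq]
  have hsub : eA Q ⊆ eT n := Finset.filter_subset _ _
  have hd : Disjoint (eA Q) (eT n \ eA Q) := Finset.disjoint_sdiff
  have hU : eA Q ∪ (eT n \ eA Q) = eT n := Finset.union_sdiff_of_subset hsub
  set P : Finset (Sym2 (Fin n)) → Finset (Sym2 (Fin n)) → Prop := fun Y Z =>
    2 * (unn (gr Y) Q).card ≤ k * sm ∧ Sp (gr Z) (unn (gr Y) Q) sm c ∧
      ¬ Par (gr Z) (unn (gr Y) Q) k sm with hP
  have h1 : prs (eT n) p (fun W => 2 * (unn (gr W) Q).card ≤ k * sm ∧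
      Sp (gr W) (unn (gr W) Q) sm c ∧ ¬ Par (gr W) (unn (gr W) Q) k sm) =
      exs (eA Q) p (fun Y => exs (eT n \ eA Q) p (fun Z => ind (P Y Z))) := by
    rw [← exs_fubini _ _ hd p (fun Y Z => ind (P Y Z)), hU]
    apply exs_congr
    intro W hW
    apply ind_congr
    have h2 : unn (gr (W ∩ eA Q)) Q = unn (gr W) Q := by
      ext w
      rw [mem_unn, mem_unn]
      apply and_congr_right
      intro _
      apply forall_congr'
      intro x
      apply forall_congr'
      intro hx
      rw [gr_adj, gr_adj, Finset.mem_inter, eA, Finset.mem_filter]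
      constructor
      · rintro h ⟨h3, h4⟩
        exact h ⟨⟨h3, hW h3, x, Sym2.mem_mk_right w x, hx⟩, h4⟩
      · rintro h ⟨⟨h3, _⟩, h4⟩
        exact h ⟨h3, h4⟩
    have hdu : Disjoint (unn (gr W) Q) Q := by
      rw [Finset.disjoint_left]
      intro x hx
      exact (mem_unn.mp hx).1
    rw [hP]
    dsimp only
    rw [h2, ← off_gr Q W hW, sp_off _ _ _ hdu, par_off _ _ _ hdu]
  rw [h1, ← exs_const (eA Q) p (n * Real.exp (-(Real.exp (-(p ^ 2 * c)) * k / 2)))]
  apply exs_mono _ hp0 hp1
  intro Y _
  set R := unn (gr Y) Q with hR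
  have hdR : Disjoint R Q := by
    rw [Finset.disjoint_left]
    intro x hx
    exact (mem_unn.mp hx).1
  by_cases hc : 2 * R.card ≤ k * sm
  · have h3 : exs (eT n \ eA Q) p (fun Z => ind (P Y Z)) =
        gnp n p (fun G => Sp G R sm c ∧ ¬ Par G R k sm) := by
      rw [gnp_eq, show exs (eT n \ eA Q) p (fun Z => ind (P Y Z)) =
        prs (eT n \ eA Q) p (fun Z => P Y Z) from rfl, ← prs_inter (eT n) _ Finset.sdiff_subset]
      apply prs_congr
      intro W hW
      rw [hP]
      dsimp only
      rw [← off_gr Q W hW, sp_off _ _ _ hdR, par_off _ _ _ hdR]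
      exact ⟨fun h => h.2, fun h => ⟨hc, h⟩⟩
    rw [h3]
    refine (greedy hp0 hp k sm hk hsm c R hc).trans ?_
    apply mul_le_mul_of_nonneg_right _ (Real.exp_pos _).le
    have : R.card ≤ n := by
      refine (Finset.card_le_univ _).trans ?_
      rw [Fintype.card_fin]
    exact_mod_cast this
  · have h3 : exs (eT n \ eA Q) p (fun Z => ind (P Y Z)) = 0 := by
      rw [show (0 : ℝ) = exs (eT n \ eA Q) p (fun _ => 0) by rw [exs_const]]
      apply exs_congr
      intro W _
      exact ind_neg (fun h => hc h.1)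
    rw [h3]
    positivity

end

end Pool.Agent.H98.CC
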