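import Pool.Agent.H98.CC.Low

set_option autoImplicit false
set_option linter.unusedSectionVars false

/-!
# The upper bound
-/

namespace Pool.Agent.H98.CC

open Finset
open scoped Classical

/-- the upper bound holds with probability at least `1 - 4 / n` -/
lemma asy_upper (n : ℕ) (p Λ L K δ η : ℝ) (hn : 2 ≤ n) (hp : p = Real.exp (-Λ))
    (hL : L = Real.log n) (hΛ1 : (1 + δ) * L ≤ 3 * Λ) (hΛ2 : 2 * Λ ≤ (1 - η) * L) (hδ : 0 < δ)
    (hη : 0 < η) (hK : 1 ≤ K) (hbig : Big K δ η L) :
    gnp n p (fun G => ¬ (cliqueChromaticNumber G : ℝ) ≤ 250 * ff n p) ≤ 4 / n := by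
  obtain ⟨b1, b2, b3, b4, b5, b6, b7, b8, b9, b10, b11, b12⟩ := hbig
  have hn0 : 0 < n := by omega
  have hnr : (0 : ℝ) < n := by exact_mod_cast hn0
  have hnL : (n : ℝ) = Real.exp L := by rw [hL, Real.exp_log hnr]
  have hL0 : 0 < L := by linarith only [b1]
  have hΛ3 : L ≤ 3 * Λ := by
    have := mul_pos hδ hL0
    linarith only [this, hΛ1]
  have hΛ4 : 2 * Λ ≤ L := by
    have := mul_pos hη hL0
    linarith only [this, hΛ2]
  have hΛ200 : 200 ≤ Λ := by linarith only [hΛ3, b1]
  have hsq1 : 1 ≤ Real.sqrt L := by rw [Real.one_le_sqrt]; linarith only [b1]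
  have hsqL : Real.sqrt L ≤ L := by
    rw [Real.sqrt_le_left hL0.le]; nlinarith only [b1]
  have hsq2 : Real.sqrt L ^ 2 = L := Real.sq_sqrt hL0.le
  have hp0 : 0 < p := hp ▸ Real.exp_pos _
  have hp2 : p ≤ 1 / 2 := by
    rw [hp, Real.exp_neg, inv_le_comm₀ (Real.exp_pos _) (by norm_num)]
    have := Real.add_one_le_exp Λ
    norm_num
    linarith only [this, hΛ200]
  -- `E = p^{-3/2} √L`
  set E : ℝ := Real.exp (3 / 2 * Λ) * Real.sqrt L with hE
  have hE0 : 0 < E := by positivity
  have hE1 : Real.exp (3 / 2 * Λ) ≤ E := by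
    rw [hE]; exact le_mul_of_one_le_right (Real.exp_pos _).le hsq1
  have hE2 : E ^ 2 = Real.exp (3 * Λ) * L := by
    rw [hE, mul_pow, hsq2, ← Real.exp_nat_mul]; congr 2; push_cast; ring
  have hEL : Real.exp (L / 2) ≤ E :=
    le_trans (Real.exp_le_exp.mpr (by linarith only [hΛ3])) hE1
  have hE100 : 150 ≤ E := by
    have := Real.exp_pos (L / 3)
    linarith only [this, b2, hEL, hL0]
  -- `sm`
  set sm : ℕ := ⌊E / 20⌋₊ with hsm
  have sm_hi : (sm : ℝ) ≤ E / 20 := Nat.floor_le (by positivity)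
  have sm_lo : E / 40 ≤ sm := by
    have := Nat.lt_floor_add_one (E / 20)
    linarith only [this, hE100]
  -- `u`
  have hff := ff_eq n p Λ L hp hL hn0
  obtain ⟨u1, u2, u3⟩ := u_bounds Λ L hΛ3 (by linarith only [b1])
  set Y : ℝ := Real.exp (L - 5 / 2 * Λ) / Real.sqrt L with hY
  have hY0 : 0 < Y := by positivity
  set u : ℝ := Real.log (1 + Y) with hu
  have hu3 : Y / (1 + Y) ≤ u := by
    have := Real.one_sub_inv_le_log_of_pos (show 0 < 1 + Y by linarith only [hY0])
    refine le_trans (le_of_eq ?_) this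
    field_simp
    ring
  have e0 : E * Real.exp Λ * Y = Real.exp L := by
    have e2 : Real.exp L = Real.exp (3 / 2 * Λ) * Real.exp Λ * Real.exp (L - 5 / 2 * Λ) := by
      rw [← Real.exp_add, ← Real.exp_add]; congr 1; ring
    rw [hE, hY, e2]
    have : Real.sqrt L ≠ 0 := by positivity
    field_simp
  set f : ℝ := ff n p with hf
  have hf0 : f = Real.exp Λ * u := hff
  -- lower bound for `f`
  have f_lo : Real.exp (L / 5) ≤ f := by
    rw [hf0]
    have h1 : Real.exp Λ * (Y / (1 + Y)) ≤ Real.exp Λ * u :=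
      mul_le_mul_of_nonneg_left hu3 (Real.exp_pos _).le
    refine le_trans ?_ h1
    rcases le_total Y 1 with h2 | h2
    · have h3 : Y / 2 ≤ Y / (1 + Y) :=
        div_le_div_of_nonneg_left hY0.le (by linarith only [hY0]) (by linarith only [h2])
      have h4 : Real.exp Λ * (Y / 2) ≤ Real.exp Λ * (Y / (1 + Y)) :=
        mul_le_mul_of_nonneg_left h3 (Real.exp_pos _).le
      refine le_trans ?_ h4
      have e1 : Real.exp Λ * (Y / 2) = Real.exp (L - 3 / 2 * Λ) / (2 * Real.sqrt L) := by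
        have e2 : Real.exp (L - 3 / 2 * Λ) = Real.exp Λ * Real.exp (L - 5 / 2 * Λ) := by
          rw [← Real.exp_add]; congr 1; ring
        rw [e2, hY]
        field_simp
      rw [e1, le_div_iff₀ (by positivity)]
      have h5 : Real.exp (L / 5) * (2 * Real.sqrt L) ≤ Real.exp (L / 5) * Real.exp (L / 20) := by
        apply mul_le_mul_of_nonneg_left _ (Real.exp_pos _).le
        linarith only [hsqL, b12]
      refine h5.trans ?_
      rw [← Real.exp_add]
      apply Real.exp_le_exp.mpr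
      linarith only [hΛ4]
    · have h3 : 1 / 2 ≤ Y / (1 + Y) := by
        rw [div_le_div_iff₀ (by norm_num) (by linarith only [hY0])]
        linarith only [h2]
      have h4 : Real.exp Λ * (1 / 2) ≤ Real.exp Λ * (Y / (1 + Y)) :=
        mul_le_mul_of_nonneg_left h3 (Real.exp_pos _).le
      refine le_trans ?_ h4
      have h5 : Real.exp (L / 5) * 2 ≤ Real.exp (L / 5) * Real.exp (L / 20) := by
        apply mul_le_mul_of_nonneg_left _ (Real.exp_pos _).le
        linarith only [b1, b12]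
      have h6 : Real.exp (L / 5) * Real.exp (L / 20) ≤ Real.exp Λ := by
        rw [← Real.exp_add]
        apply Real.exp_le_exp.mpr
        linarith only [hΛ3, hL0]
      linarith only [h5, h6]
  have f1 : 1 ≤ f := le_trans (Real.one_le_exp (by positivity)) f_lo
  have f_hi : 2 * f ≤ n := by
    rw [hnL, hf0]
    refine le_trans ?_ b9
    have h1 : Real.exp Λ * u ≤ Real.exp (L / 2) * (2 * L) := by
      apply mul_le_mul _ u2 u1.le (Real.exp_pos _).le
      apply Real.exp_le_exp.mpr; linarith only [hΛ4]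
    linarith only [h1]
  set k1 : ℕ := ⌈f⌉₊ with hk1
  set k2 : ℕ := ⌈240 * f⌉₊ with hk2
  have k1_lo : f ≤ k1 := Nat.le_ceil _
  have k1_hi : (k1 : ℝ) ≤ f + 1 := (Nat.ceil_lt_add_one (by linarith only [f1])).le
  have k2_lo : 240 * f ≤ k2 := Nat.le_ceil _
  have k2_hi : (k2 : ℝ) ≤ 240 * f + 1 := (Nat.ceil_lt_add_one (by linarith only [f1])).le
  -- reduction
  have hred : gnp n p (fun G => ¬ (cliqueChromaticNumber G : ℝ) ≤ 250 * f) ≤
      gnp n p (fun G => ¬ cliqueChromaticNumber G ≤ 2 * k1 + k2) := by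
    apply gnp_mono hp0.le (by linarith only [hp2])
    intro G h h2
    apply h
    have h3 : (cliqueChromaticNumber G : ℝ) ≤ ((2 * k1 + k2 : ℕ) : ℝ) := by exact_mod_cast h2
    push_cast at h3
    linarith only [h3, k1_hi, k2_hi, f1]
  refine hred.trans ?_
  refine upper_prob hp0.le hp2 hn k1 k2 sm (Real.exp L / (1 + Y)) ?_ ?_ ?_ ?_ ?_ ?_ ?_ ?_ ?_ ?_
  · have h1 : (k1 : ℝ) ≤ n := by linarith only [k1_hi, f_hi, f1]
    exact_mod_cast h1
  · have h1 : (0 : ℝ) < k2 := by linarith only [k2_lo, f1]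
    exact_mod_cast h1
  · have h1 : (0 : ℝ) < sm := by linarith only [sm_lo, hE0]
    exact_mod_cast h1
  · have h1 : (sm : ℝ) ≤ n := by
      rw [hnL]
      refine le_trans ?_ b4
      have h2 : E ≤ Real.exp (3 / 4 * L) * L := by
        rw [hE]
        apply mul_le_mul _ hsqL (by positivity) (by positivity)
        apply Real.exp_le_exp.mpr; linarith only [hΛ4]
      have h3 : 0 ≤ Real.exp (3 / 4 * L) * L := by positivity
      have h4 : 1 * (Real.exp (3 / 4 * L) * L) ≤ K * (Real.exp (3 / 4 * L) * L) :=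
        mul_le_mul_of_nonneg_right hK h3
      have h5 : 4 * K * Real.exp (3 / 4 * L) * L = 4 * (K * (Real.exp (3 / 4 * L) * L)) := by ring
      rw [h5]
      linarith only [h4, h2, h3, sm_hi, hE0]
    exact_mod_cast h1
  · -- c1
    rw [← hL]
    have h1 : p ^ 2 * n = Real.exp (L - 2 * Λ) := by
      rw [hnL, hp, ← Real.exp_nat_mul, ← Real.exp_add]; congr 1; push_cast; ring
    have h2 : Real.exp (η * L) ≤ Real.exp (L - 2 * Λ) := by
      apply Real.exp_le_exp.mpr; linarith only [hΛ2]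
    have h3 : p ^ 2 ≤ 1 / 2 := by nlinarith only [hp2, hp0]
    have h4 : p ^ 2 * (n - 2) = p ^ 2 * n - 2 * p ^ 2 := by ring
    rw [h4, h1]
    linarith only [h2, h3, b11]
  · -- c2
    rw [← hL]
    have h1 : Real.exp (L / 6) ≤ E * p := by
      have h2 := mul_le_mul_of_nonneg_right hE1 hp0.le
      refine le_trans ?_ h2
      rw [hp, ← Real.exp_add]
      apply Real.exp_le_exp.mpr; linarith only [hΛ3]
    have h2 : E / 40 * p ≤ sm * p := mul_le_mul_of_nonneg_right sm_lo hp0.le
    linarith only [h1, h2, b5, hL0]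
  · -- c3
    rw [hnL, div_eq_mul_inv]
    apply mul_le_mul_of_nonneg_left _ (Real.exp_pos _).le
    have h1 : (1 + Y)⁻¹ = Real.exp (-u) := by
      rw [Real.exp_neg, hu, Real.exp_log (by linarith only [hY0])]
    rw [h1]
    apply Real.exp_le_exp.mpr
    have h2 : p * f ≤ p * k1 := mul_le_mul_of_nonneg_left k1_lo hp0.le
    have h3 : p * f = u := by
      rw [hf0, hp, ← mul_assoc, ← Real.exp_add, neg_add_cancel, Real.exp_zero, one_mul]
    linarith only [h2, h3]
  · -- c4
    rw [← hL, le_div_iff₀ (by linarith only [hY0])]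
    have h1 : 1 ≤ Real.exp (L / 6) := Real.one_le_exp (by positivity)
    have h2 : L * (1 + Y) ≤ Real.exp (L / 6) * (2 * Real.exp (L / 6)) := by
      apply mul_le_mul _ _ (by linarith only [hY0]) (Real.exp_pos _).le
      · linarith only [b5, hL0]
      · linarith only [h1, u3]
    refine h2.trans ?_
    have h3 : 2 ≤ Real.exp (L / 6) := by linarith only [b5, b1]
    have h4 : Real.exp (L / 6) * (Real.exp (L / 6) * Real.exp (L / 6)) ≤ Real.exp L := by
      rw [← Real.exp_add, ← Real.exp_add]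
      apply Real.exp_le_exp.mpr; linarith only [hL0]
    have h5 : Real.exp (L / 6) * (2 * Real.exp (L / 6)) ≤
        Real.exp (L / 6) * (Real.exp (L / 6) * Real.exp (L / 6)) := by
      apply mul_le_mul_of_nonneg_left _ (Real.exp_pos _).le
      exact mul_le_mul_of_nonneg_right h3 (Real.exp_pos _).le
    linarith only [h4, h5]
  · -- c5
    have h1 : Real.exp L / (1 + Y) = E * Real.exp Λ * (Y / (1 + Y)) := by
      rw [← e0]; ring
    have h2 : E * Real.exp Λ * (Y / (1 + Y)) ≤ E * Real.exp Λ * u :=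
      mul_le_mul_of_nonneg_left hu3 (by positivity)
    have h3 : 240 * f * (E / 40) ≤ k2 * sm :=
      mul_le_mul k2_lo sm_lo (by positivity) (by positivity)
    have h4 : 240 * f * (E / 40) = 6 * (E * Real.exp Λ * u) := by rw [hf0]; ring
    rw [h1]
    linarith only [h2, h3, h4]
  · -- c6
    rw [← hL]
    have h1 : p ^ 2 * (8 * (sm : ℝ) ^ 2 * p) ≤ L / 50 := by
      have h2 : (sm : ℝ) ^ 2 ≤ (E / 20) ^ 2 := pow_le_pow_left₀ (by positivity) sm_hi 2
      have e1 : p ^ 3 = Real.exp (-(3 * Λ)) := by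
        rw [hp, ← Real.exp_nat_mul]; congr 1; push_cast; ring
      have e2 : Real.exp (-(3 * Λ)) * Real.exp (3 * Λ) = 1 := by
        rw [← Real.exp_add, neg_add_cancel, Real.exp_zero]
      calc p ^ 2 * (8 * (sm : ℝ) ^ 2 * p) = 8 * p ^ 3 * (sm : ℝ) ^ 2 := by ring
        _ ≤ 8 * p ^ 3 * (E / 20) ^ 2 := mul_le_mul_of_nonneg_left h2 (by positivity)
        _ = (Real.exp (-(3 * Λ)) * Real.exp (3 * Λ)) * (L / 50) := by
          rw [e1, div_pow, hE2]; ring
        _ = L / 50 := by rw [e2, one_mul]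
    have h2 : Real.exp (-(L / 50)) ≤ Real.exp (-(p ^ 2 * (8 * (sm : ℝ) ^ 2 * p))) := by
      apply Real.exp_le_exp.mpr; linarith only [h1]
    have h3 : Real.exp (L / 5) ≤ k2 := by linarith only [f_lo, k2_lo, f1]
    have h4 : Real.exp (-(L / 50)) * Real.exp (L / 5) ≤
        Real.exp (-(p ^ 2 * (8 * (sm : ℝ) ^ 2 * p))) * k2 :=
      mul_le_mul h2 h3 (Real.exp_pos _).le (Real.exp_pos _).le
    refine le_trans ?_ h4
    rw [← Real.exp_add]
    refine b10.trans ?_
    apply Real.exp_le_exp.mpr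
    linarith only [hL0]

end Pool.Agent.H98.CC
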